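import Mathlib
import Pool.Agent.Helper64.Vojta.OneSpace

/-!
Points of projective space over an algebraic closure of a number field `k`: residue field, height,
logarithmic discriminant, Weil functions of hyperplanes.

A point is given by its affine coordinates `y = (y_1, …, y_n)`, i.e. it is the point `(1 : y_1 : … : y_n)`.
`Pl`, `nv`, `sn` (in `Pool/Agent/Helper64/Vojta/Places.lean`) are the places, the normalised absolute values
and the maximum of the absolute values of the coordinates, `above` (in `OneSpace.lean`) the set of places
above a place.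
-/

set_option autoImplicit false

namespace Pool.Agent.VZ

open NumberField IntermediateField Pool.Agent.Helper64.Vojta

universe u

variable {k : Type u} [Field k] [NumberField k] {n : ℕ}

/-- The field generated over `k` by the affine coordinates of the point. -/
noncomputable def fld (y : Fin n → AlgebraicClosure k) : IntermediateField k (AlgebraicClosure k) :=
  adjoin k (Set.range y)

/-- It is a number field. -/
instance numberField_fld (y : Fin n → AlgebraicClosure k) : NumberField (fld y) := by
  have : FiniteDimensional k (fld y) :=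
    finiteDimensional_adjoin fun x _ => Algebra.IsIntegral.isIntegral x
  have h0 : CharZero (fld y) := charZero_of_injective_algebraMap (algebraMap k (fld y)).injective
  have h1 : FiniteDimensional ℚ (fld y) := Module.Finite.trans k (fld y)
  exact { to_charZero := h0, to_finiteDimensional := h1 }

/-- The degree of the point over `k`. -/
noncomputable def dg (y : Fin n → AlgebraicClosure k) : ℕ := Module.finrank k (fld y)

/-- The homogeneous coordinates `(1 : y_1 : … : y_n)` of the point. -/
noncomputable def crd (y : Fin n → AlgebraicClosure k) : Fin (n + 1) → fld y :=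
  Fin.cons 1 fun i => ⟨y i, subset_adjoin k _ (Set.mem_range_self i)⟩

/-- Logarithmic height (for the hyperplane class), relative to `k`. -/
noncomputable def hgt (y : Fin n → AlgebraicClosure k) : ℝ := Height.logHeight (crd y) / dg y

/-- Logarithmic discriminant. -/
noncomputable def dk (y : Fin n → AlgebraicClosure k) : ℝ :=
  Real.log |(discr (fld y) : ℝ)| / dg y - Real.log |(discr k : ℝ)|

/-- `∑_{ν ∈ S} λ_D(y,ν)` for the sum `D` of the hyperplanes `Λ i = 0`. -/
noncomputable def lam {q : ℕ} (Λ : Fin q → Fin (n + 1) → k) (S : Finset (Pl k))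
    (y : Fin n → AlgebraicClosure k) : ℝ :=
  (∑ ν ∈ S, ∑ w ∈ above (fld y) ν, ∑ i, (Real.log (sn w (crd y)) -
    Real.log (nv w (∑ j, algebraMap k (fld y) (Λ i j) * crd y j)))) / dg y

/-- Any `n + 1` of the hyperplanes `Λ i = 0` of `P^n` have no common point. -/
def GenPos {q : ℕ} (Λ : Fin q → Fin (n + 1) → k) : Prop :=
  ∀ f : Fin (n + 1) → Fin q, Function.Injective f → (Matrix.of fun i j => Λ (f i) j).det ≠ 0

/-- The point is not on the hyperplanes `Λ i = 0` and not on `G = 0`, and
`h_K(y) + ∑_{ν ∈ S} λ_D(y,ν) > ε h(y) + α d_k(y) + C`, where `h_K = - (n + 1) h`. -/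
def Violates {q : ℕ} (S : Finset (Pl k)) (Λ : Fin q → Fin (n + 1) → k)
    (G : MvPolynomial (Fin n) (AlgebraicClosure k)) (α ε C : ℝ) (y : Fin n → AlgebraicClosure k) : Prop :=
  MvPolynomial.eval y G ≠ 0 ∧ (∀ i, ∑ j, algebraMap k (fld y) (Λ i j) * crd y j ≠ 0) ∧
    ε * hgt y + α * dk y + C < -((n + 1) * hgt y) + lam Λ S y

end Pool.Agent.VZ
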