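import Mathlib
import Pool.Agent.Helper52.Vojta.BaseChange

/-!
The absolute logarithmic height of the elements of an algebraic closure of a number field.
-/

set_option autoImplicit false

namespace Pool.Agent.Helper64.VZ

open NumberField IntermediateField Module Height

universe u

section general

variable {L : Type*} [Field L] [NumberField L] {L' : Type*} [Field L'] [NumberField L']

/-- normalised height in a number field -/
noncomputable def nh (x : L) : ℝ := logHeight₁ x / finrank ℚ L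

theorem finrank_pos' (L : Type*) [Field L] [NumberField L] : (0 : ℝ) < finrank ℚ L := by
  exact_mod_cast (finrank_pos : 0 < finrank ℚ L)

theorem tw (L : Type*) [Field L] [NumberField L] :
    (totalWeight L : ℝ) = finrank ℚ L := by
  exact_mod_cast congrArg (Nat.cast (R := ℝ)) (NumberField.totalWeight_eq_finrank L)

theorem nh_map (φ : L →+* L') (x : L) : nh (φ x) = nh x := by
  letI : Algebra L L' := φ.toAlgebra
  have h1 := Pool.Agent.Helper52.Vojta.logHeight_algebraMap (L := L) (L' := L') (x := ![x, 1]) (by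
    intro h
    have := congrFun h 1
    simp at this)
  have h2 : (fun i => algebraMap L L' (![x, 1] i)) = ![φ x, 1] := by
    funext i
    fin_cases i
    · rfl
    · simp
  rw [h2, ← logHeight₁_eq_logHeight, ← logHeight₁_eq_logHeight] at h1
  have h3 : finrank ℚ L * finrank L L' = finrank ℚ L' := finrank_mul_finrank ℚ L L'
  unfold nh
  rw [h1, ← h3]
  push_cast
  have h4 := finrank_pos' L
  have h5 : (0 : ℝ) < finrank L L' := by
    have : FiniteDimensional L L' := FiniteDimensional.right ℚ L L'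
    exact_mod_cast (finrank_pos : 0 < finrank L L')
  field_simp

theorem nh_nonneg (x : L) : 0 ≤ nh x := div_nonneg (zero_le_logHeight₁ x) (finrank_pos' L).le

theorem nh_pow (x : L) (n : ℕ) : nh (x ^ n) = n * nh x := by
  unfold nh
  rw [logHeight₁_pow, mul_div_assoc]

theorem nh_inv (x : L) : nh x⁻¹ = nh x := by
  unfold nh
  rw [logHeight₁_inv]

theorem nh_mul_le (x y : L) : nh (x * y) ≤ nh x + nh y := by
  unfold nh
  rw [← add_div]
  exact div_le_div_of_nonneg_right (logHeight₁_mul_le x y) (finrank_pos' L).le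

theorem nh_add_le (x y : L) : nh (x + y) ≤ nh x + nh y + Real.log 2 := by
  unfold nh
  have h := logHeight₁_add_le x y
  rw [tw] at h
  have h0 := finrank_pos' L
  rw [← add_div, ← sub_le_iff_le_add, div_sub' h0.ne', div_le_div_iff_of_pos_right h0]
  linarith

theorem nh_sub_le (x y : L) : nh (x - y) ≤ nh x + nh y + Real.log 2 := by
  unfold nh
  have h := logHeight₁_sub_le x y
  rw [tw] at h
  have h0 := finrank_pos' L
  rw [← add_div, ← sub_le_iff_le_add, div_sub' h0.ne', div_le_div_iff_of_pos_right h0]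
  linarith

/-- the height is at least the logarithm of every absolute value -/
theorem log_norm_le (φ : L →+* ℂ) (x : L) : Real.log ‖φ x‖ ≤ finrank ℚ L * nh x := by
  have h1 : finrank ℚ L * nh x = logHeight₁ x := by
    unfold nh
    rw [mul_div_cancel₀ _ (finrank_pos' L).ne']
  rw [h1, NumberField.logHeight₁_eq]
  have h2 : 0 ≤ ∑ᶠ v : FinitePlace L, Real.posLog (v x) := finsum_nonneg fun v => Real.posLog_nonneg
  have h3 : Real.log ‖φ x‖ ≤ ∑ v : InfinitePlace L, v.mult * Real.posLog (v x) := by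
    have h4 : ((InfinitePlace.mk φ).mult : ℝ) * Real.posLog (InfinitePlace.mk φ x) ≤
        ∑ v : InfinitePlace L, v.mult * Real.posLog (v x) :=
      Finset.single_le_sum (f := fun v : InfinitePlace L => (v.mult : ℝ) * Real.posLog (v x))
        (fun v _ => mul_nonneg (Nat.cast_nonneg _) Real.posLog_nonneg) (Finset.mem_univ _)
    refine le_trans ?_ h4
    rw [InfinitePlace.apply]
    have h5 : (1 : ℝ) ≤ (InfinitePlace.mk φ).mult := by
      exact_mod_cast (InfinitePlace.mk φ).mult_pos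
    calc Real.log ‖φ x‖ ≤ Real.posLog ‖φ x‖ := le_max_right _ _
      _ = 1 * Real.posLog ‖φ x‖ := (one_mul _).symm
      _ ≤ _ := mul_le_mul_of_nonneg_right h5 Real.posLog_nonneg
  linarith

theorem nh_two : nh (2 : L) = Real.log 2 := by
  have h1 : nh (algebraMap ℚ L 2) = nh (2 : ℚ) := nh_map _ _
  have h2 : algebraMap ℚ L 2 = 2 := map_ofNat _ 2
  rw [h2] at h1
  rw [h1]
  unfold nh
  rw [finrank_self]
  have := Rat.logHeight₁_natCast 2
  simpa using this

end general

section closure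

variable {k : Type u} [Field k] [NumberField k]

theorem nf (E : IntermediateField k (AlgebraicClosure k)) [FiniteDimensional k E] : NumberField E := by
  have h0 : CharZero E := charZero_of_injective_algebraMap (algebraMap k E).injective
  have h1 : FiniteDimensional ℚ E := Module.Finite.trans k E
  exact { to_charZero := h0, to_finiteDimensional := h1 }

theorem fd (x : AlgebraicClosure k) : FiniteDimensional k k⟮x⟯ :=
  adjoin.finiteDimensional (Algebra.IsIntegral.isIntegral x)

/-- absolute height -/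
noncomputable def H (x : AlgebraicClosure k) : ℝ :=
  haveI := fd x
  haveI := nf k⟮x⟯
  nh (AdjoinSimple.gen k x)

theorem H_eq (E : IntermediateField k (AlgebraicClosure k)) [NumberField E] (x : E) :
    nh x = H (x : AlgebraicClosure k) := by
  haveI := fd (x : AlgebraicClosure k)
  haveI := nf k⟮(x : AlgebraicClosure k)⟯
  have h : k⟮(x : AlgebraicClosure k)⟯ ≤ E := by
    rw [adjoin_simple_le_iff]
    exact x.2
  have h1 := nh_map (inclusion h : k⟮(x : AlgebraicClosure k)⟯ →+* E) (AdjoinSimple.gen k (x : AlgebraicClosure k))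
  have h2 : (inclusion h : k⟮(x : AlgebraicClosure k)⟯ →+* E) (AdjoinSimple.gen k (x : AlgebraicClosure k)) = x := by
    apply Subtype.ext
    rfl
  rw [h2] at h1
  exact h1

/-- two elements lie in a number field -/
theorem exists_pair (x y : AlgebraicClosure k) :
    ∃ (E : IntermediateField k (AlgebraicClosure k)) (_ : NumberField E), x ∈ E ∧ y ∈ E := by
  haveI := fd x
  haveI := fd y
  haveI : FiniteDimensional k (k⟮x⟯ ⊔ k⟮y⟯ : IntermediateField k (AlgebraicClosure k)) :=
    IntermediateField.finiteDimensional_sup _ _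
  exact ⟨k⟮x⟯ ⊔ k⟮y⟯, nf _, (le_sup_left : k⟮x⟯ ≤ _) (mem_adjoin_simple_self k x),
    (le_sup_right : k⟮y⟯ ≤ _) (mem_adjoin_simple_self k y)⟩

theorem H_nonneg (x : AlgebraicClosure k) : 0 ≤ H x := by
  unfold H
  haveI := fd x
  haveI := nf k⟮x⟯
  exact nh_nonneg _

theorem H_pow (x : AlgebraicClosure k) (n : ℕ) : H (x ^ n) = n * H x := by
  obtain ⟨E, _, hx, -⟩ := exists_pair x x
  have h1 := H_eq E ⟨x, hx⟩
  have h2 := H_eq E (⟨x, hx⟩ ^ n)
  rw [nh_pow] at h2
  rw [← h1, h2]
  rfl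

theorem H_inv (x : AlgebraicClosure k) : H x⁻¹ = H x := by
  obtain ⟨E, _, hx, -⟩ := exists_pair x x
  have h1 := H_eq E ⟨x, hx⟩
  have h2 := H_eq E (⟨x, hx⟩⁻¹)
  rw [nh_inv] at h2
  rw [← h1, h2]
  rfl

theorem H_mul_le (x y : AlgebraicClosure k) : H (x * y) ≤ H x + H y := by
  obtain ⟨E, _, hx, hy⟩ := exists_pair x y
  have h1 := H_eq E ⟨x, hx⟩
  have h2 := H_eq E ⟨y, hy⟩
  have h3 := H_eq E (⟨x, hx⟩ * ⟨y, hy⟩)
  have h4 := nh_mul_le (⟨x, hx⟩ : E) ⟨y, hy⟩
  rw [h1, h2, h3] at h4
  exact h4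

theorem H_add_le (x y : AlgebraicClosure k) : H (x + y) ≤ H x + H y + Real.log 2 := by
  obtain ⟨E, _, hx, hy⟩ := exists_pair x y
  have h1 := H_eq E ⟨x, hx⟩
  have h2 := H_eq E ⟨y, hy⟩
  have h3 := H_eq E (⟨x, hx⟩ + ⟨y, hy⟩)
  have h4 := nh_add_le (⟨x, hx⟩ : E) ⟨y, hy⟩
  rw [h1, h2, h3] at h4
  exact h4

theorem H_sub_le (x y : AlgebraicClosure k) : H (x - y) ≤ H x + H y + Real.log 2 := by
  obtain ⟨E, _, hx, hy⟩ := exists_pair x y
  have h1 := H_eq E ⟨x, hx⟩
  have h2 := H_eq E ⟨y, hy⟩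
  have h3 := H_eq E (⟨x, hx⟩ - ⟨y, hy⟩)
  have h4 := nh_sub_le (⟨x, hx⟩ : E) ⟨y, hy⟩
  rw [h1, h2, h3] at h4
  exact h4

theorem H_one : H (1 : AlgebraicClosure k) = 0 := by
  have h := H_pow (1 : AlgebraicClosure k) 0
  rw [one_pow] at h
  simpa using h

theorem H_two : H (2 : AlgebraicClosure k) = Real.log 2 := by
  obtain ⟨E, _, hx, -⟩ := exists_pair (2 : AlgebraicClosure k) 2
  have h1 := H_eq E (2 : E)
  rw [nh_two] at h1
  exact h1.symm

theorem H_one_sub_le (x : AlgebraicClosure k) : H (1 - x) ≤ H x + Real.log 2 := by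
  have := H_sub_le 1 x
  rw [H_one] at this
  linarith

theorem H_le_one_sub (x : AlgebraicClosure k) : H x ≤ H (1 - x) + Real.log 2 := by
  have := H_one_sub_le (1 - x)
  rwa [sub_sub_cancel] at this

theorem H_one_add_le (x : AlgebraicClosure k) : H (1 + x) ≤ H x + Real.log 2 := by
  have := H_add_le 1 x
  rw [H_one] at this
  linarith

theorem H_le_one_add (x : AlgebraicClosure k) : H x ≤ H (1 + x) + Real.log 2 := by
  have := H_sub_le (1 + x) 1
  rw [H_one] at this
  have e : 1 + x - 1 = x := by ring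
  rw [e] at this
  linarith

/-- one step of the tower -/
theorem H_step (κ : AlgebraicClosure k) (h1 : 1 + κ ≠ 0) (l : AlgebraicClosure k)
    (hl : 1 - l = ((1 - κ) / (1 + κ)) ^ 2) : H (κ ^ 2) - 7 * Real.log 2 ≤ H l := by
  have e1 := H_one_sub_le l
  rw [hl, H_pow] at e1
  have e2 : 1 + (1 - κ) / (1 + κ) = 2 * (1 + κ)⁻¹ := by
    field_simp
    ring
  have e3 := H_one_add_le ((1 - κ) / (1 + κ))
  rw [e2] at e3
  have e4 : H (1 + κ) ≤ H (2 * (1 + κ)⁻¹) + Real.log 2 := by
    have h := H_mul_le (2 * (1 + κ)⁻¹) (2 : AlgebraicClosure k)⁻¹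
    rw [H_inv, H_two] at h
    have e : 2 * (1 + κ)⁻¹ * (2 : AlgebraicClosure k)⁻¹ = (1 + κ)⁻¹ := by
      have : (2 : AlgebraicClosure k) ≠ 0 := two_ne_zero
      field_simp
    rw [e, H_inv] at h
    exact h
  have e5 := H_le_one_add κ
  rw [H_pow]
  push_cast at e1 ⊢
  linarith

/-- the start of the tower -/
theorem H_start (t l : AlgebraicClosure k) (ht : t ≠ 0) (hl0 : l ≠ 0) (hl : l ^ 2 = t * (1 - l)) :
    H t / 2 - 7 / 2 * Real.log 2 ≤ H l := by
  have e1 : t⁻¹ = (l⁻¹ - 2⁻¹) ^ 2 - 2⁻¹ ^ 2 := by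
    have h2 : (2 : AlgebraicClosure k) ≠ 0 := two_ne_zero
    have h3 : t⁻¹ * l ^ 2 = 1 - l := by
      rw [hl]
      field_simp
    have h4 : t⁻¹ = (1 - l) * (l ^ 2)⁻¹ := by
      rw [← h3]
      field_simp
    rw [h4]
    field_simp
    ring
  have e2 := H_sub_le ((l⁻¹ - 2⁻¹) ^ 2) (2⁻¹ ^ 2 : AlgebraicClosure k)
  rw [← e1, H_inv, H_pow, H_pow, H_inv, H_two] at e2
  have e3 := H_sub_le l⁻¹ (2 : AlgebraicClosure k)⁻¹
  rw [H_inv, H_inv, H_two] at e3
  push_cast at e2
  linarith

end closure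

end Pool.Agent.Helper64.VZ
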