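import Mathlib
import Pool.Agent.Helper64.VZ.H

/-!
Upper bounds for discriminants of extensions generated by roots of integral polynomials.
-/

set_option autoImplicit false

namespace Pool.Agent.Helper64.VZ

open NumberField IntermediateField Module Height Polynomial Pool.Agent.Helper64.Vojta

universe u

section general

variable {F : Type*} [Field F] [NumberField F] {L : Type*} [Field L] [NumberField L]

/-- logarithm of the root discriminant -/
noncomputable def rd (L : Type*) [Field L] [NumberField L] : ℝ := Real.log |(discr L : ℝ)| / finrank ℚ L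

theorem abs_discr (L : Type*) [Field L] [NumberField L] : |(discr L : ℝ)| = ((discr L).natAbs : ℝ) := by
  rw [Nat.cast_natAbs, Int.cast_abs]

theorem discr_pos (L : Type*) [Field L] [NumberField L] : (0 : ℝ) < ((discr L).natAbs : ℝ) := by
  exact_mod_cast Nat.pos_of_ne_zero (Int.natAbs_ne_zero.mpr (discr_ne_zero L))

theorem log_discr_tower [Algebra F L] {N : ℕ} (hN : N ≠ 0)
    (h : Ideal.absNorm (differentIdeal (𝓞 F) (𝓞 L)) ≤ N) :
    rd L ≤ rd F + Real.log N / finrank ℚ L := by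
  have h1 := natAbs_discr_eq_absNorm_differentIdeal_mul_natAbs_discr_pow F (𝓞 F) L (𝓞 L)
  have h2 : ((discr L).natAbs : ℝ) ≤ N * ((discr F).natAbs : ℝ) ^ finrank F L := by
    rw [h1]
    push_cast
    exact mul_le_mul_of_nonneg_right (by exact_mod_cast h) (by positivity)
  have hF := discr_pos F
  have hL := discr_pos L
  have h3 : Real.log ((discr L).natAbs : ℝ) ≤ Real.log N + finrank F L * Real.log ((discr F).natAbs : ℝ) := by
    refine (Real.log_le_log hL h2).trans ?_
    rw [Real.log_mul (by exact_mod_cast hN) (by positivity), Real.log_pow]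
  have h4 : finrank ℚ F * finrank F L = finrank ℚ L := finrank_mul_finrank ℚ F L
  have h5 := finrank_pos' F
  have h6 := finrank_pos' L
  have h7 : (finrank ℚ L : ℝ) = finrank ℚ F * finrank F L := by exact_mod_cast h4.symm
  unfold rd
  rw [abs_discr, abs_discr, div_le_iff₀ h6, add_mul, div_mul_cancel₀ _ h6.ne', h7]
  rw [div_mul_eq_mul_div, mul_comm (Real.log _) ((finrank ℚ F : ℝ) * _), mul_assoc, mul_div_cancel_left₀ _ h5.ne']
  linarith

theorem rd_mono (φ : F →+* L) : rd F ≤ rd L := by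
  let : Algebra F L := φ.toAlgebra
  have h1 := natAbs_discr_eq_absNorm_differentIdeal_mul_natAbs_discr_pow F (𝓞 F) L (𝓞 L)
  have hF := discr_pos F
  have hL := discr_pos L
  have h0 : Ideal.absNorm (differentIdeal (𝓞 F) (𝓞 L)) ≠ 0 := by
    intro h
    rw [h, zero_mul] at h1
    exact (Int.natAbs_ne_zero.mpr (discr_ne_zero L)) h1
  have h2 : ((discr F).natAbs : ℝ) ^ finrank F L ≤ ((discr L).natAbs : ℝ) := by
    have h3 : (discr F).natAbs ^ finrank F L ≤ (discr L).natAbs := by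
      rw [h1]
      exact Nat.le_mul_of_pos_left _ (Nat.pos_of_ne_zero h0)
    exact_mod_cast h3
  have h3 : finrank F L * Real.log ((discr F).natAbs : ℝ) ≤ Real.log ((discr L).natAbs : ℝ) := by
    rw [← Real.log_pow]
    exact Real.log_le_log (by positivity) h2
  have h4 : finrank ℚ F * finrank F L = finrank ℚ L := finrank_mul_finrank ℚ F L
  have h5 := finrank_pos' F
  have h6 := finrank_pos' L
  have h7 : (finrank ℚ L : ℝ) = finrank ℚ F * finrank F L := by exact_mod_cast h4.symm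
  unfold rd
  rw [abs_discr, abs_discr, div_le_div_iff₀ h5 h6, h7]
  calc Real.log ((discr F).natAbs : ℝ) * (finrank ℚ F * finrank F L)
      = (finrank F L * Real.log ((discr F).natAbs : ℝ)) * finrank ℚ F := by ring
    _ ≤ _ := mul_le_mul_of_nonneg_right h3 h5.le

/-- Upper bound for the discriminant of `F(θ)`, `P(θ) = 0`. -/
theorem rd_le [Algebra F L] (θ : 𝓞 L) (hadj : Algebra.adjoin F {(θ : L)} = ⊤) (P : (𝓞 F)[X])
    (hP : aeval θ P = 0) (h0 : aeval θ (derivative P) ≠ 0) :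
    rd L ≤ rd F + Real.log |(Algebra.norm ℤ (aeval θ (derivative P)) : ℝ)| / finrank ℚ L := by
  have hint : IsIntegral (𝓞 F) θ := Algebra.IsIntegral.isIntegral θ
  obtain ⟨Q, hQ⟩ := minpoly.isIntegrallyClosed_dvd hint hP
  have h1 : aeval θ (derivative (minpoly (𝓞 F) θ)) ∈ differentIdeal (𝓞 F) (𝓞 L) :=
    aeval_derivative_mem_differentIdeal (𝓞 F) F L θ hadj
  have h2 : aeval θ (derivative P) = aeval θ (derivative (minpoly (𝓞 F) θ)) * aeval θ Q := by
    conv_lhs => rw [hQ]
    rw [derivative_mul, map_add, map_mul, map_mul, minpoly.aeval, zero_mul, add_zero]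
  have hmem : aeval θ (derivative P) ∈ differentIdeal (𝓞 F) (𝓞 L) := by
    rw [h2]
    exact Ideal.mul_mem_right _ _ h1
  have hdvd := Ideal.absNorm_dvd_absNorm_of_le ((Ideal.span_singleton_le_iff_mem _).mpr hmem)
  rw [Ideal.absNorm_span_singleton] at hdvd
  have hN0 : (Algebra.norm ℤ (aeval θ (derivative P))).natAbs ≠ 0 :=
    Int.natAbs_ne_zero.mpr (Algebra.norm_ne_zero_iff.mpr h0)
  have hle := Nat.le_of_dvd (Nat.pos_of_ne_zero hN0) hdvd
  have h3 := log_discr_tower hN0 hle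
  rwa [Nat.cast_natAbs, Int.cast_abs] at h3

theorem log_norm_le_of_dvd (c : 𝓞 L) (B : ℕ) (hB : B ≠ 0) (h : c ∣ (B : 𝓞 L)) :
    Real.log |(Algebra.norm ℤ c : ℝ)| / finrank ℚ L ≤ Real.log B := by
  have hc : c ≠ 0 := by
    rintro rfl
    rw [zero_dvd_iff] at h
    exact hB (by exact_mod_cast h)
  have h1 : Algebra.norm ℤ c ∣ Algebra.norm ℤ (B : 𝓞 L) := map_dvd _ h
  have h2 : Algebra.norm ℤ (B : 𝓞 L) = (B : ℤ) ^ finrank ℚ L := by
    have := Algebra.norm_algebraMap (S := 𝓞 L) (B : ℤ)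
    rw [RingOfIntegers.rank] at this
    rw [← this]
    simp
  rw [h2] at h1
  have h3 : |Algebra.norm ℤ c| ≤ |(B : ℤ) ^ finrank ℚ L| := by
    have := Int.natAbs_dvd_natAbs.mpr h1
    have h4 := Nat.le_of_dvd (Nat.pos_of_ne_zero (Int.natAbs_ne_zero.mpr (pow_ne_zero _ (by exact_mod_cast hB)))) this
    rw [Int.abs_eq_natAbs, Int.abs_eq_natAbs]
    exact_mod_cast h4
  have h4 : |(Algebra.norm ℤ c : ℝ)| ≤ (B : ℝ) ^ finrank ℚ L := by
    have h5 : ((|Algebra.norm ℤ c| : ℤ) : ℝ) ≤ ((|(B : ℤ) ^ finrank ℚ L| : ℤ) : ℝ) := by exact_mod_cast h3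
    rw [Int.cast_abs, Int.cast_abs] at h5
    refine h5.trans (le_of_eq ?_)
    push_cast
    exact abs_of_nonneg (by positivity)
  have h5 : (0 : ℝ) < |(Algebra.norm ℤ c : ℝ)| := by
    rw [abs_pos]
    exact_mod_cast Algebra.norm_ne_zero_iff.mpr hc
  have h6 := finrank_pos' L
  rw [div_le_iff₀ h6, mul_comm, ← Real.log_pow]
  exact Real.log_le_log h5 h4

theorem log_norm_eq (c : 𝓞 L) (hc : c ≠ 0) :
    Real.log |(Algebra.norm ℤ c : ℝ)| = ∑ w : InfinitePlace L, Real.log (nv (.inl w) (c : L)) := by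
  have hne : (c : L) ≠ 0 := by simpa using hc
  have e1 : |(Algebra.norm ℤ c : ℝ)| = ∏ w : InfinitePlace L, nv (.inl w) (c : L) := by
    have := InfinitePlace.prod_eq_abs_norm (c : L)
    rw [show (∏ w : InfinitePlace L, nv (.inl w) (c : L)) = ∏ w : InfinitePlace L, w (c : L) ^ w.mult from rfl,
      this, ← Algebra.coe_norm_int]
    push_cast
    rfl
  rw [e1, Real.log_prod (fun w _ => (nv_pos (.inl w) hne).ne')]

/-- `X ^ p - a` -/
theorem rd_root [Algebra F L] (p : ℕ) (hp : p ≠ 0) (a : 𝓞 F) (θ : 𝓞 L) (hθ : θ ^ p = algebraMap (𝓞 F) (𝓞 L) a)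
    (hadj : Algebra.adjoin F {(θ : L)} = ⊤) (B : ℕ) (hB : B ≠ 0) (b : 𝓞 L) (hb : θ ^ p * b = B) :
    rd L ≤ rd F + Real.log (p * B) := by
  have hθ0 : θ ≠ 0 := by
    rintro rfl
    rw [zero_pow hp, zero_mul] at hb
    exact hB (by exact_mod_cast hb.symm)
  have hval : aeval θ (derivative (X ^ p - C a)) = (p : 𝓞 L) * θ ^ (p - 1) := by
    rw [derivative_sub, derivative_X_pow, derivative_C, sub_zero, map_mul, aeval_C, map_pow, aeval_X, map_natCast]
  have h1 := rd_le θ hadj (X ^ p - C a) (by simp [hθ]) (by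
    rw [hval]
    exact mul_ne_zero (by exact_mod_cast hp) (pow_ne_zero _ hθ0))
  rw [hval] at h1
  have h2 := log_norm_le_of_dvd ((p : 𝓞 L) * θ ^ (p - 1)) (p * B) (mul_ne_zero hp hB) ⟨θ * b, by
    push_cast
    rw [← hb]
    have : θ ^ p = θ ^ (p - 1) * θ := by
      rw [← pow_succ, Nat.sub_add_cancel (Nat.one_le_iff_ne_zero.mpr hp)]
    rw [this]
    ring⟩
  push_cast at h2
  linarith

theorem log_nv_add_four (w : InfinitePlace L) (t : L) (ht : t + 4 ≠ 0) :
    Real.log (nv (.inl w) (t + 4)) ≤ w.mult * Real.posLog (w t) + w.mult * Real.log 5 := by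
  have h1 : w (t + 4) ≤ 5 * max 1 (w t) := by
    have h2 : w (4 : L) = 4 := by
      have := InfinitePlace.map_natCast w 4
      simpa using this
    have h3 : w (t + 4) ≤ w t + w 4 := w.1.add_le t 4
    rw [h2] at h3
    have h4 := le_max_left 1 (w t)
    have h5 := le_max_right 1 (w t)
    linarith
  have h0 : 0 < w (t + 4) := InfinitePlace.pos_iff.mpr ht
  have h2 : Real.log (w (t + 4)) ≤ Real.posLog (w t) + Real.log 5 := by
    have hm : (0 : ℝ) < max 1 (w t) := lt_of_lt_of_le one_pos (le_max_left _ _)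
    refine (Real.log_le_log h0 h1).trans ?_
    rw [Real.log_mul (by norm_num) hm.ne', Real.posLog_eq_log_max_one (apply_nonneg w t)]
    linarith
  have h3 : Real.log (nv (.inl w) (t + 4)) = w.mult * Real.log (w (t + 4)) := by
    simp only [nv, Real.log_pow]
  rw [h3]
  have h4 : (0 : ℝ) ≤ w.mult := Nat.cast_nonneg _
  nlinarith

theorem sum_mult_posLog_le (t : L) : ∑ w : InfinitePlace L, (w.mult : ℝ) * Real.posLog (w t) ≤ finrank ℚ L * nh t := by
  have h1 : finrank ℚ L * nh t = logHeight₁ t := by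
    unfold nh
    rw [mul_div_cancel₀ _ (finrank_pos' L).ne']
  rw [h1, NumberField.logHeight₁_eq]
  have h2 : 0 ≤ ∑ᶠ v : FinitePlace L, Real.posLog (v t) := finsum_nonneg fun v => Real.posLog_nonneg
  linarith

theorem sum_mult (L : Type*) [Field L] [NumberField L] :
    ∑ w : InfinitePlace L, (w.mult : ℝ) = finrank ℚ L := by
  rw [← InfinitePlace.sum_mult_eq (K := L)]
  push_cast
  rfl

/-- `X ^ 2 + t X - t` for a unit `t` -/
theorem rd_quad [Algebra F L] (t : 𝓞 F) (ht : IsUnit t) (θ : 𝓞 L)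
    (hθ : θ ^ 2 + algebraMap (𝓞 F) (𝓞 L) t * θ - algebraMap (𝓞 F) (𝓞 L) t = 0)
    (h0 : algebraMap (𝓞 F) (𝓞 L) t + 4 ≠ 0)
    (hadj : Algebra.adjoin F {(θ : L)} = ⊤) :
    rd L ≤ rd F + nh ((algebraMap (𝓞 F) (𝓞 L) t : 𝓞 L) : L) / 2 + Real.log 5 / 2 := by
  set t' : 𝓞 L := algebraMap (𝓞 F) (𝓞 L) t with ht'
  have htu : IsUnit t' := ht.map _
  have hsq : (2 * θ + t') ^ 2 = t' * (t' + 4) := by linear_combination 4 * hθ
  have hval : aeval θ (derivative (X ^ 2 + C t * X - C t)) = 2 * θ + t' := by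
    simp only [derivative_sub, derivative_add, derivative_X_pow, derivative_C_mul, derivative_X, derivative_C,
      map_sub, map_add, map_mul, aeval_C, map_pow, aeval_X, ← ht']
    norm_num
    left
    exact map_ofNat _ 2
  have hc0 : 2 * θ + t' ≠ 0 := by
    intro h
    rw [h, zero_pow two_ne_zero] at hsq
    exact mul_ne_zero htu.ne_zero h0 hsq.symm
  have h1 := rd_le θ hadj (X ^ 2 + C t * X - C t) (by simpa [← ht'] using hθ) (by rw [hval]; exact hc0)
  rw [hval, log_norm_eq _ hc0] at h1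
  have e0 : ((t' + 4 : 𝓞 L) : L) = (t' : L) + 4 := by
    push_cast
    congr 1
  have e3 : (t' : L) + 4 ≠ 0 := by
    rw [← e0]
    exact RingOfIntegers.coe_ne_zero_iff.mpr h0
  -- squares
  have h2 : ∀ w : InfinitePlace L, 2 * Real.log (nv (.inl w) ((2 * θ + t' : 𝓞 L) : L)) =
      Real.log (nv (.inl w) (t' : L)) + Real.log (nv (.inl w) ((t' : L) + 4)) := by
    intro w
    have e1 : ((2 * θ + t' : 𝓞 L) : L) ^ 2 = (t' : L) * ((t' : L) + 4) := by
      have := congrArg (algebraMap (𝓞 L) L) hsq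
      rw [map_pow, map_mul] at this
      rw [← e0]
      exact this
    have e2 : (t' : L) ≠ 0 := by simpa using htu.ne_zero
    have e4 : nv (.inl w) ((2 * θ + t' : 𝓞 L) : L) ^ 2 = nv (.inl w) (t' : L) * nv (.inl w) ((t' : L) + 4) := by
      rw [← nv_mul, ← e1, sq, sq, nv_mul]
    have e5 := congrArg Real.log e4
    rw [Real.log_pow, Real.log_mul (nv_pos _ e2).ne' (nv_pos _ e3).ne'] at e5
    push_cast at e5
    exact e5
  have h3 : ∑ w : InfinitePlace L, Real.log (nv (.inl w) (t' : L)) = 0 := by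
    rw [← log_norm_eq _ htu.ne_zero]
    have h4 : IsUnit (Algebra.norm ℤ t') := htu.map _
    rcases Int.isUnit_iff.mp h4 with h | h <;> rw [h] <;> simp
  have h4 : ∑ w : InfinitePlace L, Real.log (nv (.inl w) ((t' : L) + 4)) ≤
      finrank ℚ L * nh (t' : L) + finrank ℚ L * Real.log 5 := by
    calc ∑ w : InfinitePlace L, Real.log (nv (.inl w) ((t' : L) + 4))
        ≤ ∑ w : InfinitePlace L, ((w.mult : ℝ) * Real.posLog (w (t' : L)) + w.mult * Real.log 5) :=
          Finset.sum_le_sum fun w _ => log_nv_add_four w _ e3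
      _ = ∑ w : InfinitePlace L, (w.mult : ℝ) * Real.posLog (w (t' : L)) + finrank ℚ L * Real.log 5 := by
          rw [Finset.sum_add_distrib, ← Finset.sum_mul, sum_mult]
      _ ≤ _ := by
          have := sum_mult_posLog_le (t' : L)
          linarith
  have h5 : 2 * ∑ w : InfinitePlace L, Real.log (nv (.inl w) ((2 * θ + t' : 𝓞 L) : L)) ≤
      finrank ℚ L * nh (t' : L) + finrank ℚ L * Real.log 5 := by
    rw [Finset.mul_sum, Finset.sum_congr rfl fun w _ => h2 w, Finset.sum_add_distrib, h3, zero_add]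
    exact h4
  have h6 := finrank_pos' L
  have h7 : (∑ w : InfinitePlace L, Real.log (nv (.inl w) ((2 * θ + t' : 𝓞 L) : L))) / finrank ℚ L ≤
      nh (t' : L) / 2 + Real.log 5 / 2 := by
    rw [div_le_iff₀ h6]
    linarith
  linarith

end general

end Pool.Agent.Helper64.VZ
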