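import Mathlib
import Pool.Agent.Helper64.VZ.Disc

/-!
Extensions inside an algebraic closure.
-/

set_option autoImplicit false

namespace Pool.Agent.Helper64.VZ

open NumberField IntermediateField Module Height Polynomial Pool.Agent.Helper64.Vojta

universe u

variable {k : Type u} [Field k] [NumberField k]

/-- bounded fields: `E` is a number field of degree at most `r` with root discriminant at most `exp c` -/
def Bd (E : IntermediateField k (AlgebraicClosure k)) (r : ℕ) (c : ℝ) : Prop :=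
  ∃ _ : NumberField E, finrank k E ≤ r ∧ rd E ≤ c

omit [NumberField k] in
theorem Bd.mono {E : IntermediateField k (AlgebraicClosure k)} {r r' : ℕ} {c c' : ℝ} (h : Bd E r c)
    (hr : r ≤ r') (hc : c ≤ c') : Bd E r' c' := by
  obtain ⟨h0, h1, h2⟩ := h
  exact ⟨h0, h1.trans hr, h2.trans hc⟩

/-- subfields of bounded fields are bounded -/
theorem Bd.sub {E E' : IntermediateField k (AlgebraicClosure k)} {r : ℕ} {c : ℝ} (h : Bd E' r c)
    (hE : E ≤ E') : Bd E r c := by
  obtain ⟨h0, h1, h2⟩ := h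
  have hfd : FiniteDimensional k E' := FiniteDimensional.right ℚ k E'
  have hfd' : FiniteDimensional k E := by
    have : Function.Injective (inclusion hE).toLinearMap := (inclusion hE).injective
    exact FiniteDimensional.of_injective (inclusion hE).toLinearMap this
  have hnf : NumberField E := nf E
  refine ⟨hnf, ?_, ?_⟩
  · refine le_trans ?_ h1
    exact LinearMap.finrank_le_finrank_of_injective (f := (inclusion hE).toLinearMap) (inclusion hE).injective
  · exact (rd_mono (inclusion hE : E →+* E')).trans h2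

theorem bd_bot : Bd (⊥ : IntermediateField k (AlgebraicClosure k)) 1 (rd k) := by
  have hnf : NumberField (⊥ : IntermediateField k (AlgebraicClosure k)) := nf _
  refine ⟨hnf, ?_, ?_⟩
  · rw [IntermediateField.finrank_bot]
  · exact rd_mono ((botEquiv k (AlgebraicClosure k)).toRingEquiv.toRingHom)

section ext

variable (E : IntermediateField k (AlgebraicClosure k)) [NumberField E] (θ : AlgebraicClosure k)

omit [NumberField k] [NumberField E] in
theorem int_adj : IsIntegral E θ := isAlgebraic_iff_isIntegral.mp (Algebra.IsAlgebraic.isAlgebraic θ)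

omit [NumberField k] [NumberField E] in
theorem fd_adj : FiniteDimensional E E⟮θ⟯ :=
  adjoin.finiteDimensional (int_adj E θ)

omit [NumberField k] in
theorem nf_adj : NumberField E⟮θ⟯ := by
  have := fd_adj E θ
  have h0 : CharZero E⟮θ⟯ := charZero_of_injective_algebraMap (algebraMap E E⟮θ⟯).injective
  have h1 : FiniteDimensional ℚ E⟮θ⟯ := Module.Finite.trans E E⟮θ⟯
  exact { to_charZero := h0, to_finiteDimensional := h1 }

omit [NumberField k] [NumberField E] in
theorem adj_top : Algebra.adjoin E {AdjoinSimple.gen E θ} = ⊤ := by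
  have h := (adjoin.powerBasis (K := E) (x := θ) (int_adj E θ)).adjoin_gen_eq_top
  rwa [adjoin.powerBasis_gen] at h

/-- the extension `E(θ)` as a field over `k` -/
noncomputable def ext : IntermediateField k (AlgebraicClosure k) := (E⟮θ⟯).restrictScalars k

omit [NumberField k] [NumberField E] in
theorem le_ext : E ≤ ext E θ := by
  intro x hx
  exact (E⟮θ⟯).algebraMap_mem ⟨x, hx⟩

omit [NumberField k] [NumberField E] in
theorem mem_ext : θ ∈ ext E θ := mem_adjoin_simple_self E θ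

omit [NumberField k] in
/-- bound for `E(θ)` -/
theorem bd_ext {r : ℕ} {c : ℝ} (p : ℕ) (hr : finrank k E * p ≤ r) (P : E[X]) (hP0 : P ≠ 0)
    (hP : aeval θ P = 0) (hdeg : P.natDegree ≤ p)
    (hrd : haveI := nf_adj E θ; rd E⟮θ⟯ ≤ c) : Bd (ext E θ) r c := by
  haveI := nf_adj E θ
  haveI := fd_adj E θ
  have hnf : NumberField (ext E θ) := nf_adj E θ
  refine ⟨hnf, ?_, hrd⟩
  have h1 : finrank k E * finrank E E⟮θ⟯ = finrank k E⟮θ⟯ := finrank_mul_finrank k E E⟮θ⟯
  have h2 : finrank E E⟮θ⟯ ≤ p := by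
    rw [adjoin.finrank (int_adj E θ)]
    exact (natDegree_le_of_dvd (minpoly.dvd E θ hP) hP0).trans hdeg
  have h3 : finrank k (ext E θ) = finrank k E⟮θ⟯ := rfl
  rw [h3, ← h1]
  exact (Nat.mul_le_mul_left _ h2).trans hr

end ext

omit [NumberField k] in
theorem int_sub {E : IntermediateField k (AlgebraicClosure k)} {x : AlgebraicClosure k} (hx : x ∈ E)
    (h : IsIntegral ℤ x) : IsIntegral ℤ (⟨x, hx⟩ : E) := by
  have h1 : (algebraMap E (AlgebraicClosure k)) ⟨x, hx⟩ = x := rfl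
  rw [← h1] at h
  exact (isIntegral_algebraMap_iff (algebraMap E (AlgebraicClosure k)).injective).mp h

omit [NumberField k] in
theorem int_sub' {E : IntermediateField k (AlgebraicClosure k)} {θ x : AlgebraicClosure k} (hx : x ∈ E⟮θ⟯)
    (h : IsIntegral ℤ x) : IsIntegral ℤ (⟨x, hx⟩ : E⟮θ⟯) := by
  have h1 : (algebraMap E⟮θ⟯ (AlgebraicClosure k)) ⟨x, hx⟩ = x := rfl
  rw [← h1] at h
  exact (isIntegral_algebraMap_iff (algebraMap E⟮θ⟯ (AlgebraicClosure k)).injective).mp h

/-- adjoining a `p`-th root of a divisor of `B` -/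
theorem bd_root {E : IntermediateField k (AlgebraicClosure k)} {r : ℕ} {c : ℝ} (hE : Bd E r c)
    (θ : AlgebraicClosure k) (p : ℕ) (hp : p ≠ 0) (hθ : θ ^ p ∈ E) (hint : IsIntegral ℤ θ) (B : ℕ) (hB : B ≠ 0)
    (b : AlgebraicClosure k) (hb : IsIntegral ℤ b) (hab : θ ^ p * b = B) :
    ∃ E' : IntermediateField k (AlgebraicClosure k), E ≤ E' ∧ θ ∈ E' ∧ Bd E' (r * p) (c + Real.log (p * B)) := by
  obtain ⟨h0, h1, h2⟩ := hE
  have hnf := nf_adj E θ
  have hθ0 : θ ^ p ≠ 0 := by
    intro h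
    rw [h, zero_mul] at hab
    exact hB (by exact_mod_cast hab.symm)
  have hbE : b ∈ E := by
    have h3 : b = B * (θ ^ p)⁻¹ := by
      rw [← hab]
      field_simp
    rw [h3]
    exact E.mul_mem (E.natCast_mem B) (E.inv_mem hθ)
  have hbE' : b ∈ E⟮θ⟯ := (E⟮θ⟯).algebraMap_mem ⟨b, hbE⟩
  have hθE' : θ ∈ E⟮θ⟯ := mem_adjoin_simple_self E θ
  let a' : 𝓞 E := ⟨⟨θ ^ p, hθ⟩, int_sub hθ (hint.pow p)⟩
  let θ' : 𝓞 E⟮θ⟯ := ⟨⟨θ, hθE'⟩, int_sub' hθE' hint⟩
  let b' : 𝓞 E⟮θ⟯ := ⟨⟨b, hbE'⟩, int_sub' hbE' hb⟩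
  refine ⟨ext E θ, le_ext E θ, mem_ext E θ, bd_ext E θ p (Nat.mul_le_mul_right _ h1) (X ^ p - C ⟨θ ^ p, hθ⟩)
    (X_pow_sub_C_ne_zero (Nat.pos_of_ne_zero hp) _) ?_ ?_ ?_⟩
  · rw [map_sub, map_pow, aeval_X, aeval_C]
    exact sub_self _
  · rw [natDegree_X_pow_sub_C]
  · have h3 := rd_root (F := E) (L := E⟮θ⟯) p hp a' θ' (by
      apply RingOfIntegers.ext
      apply Subtype.ext
      rfl) (adj_top E θ) B hB b' (by
      apply RingOfIntegers.ext
      apply Subtype.ext
      exact hab)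
    refine h3.trans ?_
    linarith

/-- adjoining a root of `X ^ 2 + t X - t` for a unit `t` -/
theorem bd_quad {E : IntermediateField k (AlgebraicClosure k)} {r : ℕ} {c : ℝ} (hE : Bd E r c)
    (t u l : AlgebraicClosure k) (ht : t ∈ E) (hti : IsIntegral ℤ t) (hui : IsIntegral ℤ u) (htu : t * u = 1)
    (hli : IsIntegral ℤ l) (hl : l ^ 2 + t * l - t = 0) (h4 : t + 4 ≠ 0) :
    ∃ E' : IntermediateField k (AlgebraicClosure k), E ≤ E' ∧ l ∈ E' ∧
      Bd E' (r * 2) (c + H t / 2 + Real.log 5 / 2) := by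
  obtain ⟨h0, h1, h2⟩ := hE
  have hnf := nf_adj E l
  have ht0 : t ≠ 0 := by
    rintro rfl
    rw [zero_mul] at htu
    exact zero_ne_one htu
  have huE : u ∈ E := by
    have h3 : u = t⁻¹ := by
      field_simp
      rw [mul_comm]
      exact htu
    rw [h3]
    exact E.inv_mem ht
  have hlE' : l ∈ E⟮l⟯ := mem_adjoin_simple_self E l
  let t' : 𝓞 E := ⟨⟨t, ht⟩, int_sub ht hti⟩
  let u' : 𝓞 E := ⟨⟨u, huE⟩, int_sub huE hui⟩
  let l' : 𝓞 E⟮l⟯ := ⟨⟨l, hlE'⟩, int_sub' hlE' hli⟩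
  have htu' : t' * u' = 1 := by
    apply RingOfIntegers.ext
    apply Subtype.ext
    exact htu
  refine ⟨ext E l, le_ext E l, mem_ext E l, bd_ext E l 2 (Nat.mul_le_mul_right _ h1)
    (X ^ 2 + (C ⟨t, ht⟩ * X - C ⟨t, ht⟩)) ?_ ?_ ?_ ?_⟩
  · intro h
    have h5 := congrArg (fun P => coeff P 2) h
    simp [coeff_X] at h5
  · rw [map_add, map_sub, map_mul, map_pow, aeval_X, aeval_C]
    rw [← add_sub_assoc]
    exact hl
  · compute_degree
  · have h3 := rd_quad (F := E) (L := E⟮l⟯) t' (IsUnit.of_mul_eq_one _ htu') l' (by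
      apply RingOfIntegers.ext
      apply Subtype.ext
      exact hl) (by
      intro h
      apply h4
      have h5 := congrArg (fun z : 𝓞 E⟮l⟯ => ((z : E⟮l⟯) : AlgebraicClosure k)) h
      exact h5) (adj_top E l)
    have h6 : nh ((algebraMap (𝓞 E) (𝓞 E⟮l⟯) t' : 𝓞 E⟮l⟯) : E⟮l⟯) = H t := by
      have h7 := H_eq E ⟨t, ht⟩
      have h8 := nh_map (algebraMap E E⟮l⟯) ⟨t, ht⟩
      rw [← h7, ← h8]
      rfl
    rw [h6] at h3
    linarith

end Pool.Agent.Helper64.VZ
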