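import Mathlib
import Pool.Agent.Helper64.VZ.Fields

/-!
The tower of the Landen transformation.
-/

set_option autoImplicit false

namespace Pool.Agent.Helper64.VZ

open NumberField IntermediateField Module Height Polynomial Pool.Agent.Helper64.Vojta

universe u

variable {k : Type u} [Field k] [NumberField k]

/-- The tower over `t`. -/
structure Tw (t : AlgebraicClosure k) (κ m : ℕ → AlgebraicClosure k) : Prop where
  start : κ 0 ^ 4 = t * (1 - κ 0 ^ 2)
  root : ∀ i, m i ^ 2 = κ i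
  step : ∀ i, κ (i + 1) * (1 + κ i) = 2 * m i

/-- `κ` is integral, divides `4`, and `1 - κ²` is a unit. -/
structure Good (κ : AlgebraicClosure k) : Prop where
  int : IsIntegral ℤ κ
  div : ∃ b, IsIntegral ℤ b ∧ κ * b = 4
  unit : ∃ u, IsIntegral ℤ u ∧ (1 - κ ^ 2) * u = 1

theorem Good.ne_zero {κ : AlgebraicClosure k} (h : Good κ) : κ ≠ 0 := by
  obtain ⟨b, -, hb⟩ := h.div
  rintro rfl
  rw [zero_mul] at hb
  have h4 : (4 : AlgebraicClosure k) ≠ 0 := by norm_num
  exact h4 hb.symm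

omit [NumberField k] in
theorem Good.one_add {κ : AlgebraicClosure k} (h : Good κ) : 1 + κ ≠ 0 := by
  obtain ⟨u, -, hu⟩ := h.unit
  intro h0
  have : (1 - κ ^ 2) * u = (1 + κ) * ((1 - κ) * u) := by ring
  rw [this, h0, zero_mul] at hu
  exact zero_ne_one hu

theorem Good.step {κ m κ' : AlgebraicClosure k} (h : Good κ) (hm : m ^ 2 = κ) (hκ' : κ' * (1 + κ) = 2 * m) :
    Good κ' := by
  have hκ0 := h.ne_zero
  have h1κ := h.one_add
  have hm0 : m ≠ 0 := by
    rintro rfl
    apply hκ0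
    rw [← hm]
    ring
  obtain ⟨b, hb1, hb2⟩ := h.div
  obtain ⟨u, hu1, hu2⟩ := h.unit
  have h1 : IsIntegral ℤ (1 : AlgebraicClosure k) := isIntegral_one
  have h2 : IsIntegral ℤ (2 : AlgebraicClosure k) := by
    have : (2 : AlgebraicClosure k) = 1 + 1 := by norm_num
    rw [this]
    exact h1.add h1
  have hmi : IsIntegral ℤ m := by
    apply IsIntegral.of_pow (n := 2) (by norm_num)
    rw [hm]
    exact h.int
  have ev : (1 + κ) * ((1 - κ) * u) = 1 := by
    calc (1 + κ) * ((1 - κ) * u) = (1 - κ ^ 2) * u := by ring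
      _ = 1 := hu2
  have eκ' : κ' = 2 * m * ((1 - κ) * u) := by
    have : κ' = κ' * ((1 + κ) * ((1 - κ) * u)) := by rw [ev, mul_one]
    rw [this, ← mul_assoc, hκ']
  have hci : IsIntegral ℤ (2 * m⁻¹) := by
    apply IsIntegral.of_pow (n := 2) (by norm_num)
    have : (2 * m⁻¹) ^ 2 = b := by
      have h5 : m ^ 2 * b = 4 := by rw [hm]; exact hb2
      field_simp
      rw [h5]
      norm_num
    rw [this]
    exact hb1
  refine ⟨?_, ⟨(1 + κ) * (2 * m⁻¹), (h1.add h.int).mul hci, ?_⟩, ⟨((1 + κ) ^ 2 * u) ^ 2,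
    (((h1.add h.int).pow 2).mul hu1).pow 2, ?_⟩⟩
  · rw [eκ']
    exact (h2.mul hmi).mul ((h1.sub h.int).mul hu1)
  · rw [← mul_assoc, hκ']
    field_simp
    norm_num
  · have e1 : κ' ^ 2 * (1 + κ) ^ 2 = 4 * κ := by
      rw [← mul_pow, hκ', mul_pow, hm]
      norm_num
    have e2 : (1 - κ' ^ 2) * (1 + κ) ^ 2 = (1 - κ) ^ 2 := by
      rw [sub_mul, e1]
      ring
    calc (1 - κ' ^ 2) * ((1 + κ) ^ 2 * u) ^ 2 = ((1 - κ' ^ 2) * (1 + κ) ^ 2) * ((1 + κ) ^ 2 * u ^ 2) := by ring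
      _ = ((1 + κ) * ((1 - κ) * u)) ^ 2 := by rw [e2]; ring
      _ = 1 := by rw [ev, one_pow]

omit [NumberField k] in
theorem int_quad {t l : AlgebraicClosure k} (ht : IsIntegral ℤ t) (hl : l ^ 2 = t * (1 - l)) :
    IsIntegral ℤ l := by
  let A := integralClosure ℤ (AlgebraicClosure k)
  let t' : A := ⟨t, ht⟩
  have h1 : IsIntegral A l := by
    refine ⟨X ^ 2 + (C t' * X - C t'), ?_, ?_⟩
    · apply monic_X_pow_add
      have : (C t' * X - C t').degree ≤ 1 := by compute_degree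
      exact this.trans_lt (by norm_num)
    · rw [eval₂_add, eval₂_sub, eval₂_mul, eval₂_pow, eval₂_X, eval₂_C]
      have : (algebraMap A (AlgebraicClosure k)) t' = t := rfl
      rw [this, hl]
      ring
  exact isIntegral_trans (R := ℤ) (A := A) l h1

section tower

variable {t u : AlgebraicClosure k} {κ m : ℕ → AlgebraicClosure k}

omit [NumberField k] in
theorem start_units (hti : IsIntegral ℤ t) (hui : IsIntegral ℤ u) (htu : t * u = 1) {l : AlgebraicClosure k}
    (hl : l ^ 2 = t * (1 - l)) : IsIntegral ℤ l ∧ (∃ v, IsIntegral ℤ v ∧ l * v = 1) ∧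
      ∃ v, IsIntegral ℤ v ∧ (1 - l) * v = 1 := by
  have hli := int_quad hti hl
  have hv : l * ((l + t) * u) = 1 := by
    calc l * ((l + t) * u) = (l ^ 2 + t * l) * u := by ring
      _ = t * u := by rw [hl]; ring
      _ = 1 := htu
  refine ⟨hli, ⟨(l + t) * u, (hli.add hti).mul hui, hv⟩, ⟨t * ((l + t) * u) ^ 2,
    hti.mul (((hli.add hti).mul hui).pow 2), ?_⟩⟩
  calc (1 - l) * (t * ((l + t) * u) ^ 2) = (t * (1 - l)) * ((l + t) * u) ^ 2 := by ring
    _ = (l * ((l + t) * u)) ^ 2 := by rw [← hl]; ring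
    _ = 1 := by rw [hv, one_pow]

theorem Tw.good (h : Tw t κ m) (hti : IsIntegral ℤ t) (hui : IsIntegral ℤ u) (htu : t * u = 1) :
    ∀ i, Good (κ i) := by
  intro i
  induction i with
  | zero =>
    have hl : (κ 0 ^ 2) ^ 2 = t * (1 - κ 0 ^ 2) := by
      rw [← pow_mul]
      exact h.start
    obtain ⟨h1, ⟨v, hv1, hv2⟩, h3⟩ := start_units hti hui htu hl
    have hκ : IsIntegral ℤ (κ 0) := IsIntegral.of_pow (by norm_num : 0 < 2) h1
    have h4 : IsIntegral ℤ (4 : AlgebraicClosure k) := by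
      have := isIntegral_algebraMap (R := ℤ) (A := AlgebraicClosure k) (x := 4)
      simpa using this
    exact ⟨hκ, ⟨κ 0 * v * 4, (hκ.mul hv1).mul h4, by
      calc κ 0 * (κ 0 * v * 4) = (κ 0 ^ 2 * v) * 4 := by ring
        _ = 4 := by rw [hv2, one_mul]⟩, h3⟩
  | succ i ih => exact ih.step (h.root i) (h.step i)

omit [NumberField k] in
/-- `1 - κ_{i+1}² = ((1 - κ_i)/(1 + κ_i))²` -/
theorem Tw.sub (h : Tw t κ m) (i : ℕ) (h1 : 1 + κ i ≠ 0) :
    1 - κ (i + 1) ^ 2 = ((1 - κ i) / (1 + κ i)) ^ 2 := by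
  have e1 : κ (i + 1) ^ 2 * (1 + κ i) ^ 2 = 4 * κ i := by
    rw [← mul_pow, h.step, mul_pow, h.root]
    norm_num
  rw [div_pow, eq_div_iff (pow_ne_zero _ h1), sub_mul, e1]
  ring

theorem Tw.height (h : Tw t κ m) (hti : IsIntegral ℤ t) (hui : IsIntegral ℤ u) (htu : t * u = 1) (i : ℕ) :
    H t / 2 - (7 * i + 7 / 2) * Real.log 2 ≤ H (κ i ^ 2) := by
  have hg := h.good hti hui htu
  induction i with
  | zero =>
    have ht0 : t ≠ 0 := by
      rintro rfl
      rw [zero_mul] at htu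
      exact zero_ne_one htu
    have hl : (κ 0 ^ 2) ^ 2 = t * (1 - κ 0 ^ 2) := by
      rw [← pow_mul]
      exact h.start
    have := H_start t (κ 0 ^ 2) ht0 (pow_ne_zero _ (hg 0).ne_zero) hl
    push_cast
    linarith
  | succ i ih =>
    have h1 := (hg i).one_add
    have := H_step (κ i) h1 (κ (i + 1) ^ 2) (h.sub i h1)
    push_cast
    linarith

/-- height of the coordinates -/
theorem Tw.height' (h : Tw t κ m) (hti : IsIntegral ℤ t) (hui : IsIntegral ℤ u) (htu : t * u = 1) (i : ℕ) :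
    H t / 2 - (7 * i + 5) * Real.log 2 ≤ H (1 - κ i ^ 2) := by
  have h1 := h.height hti hui htu i
  have h2 := H_le_one_sub (κ i ^ 2)
  have h3 : 0 < Real.log 2 := Real.log_pos (by norm_num)
  linarith

/-- the fields -/
theorem Tw.fields (h : Tw t κ m) (hti : IsIntegral ℤ t) (hui : IsIntegral ℤ u) (htu : t * u = 1)
    (h4 : t + 4 ≠ 0) {E₀ : IntermediateField k (AlgebraicClosure k)} {r : ℕ} {c : ℝ} (hE₀ : Bd E₀ r c)
    (htE : t ∈ E₀) (n : ℕ) :
    (∃ E : IntermediateField k (AlgebraicClosure k), E₀ ≤ E ∧ (∀ i ≤ n, κ i ^ 2 ∈ E) ∧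
      Bd E (r * 2 ^ (n + 1)) (c + H t / 2 + Real.log 5 / 2 + n * Real.log 8)) ∧
    (∃ E : IntermediateField k (AlgebraicClosure k), E₀ ≤ E ∧ (∀ i ≤ n, κ i ∈ E) ∧
      Bd E (r * 2 ^ (n + 2)) (c + H t / 2 + Real.log 5 / 2 + (n + 1) * Real.log 8)) := by
  have hg := h.good hti hui htu
  have h8 : 0 < Real.log 8 := Real.log_pos (by norm_num)
  induction n with
  | zero =>
    have hl : (κ 0 ^ 2) ^ 2 = t * (1 - κ 0 ^ 2) := by
      rw [← pow_mul]
      exact h.start
    obtain ⟨h1, ⟨v, hv1, hv2⟩, -⟩ := start_units hti hui htu hl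
    obtain ⟨E₁, hE₁, hl₁, hb₁⟩ := bd_quad hE₀ t u (κ 0 ^ 2) htE hti hui htu h1 (by rw [hl]; ring) h4
    obtain ⟨E₂, hE₂, hl₂, hb₂⟩ := bd_root hb₁ (κ 0) 2 two_ne_zero hl₁ (hg 0).int 1 one_ne_zero v hv1 (by
      rw [hv2]
      simp)
    constructor
    · refine ⟨E₁, hE₁, ?_, hb₁.mono (le_of_eq (by ring)) (by simp)⟩
      intro i hi
      rw [Nat.le_zero.mp hi]
      exact hl₁
    · refine ⟨E₂, hE₁.trans hE₂, ?_, hb₂.mono (le_of_eq (by ring)) ?_⟩
      · intro i hi
        rw [Nat.le_zero.mp hi]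
        exact hl₂
      · have e : ((2 : ℕ) : ℝ) * ((1 : ℕ) : ℝ) = 2 := by norm_num
        have : Real.log 2 ≤ Real.log 8 := Real.log_le_log (by norm_num) (by norm_num)
        rw [e]
        push_cast
        linarith
  | succ n ih =>
    obtain ⟨-, E, hE, hκE, hb⟩ := ih
    constructor
    · refine ⟨E, hE, ?_, hb.mono le_rfl (by push_cast; linarith)⟩
      intro i hi
      rcases Nat.lt_or_ge i (n + 1) with hi' | hi'
      · exact pow_mem (hκE i (Nat.lt_succ_iff.mp hi')) 2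
      · obtain rfl : i = n + 1 := le_antisymm hi hi'
        have h1 := (hg n).one_add
        have h2 := h.sub n h1
        have h3 : κ (n + 1) ^ 2 = 1 - ((1 - κ n) / (1 + κ n)) ^ 2 := by rw [← h2]; ring
        have h5 := hκE n le_rfl
        rw [h3]
        exact E.sub_mem E.one_mem (pow_mem (E.div_mem (E.sub_mem E.one_mem h5) (E.add_mem E.one_mem h5)) 2)
    · obtain ⟨b, hb1, hb2⟩ := (hg n).div
      have hmi : IsIntegral ℤ (m n) := by
        apply IsIntegral.of_pow (n := 2) (by norm_num)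
        rw [h.root]
        exact (hg n).int
      obtain ⟨E', hE', hm', hb'⟩ := bd_root hb (m n) 2 two_ne_zero (by
        rw [h.root]
        exact hκE n le_rfl) hmi 4 (by norm_num) b hb1 (by
        rw [h.root, hb2]
        norm_num)
      refine ⟨E', hE.trans hE', ?_, hb'.mono (le_of_eq (by ring)) ?_⟩
      · intro i hi
        rcases Nat.lt_or_ge i (n + 1) with hi' | hi'
        · exact hE' (hκE i (Nat.lt_succ_iff.mp hi'))
        · obtain rfl : i = n + 1 := le_antisymm hi hi'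
          have h1 := (hg n).one_add
          have h2 : κ (n + 1) = 2 * m n / (1 + κ n) := by
            rw [eq_div_iff h1, h.step]
          have h5 := hE' (hκE n le_rfl)
          rw [h2]
          have e2 : (2 : AlgebraicClosure k) ∈ E' := by
            exact_mod_cast E'.natCast_mem 2
          exact E'.div_mem (E'.mul_mem e2 hm') (E'.add_mem E'.one_mem h5)
      · have : ((2 : ℕ) : ℝ) * ((4 : ℕ) : ℝ) = 8 := by norm_num
        rw [this]
        push_cast
        linarith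

end tower

end Pool.Agent.Helper64.VZ
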