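import Mathlib
import Pool.Agent.Helper64.VZ.Tower

/-!
Existence of the tower.
-/

set_option autoImplicit false

namespace Pool.Agent.Helper64.VZ

open NumberField IntermediateField Module Height Polynomial Pool.Agent.Helper64.Vojta

universe u

variable {k : Type u} [Field k] [NumberField k]

omit [NumberField k] in
theorem exists_sq (σ : AlgebraicClosure k →+* ℂ) (x : AlgebraicClosure k) (a : ℝ) (ha : 0 ≤ a)
    (hx : σ x = (a : ℂ)) : ∃ y, y ^ 2 = x ∧ σ y = ((Real.sqrt a : ℝ) : ℂ) := by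
  obtain ⟨y, hy⟩ := IsAlgClosed.exists_pow_nat_eq x (n := 2) two_pos
  have h1 : σ y ^ 2 = ((Real.sqrt a : ℝ) : ℂ) ^ 2 := by
    rw [← map_pow, hy, hx, ← Complex.ofReal_pow, Real.sq_sqrt ha]
  rcases sq_eq_sq_iff_eq_or_eq_neg.mp h1 with h | h
  · exact ⟨y, hy, h⟩
  · refine ⟨-y, by rw [neg_sq, hy], ?_⟩
    rw [map_neg, h, neg_neg]

/-- pairs of an element and a nonnegative real value -/
def PR (σ : AlgebraicClosure k →+* ℂ) : Type u :=
  {p : AlgebraicClosure k × ℝ // 0 ≤ p.2 ∧ σ p.1 = (p.2 : ℂ)}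

/-- square root of the element -/
noncomputable def mm (σ : AlgebraicClosure k →+* ℂ) (p : PR σ) : AlgebraicClosure k :=
  (exists_sq σ p.1.1 p.1.2 p.2.1 p.2.2).choose

omit [NumberField k] in
theorem mm_sq (σ : AlgebraicClosure k →+* ℂ) (p : PR σ) : mm σ p ^ 2 = p.1.1 :=
  (exists_sq σ p.1.1 p.1.2 p.2.1 p.2.2).choose_spec.1

omit [NumberField k] in
theorem mm_val (σ : AlgebraicClosure k →+* ℂ) (p : PR σ) : σ (mm σ p) = ((Real.sqrt p.1.2 : ℝ) : ℂ) :=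
  (exists_sq σ p.1.1 p.1.2 p.2.1 p.2.2).choose_spec.2

/-- the next pair -/
noncomputable def nx (σ : AlgebraicClosure k →+* ℂ) (p : PR σ) : PR σ :=
  ⟨(2 * mm σ p / (1 + p.1.1), 2 * Real.sqrt p.1.2 / (1 + p.1.2)), by
    have := p.2.1
    positivity, by
    rw [map_div₀, map_mul, map_add, map_one, mm_val, p.2.2, map_ofNat]
    push_cast
    rfl⟩

theorem exists_tower (σ : AlgebraicClosure k →+* ℂ) (t : AlgebraicClosure k) (τ : ℝ) (hτ : 0 < τ)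
    (ht : σ t = (τ : ℂ)) : ∃ (κ m : ℕ → AlgebraicClosure k) (K : ℕ → ℝ), Tw t κ m ∧
      (∀ i, σ (κ i) = (K i : ℂ)) ∧ (∀ i, 0 ≤ K i) ∧ K 0 ^ 4 = τ * (1 - K 0 ^ 2) ∧
      ∀ i, K (i + 1) = 2 * Real.sqrt (K i) / (1 + K i) := by
  obtain ⟨w, hw, hσw⟩ := exists_sq σ (t ^ 2 + 4 * t) (τ ^ 2 + 4 * τ) (by positivity) (by
    rw [map_add, map_mul, map_pow, ht, map_ofNat]
    push_cast
    rfl)
  set ω := Real.sqrt (τ ^ 2 + 4 * τ) with hω
  have hω2 : ω ^ 2 = τ ^ 2 + 4 * τ := Real.sq_sqrt (by positivity)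
  have hωτ : τ ≤ ω := Real.le_sqrt_of_sq_le (by linarith)
  obtain ⟨κ0, hκ0, hσκ0⟩ := exists_sq σ ((w - t) / 2) ((ω - τ) / 2) (by linarith) (by
    rw [map_div₀, map_sub, hσw, ht, map_ofNat]
    push_cast
    rfl)
  let s0 : PR σ := ⟨(κ0, Real.sqrt ((ω - τ) / 2)), Real.sqrt_nonneg _, hσκ0⟩
  let s : ℕ → PR σ := fun n => Nat.rec s0 (fun _ p => nx σ p) n
  have hs : ∀ i, s (i + 1) = nx σ (s i) := fun i => rfl
  have e1 : (Real.sqrt ((ω - τ) / 2)) ^ 2 = (ω - τ) / 2 := Real.sq_sqrt (by linarith)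
  have hK0 : (Real.sqrt ((ω - τ) / 2)) ^ 4 = τ * (1 - (Real.sqrt ((ω - τ) / 2)) ^ 2) := by
    have : (Real.sqrt ((ω - τ) / 2)) ^ 4 = ((Real.sqrt ((ω - τ) / 2)) ^ 2) ^ 2 := by ring
    rw [this, e1]
    nlinarith
  refine ⟨fun i => (s i).1.1, fun i => mm σ (s i), fun i => (s i).1.2, ⟨?_, fun i => mm_sq σ (s i), ?_⟩,
    fun i => (s i).2.2, fun i => (s i).2.1, hK0, fun i => ?_⟩
  · change κ0 ^ 4 = t * (1 - κ0 ^ 2)
    have : κ0 ^ 4 = (κ0 ^ 2) ^ 2 := by ring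
    rw [this, hκ0]
    field_simp
    linear_combination hw
  · intro i
    have h1 : 1 + (s i).1.1 ≠ 0 := by
      intro h
      have h2 := congrArg σ h
      rw [map_add, map_one, (s i).2.2, map_zero] at h2
      have h3 : (1 : ℝ) + (s i).1.2 = 0 := by exact_mod_cast h2
      have := (s i).2.1
      linarith
    change (2 * mm σ (s i) / (1 + (s i).1.1)) * (1 + (s i).1.1) = 2 * mm σ (s i)
    rw [div_mul_cancel₀ _ h1]
  · rfl

/-- the data for all `N` -/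
theorem exists_data (σ : AlgebraicClosure k →+* ℂ) :
    ∃ (E₀ : IntermediateField k (AlgebraicClosure k)) (c₀ h₀ : ℝ), 0 < h₀ ∧ Bd E₀ 2 c₀ ∧
      ∀ N : ℕ, ∃ (t u : AlgebraicClosure k) (κ m : ℕ → AlgebraicClosure k) (K : ℕ → ℝ),
        IsIntegral ℤ t ∧ IsIntegral ℤ u ∧ t * u = 1 ∧ t + 4 ≠ 0 ∧ t ∈ E₀ ∧ H t = N * h₀ ∧ Tw t κ m ∧
        (∀ i, σ (κ i) = (K i : ℂ)) ∧ (∀ i, 0 ≤ K i) ∧
        K 0 ^ 4 = (1 + Real.sqrt 2) ^ N * (1 - K 0 ^ 2) ∧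
        ∀ i, K (i + 1) = 2 * Real.sqrt (K i) / (1 + K i) := by
  obtain ⟨ρ, hρ, hσρ⟩ := exists_sq σ 2 2 (by norm_num) (by rw [map_ofNat]; push_cast; rfl)
  have h1i : IsIntegral ℤ (1 : AlgebraicClosure k) := isIntegral_one
  have h2i : IsIntegral ℤ (2 : AlgebraicClosure k) := by
    have : (2 : AlgebraicClosure k) = 1 + 1 := by norm_num
    rw [this]
    exact h1i.add h1i
  have hρi : IsIntegral ℤ ρ := by
    apply IsIntegral.of_pow (n := 2) (by norm_num)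
    rw [hρ]
    exact h2i
  obtain ⟨E₀, -, hρE, hb⟩ := bd_root (k := k) bd_bot ρ 2 two_ne_zero (by
    rw [hρ]
    exact_mod_cast (⊥ : IntermediateField k (AlgebraicClosure k)).natCast_mem 2) hρi 2 two_ne_zero 1 h1i (by
    rw [hρ, mul_one]
    norm_num)
  have hε : (1 + ρ) * (ρ - 1) = 1 := by
    have : (1 + ρ) * (ρ - 1) = ρ ^ 2 - 1 := by ring
    rw [this, hρ]
    norm_num
  have hσε : σ (1 + ρ) = ((1 + Real.sqrt 2 : ℝ) : ℂ) := by
    rw [map_add, map_one, hσρ]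
    push_cast
    rfl
  have hs2 : 1 < Real.sqrt 2 := by
    rw [Real.lt_sqrt (by norm_num)]
    norm_num
  have hpos : 0 < H (1 + ρ) := by
    haveI := fd (1 + ρ)
    haveI := nf k⟮1 + ρ⟯
    have h1 := H_eq k⟮1 + ρ⟯ (AdjoinSimple.gen k (1 + ρ))
    have h2 := log_norm_le (σ.comp (algebraMap k⟮1 + ρ⟯ (AlgebraicClosure k))) (AdjoinSimple.gen k (1 + ρ))
    rw [h1] at h2
    have h3 : (σ.comp (algebraMap k⟮1 + ρ⟯ (AlgebraicClosure k))) (AdjoinSimple.gen k (1 + ρ)) = σ (1 + ρ) := rfl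
    rw [h3, hσε, Complex.norm_real, Real.norm_of_nonneg (by linarith)] at h2
    have h4 : 0 < Real.log (1 + Real.sqrt 2) := Real.log_pos (by linarith)
    have h5 := finrank_pos' k⟮1 + ρ⟯
    have h6 : ((AdjoinSimple.gen k (1 + ρ) : k⟮1 + ρ⟯) : AlgebraicClosure k) = 1 + ρ := rfl
    rw [h6] at h2
    by_contra h7
    push Not at h7
    nlinarith
  refine ⟨E₀, _, H (1 + ρ), hpos, hb, fun N => ?_⟩
  have hτ : 0 < (1 + Real.sqrt 2) ^ N := by positivity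
  have hσt : σ ((1 + ρ) ^ N) = (((1 + Real.sqrt 2) ^ N : ℝ) : ℂ) := by
    rw [map_pow, hσε]
    push_cast
    rfl
  obtain ⟨κ, m, K, h1, h2, h3, h4, h5⟩ := exists_tower σ ((1 + ρ) ^ N) _ hτ hσt
  refine ⟨(1 + ρ) ^ N, (ρ - 1) ^ N, κ, m, K, (h1i.add hρi).pow N, (hρi.sub h1i).pow N, ?_, ?_,
    pow_mem (E₀.add_mem E₀.one_mem hρE) N, H_pow _ N, h1, h2, h3, h4, h5⟩
  · rw [← mul_pow, hε, one_pow]
  · intro h
    have h6 := congrArg σ h
    rw [map_add, hσt, map_ofNat, map_zero] at h6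
    have h7 : (1 + Real.sqrt 2) ^ N + 4 = (0 : ℝ) := by exact_mod_cast h6
    linarith

end Pool.Agent.Helper64.VZ
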