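import Mathlib
import Pool.Agent.Helper64.VZ.Defs

/-!
The standard hyperplanes `X_0, …, X_n, X_0 + … + X_n`.
-/

set_option autoImplicit false

namespace Pool.Agent.VZ

open NumberField IntermediateField MvPolynomial Pool.Agent.Helper64.Vojta

universe u

variable {k : Type u} [Field k] [NumberField k] {n : ℕ}

/-- The hyperplanes `X_0, …, X_n, X_0 + … + X_n`. -/
def Std (k : Type u) [Field k] (n : ℕ) : Fin (n + 2) → Fin (n + 1) → k :=
  fun i j => if (i : ℕ) = n + 1 ∨ (i : ℕ) = (j : ℕ) then 1 else 0

theorem std_castSucc (i : Fin (n + 1)) (z : Fin n → AlgebraicClosure k) :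
    ∑ j, algebraMap k (fld z) (Std k n i.castSucc j) * crd z j = crd z i := by
  rw [Finset.sum_eq_single i]
  · have : Std k n i.castSucc i = 1 := by
      unfold Std
      rw [if_pos]
      right
      rfl
    rw [this, map_one, one_mul]
  · intro j _ hj
    have : Std k n i.castSucc j = 0 := by
      unfold Std
      rw [if_neg]
      rintro (h | h)
      · have := i.2
        rw [Fin.val_castSucc] at h
        omega
      · exact hj (Fin.ext h.symm)
    rw [this, map_zero, zero_mul]
  · intro h
    exact absurd (Finset.mem_univ _) h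

theorem std_last (z : Fin n → AlgebraicClosure k) :
    ∑ j, algebraMap k (fld z) (Std k n (Fin.last (n + 1)) j) * crd z j = ∑ j, crd z j := by
  refine Finset.sum_congr rfl fun j _ => ?_
  have : Std k n (Fin.last (n + 1)) j = 1 := by
    unfold Std
    rw [if_pos]
    left
    rfl
  rw [this, map_one, one_mul]

theorem lam_std (S : Finset (Pl k)) (z : Fin n → AlgebraicClosure k) :
    lam (Std k n) S z = (∑ ν ∈ S, ∑ w ∈ above (fld z) ν,
      (∑ i, (Real.log (sn w (crd z)) - Real.log (nv w (crd z i))) +
        (Real.log (sn w (crd z)) - Real.log (nv w (∑ i, crd z i))))) / dg z := by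
  unfold lam
  congr 1
  refine Finset.sum_congr rfl fun ν _ => Finset.sum_congr rfl fun w _ => ?_
  rw [Fin.sum_univ_castSucc]
  congr 1
  · refine Finset.sum_congr rfl fun i _ => ?_
    rw [std_castSucc]
  · rw [std_last]

theorem std_ne (z : Fin n → AlgebraicClosure k) (h0 : ∀ i, crd z i ≠ 0) (h1 : ∑ i, crd z i ≠ 0) :
    ∀ i, ∑ j, algebraMap k (fld z) (Std k n i j) * crd z j ≠ 0 := by
  intro i
  refine Fin.lastCases ?_ (fun i => ?_) i
  · rw [std_last]
    exact h1
  · rw [std_castSucc]
    exact h0 i

end Pool.Agent.VZ
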