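import Mathlib
import Pool.Agent.Helper64.VZ.Disc
import Pool.Agent.Helper64.Vojta.Bounds

/-!
Heights and Weil functions of the points `(1 : μ₀ - 1 : μ₀ (μ₁ - 1) : … )`.
-/

set_option autoImplicit false

namespace Pool.Agent.Helper64.VZ

open NumberField IntermediateField Module Height Polynomial Pool.Agent.Helper64.Vojta

universe u v

section coords

variable {R : Type*} [CommRing R]

/-- partial products -/
def PP (μ : ℕ → R) (j : ℕ) : R := ∏ i ∈ Finset.range j, μ i

/-- the coordinates -/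
def zz (μ : ℕ → R) : ℕ → R
  | 0 => 1
  | j + 1 => PP μ j * (μ j - 1)

theorem sum_zz (μ : ℕ → R) (j : ℕ) : ∑ i ∈ Finset.range (j + 1), zz μ i = PP μ j := by
  induction j with
  | zero => simp [zz, PP]
  | succ j ih =>
    rw [Finset.sum_range_succ, ih]
    show PP μ j + PP μ j * (μ j - 1) = PP μ (j + 1)
    unfold PP
    rw [Finset.prod_range_succ]
    ring

end coords

section sums

variable {k : Type u} [Field k] [NumberField k] {L : Type v} [Field L] [NumberField L] [Algebra k L]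

/-- the sum over the places above `S` is at least the sum over the infinite places -/
theorem sum_above_ge (S : Finset (Pl k)) (hS : ∀ v : InfinitePlace k, Sum.inl v ∈ S) (f : Pl L → ℝ)
    (hf : ∀ w : FinitePlace L, 0 ≤ f (.inr w)) :
    ∑ w : InfinitePlace L, f (.inl w) ≤ ∑ ν ∈ S, ∑ w ∈ above L ν, f w := by
  classical
  have hdisj : (S : Set (Pl k)).PairwiseDisjoint (above L) := by
    intro a _ b _ hab
    rw [Function.onFun, Finset.disjoint_left]
    intro w hwa hwb
    exact hab (above_unique (mem_above.mp hwa) (mem_above.mp hwb))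
  rw [← Finset.sum_biUnion (fun a ha b hb hab => hdisj ha hb hab)]
  have h1 : ∑ w : InfinitePlace L, f (.inl w) =
      ∑ w ∈ (Finset.univ : Finset (InfinitePlace L)).map ⟨Sum.inl, Sum.inl_injective⟩, f w := by
    rw [Finset.sum_map]
    rfl
  rw [h1]
  apply Finset.sum_le_sum_of_subset_of_nonneg
  · intro w hw
    obtain ⟨w', -, rfl⟩ := Finset.mem_map.mp hw
    obtain ⟨ν, hν⟩ := Pool.Agent.Helper52.Vojta.exists_below (L := k) (.inl w' : Pl L)
    rw [Finset.mem_biUnion]
    refine ⟨ν, ?_, hν⟩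
    rcases ν with ν | ν
    · exact hS ν
    · exact absurd (mem_above.mp hν) id
  · intro w _ hw
    rcases w with w | w
    · exact absurd (Finset.mem_map.mpr ⟨w, Finset.mem_univ _, rfl⟩) hw
    · exact hf w

end sums

section heights

variable {L : Type v} [Field L] [NumberField L]

theorem sn_fin_le_one {m : ℕ} (z : Fin m → 𝓞 L) (w : FinitePlace L) :
    sn (.inr w) (fun i => (z i : L)) ≤ 1 :=
  sn_le _ _ _ zero_le_one fun i => nv_int_le_one w (z i)

theorem le_sum_sn {m : ℕ} (z : Fin m → 𝓞 L) (hz : (fun i => (z i : L)) ≠ 0) :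
    logHeight (fun i => (z i : L)) ≤ ∑ w : InfinitePlace L, Real.log (sn (.inl w) (fun i => (z i : L))) := by
  rw [logHeight_eq hz]
  have h1 : 0 ≤ ∑ᶠ w : FinitePlace L, -Real.log (sn (.inr w) (fun i => (z i : L))) := by
    apply finsum_nonneg
    intro w
    have := Real.log_nonpos (sn_pos _ hz).le (sn_fin_le_one z w)
    linarith
  rw [finsum_neg_distrib] at h1
  linarith

theorem sum_sn_le {m : ℕ} (z : Fin (m + 1) → L) (hz : z 0 = 1) :
    ∑ w : InfinitePlace L, Real.log (sn (.inl w) z) ≤ logHeight z := by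
  have hz0 : z ≠ 0 := by
    intro h
    rw [h] at hz
    exact zero_ne_one hz
  rw [logHeight_eq hz0]
  have h1 : 0 ≤ ∑ᶠ w : FinitePlace L, Real.log (sn (.inr w) z) := by
    apply finsum_nonneg
    intro w
    apply Real.log_nonneg
    have := le_sn (.inr w) z 0
    rwa [hz, nv_one] at this
  linarith

/-- height of an integral element -/
theorem logHeight₁_int (x : 𝓞 L) :
    logHeight₁ (x : L) = ∑ w : InfinitePlace L, (w.mult : ℝ) * Real.posLog (w (x : L)) := by
  rw [NumberField.logHeight₁_eq]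
  have h1 : ∑ᶠ v : FinitePlace L, Real.posLog (v (x : L)) = 0 := by
    rw [← finsum_zero (α := FinitePlace L)]
    apply finsum_congr
    intro v
    rw [Real.posLog_eq_zero_iff]
    have := nv_int_le_one v x
    rw [abs_of_nonneg (apply_nonneg v _)]
    exact this
  rw [h1, add_zero]

theorem log_norm_nonneg (c : 𝓞 L) (hc : c ≠ 0) : 0 ≤ Real.log |(Algebra.norm ℤ c : ℝ)| := by
  apply Real.log_nonneg
  have h1 : Algebra.norm ℤ c ≠ 0 := Algebra.norm_ne_zero_iff.mpr hc
  have h2 : 1 ≤ |Algebra.norm ℤ c| := Int.one_le_abs h1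
  exact_mod_cast h2

/-- logarithm of the absolute norm -/
noncomputable def ln (c : 𝓞 L) : ℝ := Real.log |(Algebra.norm ℤ c : ℝ)|

theorem ln_mul (a b : 𝓞 L) (ha : a ≠ 0) (hb : b ≠ 0) : ln (a * b) = ln a + ln b := by
  unfold ln
  rw [map_mul]
  push_cast
  rw [abs_mul, Real.log_mul]
  · rw [abs_ne_zero]
    exact_mod_cast Algebra.norm_ne_zero_iff.mpr ha
  · rw [abs_ne_zero]
    exact_mod_cast Algebra.norm_ne_zero_iff.mpr hb

theorem ln_one : ln (1 : 𝓞 L) = 0 := by
  unfold ln
  simp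

theorem ln_nonneg (c : 𝓞 L) (hc : c ≠ 0) : 0 ≤ ln c := log_norm_nonneg c hc

theorem ln_prod {ι : Type*} (s : Finset ι) (f : ι → 𝓞 L) (hf : ∀ i ∈ s, f i ≠ 0) :
    ln (∏ i ∈ s, f i) = ∑ i ∈ s, ln (f i) := by
  classical
  induction s using Finset.induction_on with
  | empty => simp [ln_one]
  | insert a s ha ih =>
    rw [Finset.prod_insert ha, Finset.sum_insert ha,
      ln_mul _ _ (hf a (Finset.mem_insert_self a s))
        (Finset.prod_ne_zero_iff.mpr fun i hi => hf i (Finset.mem_insert_of_mem hi)),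
      ih fun i hi => hf i (Finset.mem_insert_of_mem hi)]

theorem ln_le_of_dvd (c : 𝓞 L) (B : ℕ) (hB : B ≠ 0) (h : c ∣ (B : 𝓞 L)) :
    ln c ≤ finrank ℚ L * Real.log B := by
  have h1 := log_norm_le_of_dvd c B hB h
  have h2 := finrank_pos' L
  rw [div_le_iff₀ h2] at h1
  unfold ln
  linarith

theorem ln_unit (c : 𝓞 L) (h : IsUnit c) : ln c = 0 := by
  unfold ln
  have h4 : IsUnit (Algebra.norm ℤ c) := h.map _
  rcases Int.isUnit_iff.mp h4 with h | h <;> rw [h] <;> simp

/-- the norms of the coordinates -/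
theorem ln_zz (μ : ℕ → 𝓞 L) (n : ℕ) (h0 : ∀ i < n, μ i ≠ 0) (h1 : ∀ i < n, μ i - 1 ≠ 0) :
    ∑ i ∈ Finset.range (n + 1), ln (zz μ i) + ln (PP μ n) ≤
      (n + 1) * ∑ i ∈ Finset.range n, ln (μ i) + ∑ i ∈ Finset.range n, ln (μ i - 1) := by
  have hP : ∀ j ≤ n, PP μ j ≠ 0 := by
    intro j hj
    unfold PP
    rw [Finset.prod_ne_zero_iff]
    intro i hi
    exact h0 i (lt_of_lt_of_le (Finset.mem_range.mp hi) hj)
  have hlP : ∀ j ≤ n, ln (PP μ j) = ∑ i ∈ Finset.range j, ln (μ i) := by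
    intro j hj
    unfold PP
    exact ln_prod _ _ fun i hi => h0 i (lt_of_lt_of_le (Finset.mem_range.mp hi) hj)
  have hle : ∀ j ≤ n, ln (PP μ j) ≤ ∑ i ∈ Finset.range n, ln (μ i) := by
    intro j hj
    rw [hlP j hj]
    apply Finset.sum_le_sum_of_subset_of_nonneg
    · intro i hi
      exact Finset.mem_range.mpr (lt_of_lt_of_le (Finset.mem_range.mp hi) hj)
    · intro i hi _
      exact ln_nonneg _ (h0 i (Finset.mem_range.mp hi))
  rw [Finset.sum_range_succ']
  have e0 : ln (zz μ 0) = 0 := ln_one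
  rw [e0, add_zero]
  have h2 : ∀ j ∈ Finset.range n, ln (zz μ (j + 1)) ≤ ∑ i ∈ Finset.range n, ln (μ i) + ln (μ j - 1) := by
    intro j hj
    have hj' := Finset.mem_range.mp hj
    have e1 : ln (zz μ (j + 1)) = ln (PP μ j) + ln (μ j - 1) := ln_mul _ _ (hP j hj'.le) (h1 j hj')
    rw [e1]
    have := hle j hj'.le
    linarith
  have h3 := Finset.sum_le_sum h2
  rw [Finset.sum_add_distrib, Finset.sum_const, Finset.card_range, nsmul_eq_mul] at h3
  have h4 := hle n le_rfl
  linarith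

theorem card_inf_le : (Fintype.card (InfinitePlace L) : ℝ) ≤ finrank ℚ L := by
  rw [← sum_mult L]
  have h : ∀ w : InfinitePlace L, (1 : ℝ) ≤ w.mult := fun w => by exact_mod_cast w.mult_pos
  calc (Fintype.card (InfinitePlace L) : ℝ) = ∑ w : InfinitePlace L, (1 : ℝ) := by simp
    _ ≤ _ := Finset.sum_le_sum fun w _ => h w

/-- Lower bound for the height of the point `z = (1 : μ₀ - 1 : μ₀ (μ₁ - 1) : …)`. -/
theorem height_ge (n : ℕ) (μ : ℕ → 𝓞 L) (c : ℝ) (hc : 0 < c) (h0 : ∀ i < n, μ i ≠ 0)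
    (hloc : ∀ w : InfinitePlace L, ∃ j ≤ n, c * ∏ i ∈ Finset.range n, max 1 (w (μ i : L)) ≤
      ∏ i ∈ Finset.range j, w (μ i : L)) :
    ∑ i ∈ Finset.range n, logHeight₁ (μ i : L) + finrank ℚ L * (Real.log c - 2 * Real.log (n + 2)) ≤
      logHeight (fun i : Fin (n + 1) => ((zz μ i : 𝓞 L) : L)) := by
  set z : Fin (n + 1) → L := fun i => ((zz μ i : 𝓞 L) : L) with hz
  have hz0 : z 0 = 1 := by
    rw [hz]
    show ((1 : 𝓞 L) : L) = 1
    simp
  have hzne : z ≠ 0 := by
    intro h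
    rw [h] at hz0
    exact zero_ne_one hz0
  refine le_trans ?_ (sum_sn_le z hz0)
  have hn2 : (0 : ℝ) < n + 2 := by positivity
  have hl2 : 0 ≤ Real.log ((n : ℝ) + 2) := Real.log_nonneg (by
    have : (0 : ℝ) ≤ n := Nat.cast_nonneg n
    linarith)
  have key : ∀ w : InfinitePlace L, (w.mult : ℝ) * (Real.log c + ∑ i ∈ Finset.range n, Real.posLog (w (μ i : L))) -
      w.mult * (2 * Real.log (n + 2)) ≤ Real.log (sn (.inl w) z) := by
    intro w
    obtain ⟨j, hj, hw⟩ := hloc w
    have hpos : ∀ i < n, 0 < w (μ i : L) := fun i hi =>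
      InfinitePlace.pos_iff.mpr (RingOfIntegers.coe_ne_zero_iff.mpr (h0 i hi))
    have hm1 : ∀ i, (0 : ℝ) < max 1 (w (μ i : L)) := fun i => lt_of_lt_of_le one_pos (le_max_left _ _)
    have e1 : Real.log c + ∑ i ∈ Finset.range n, Real.posLog (w (μ i : L)) ≤
        Real.log (w ((PP μ j : 𝓞 L) : L)) := by
      have e2 : (w ((PP μ j : 𝓞 L) : L)) = ∏ i ∈ Finset.range j, w (μ i : L) := by
        unfold PP
        push_cast
        rw [map_prod]
      have e3 : ∑ i ∈ Finset.range n, Real.posLog (w (μ i : L)) =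
          Real.log (∏ i ∈ Finset.range n, max 1 (w (μ i : L))) := by
        rw [Real.log_prod (fun i _ => (hm1 i).ne')]
        exact Finset.sum_congr rfl fun i _ => Real.posLog_eq_log_max_one (apply_nonneg w _)
      rw [e2, e3, ← Real.log_mul hc.ne' (Finset.prod_pos fun i _ => hm1 i).ne']
      exact Real.log_le_log (mul_pos hc (Finset.prod_pos fun i _ => hm1 i)) hw
    -- partial sums
    have e4 : ((PP μ j : 𝓞 L) : L) = ∑ i ∈ Finset.univ.filter (fun i : Fin (n + 1) => (i : ℕ) < j + 1), z i := by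
      rw [← sum_zz]
      push_cast
      rw [Finset.sum_filter]
      have e10 := Fin.sum_univ_eq_sum_range (fun i => if i < j + 1 then ((zz μ i : 𝓞 L) : L) else 0) (n + 1)
      rw [show (∑ a : Fin (n + 1), if (a : ℕ) < j + 1 then z a else 0) =
        ∑ i : Fin (n + 1), if (i : ℕ) < j + 1 then ((zz μ i : 𝓞 L) : L) else 0 from rfl, e10]
      rw [← Finset.sum_filter]
      apply Finset.sum_congr
      · ext i
        simp only [Finset.mem_range, Finset.mem_filter]
        omega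
      · intro i _
        rfl
    have hPne : ((PP μ j : 𝓞 L) : L) ≠ 0 := by
      rw [RingOfIntegers.coe_ne_zero_iff]
      unfold PP
      rw [Finset.prod_ne_zero_iff]
      intro i hi
      exact h0 i (lt_of_lt_of_le (Finset.mem_range.mp hi) hj)
    have e5 : nv (.inl w) ((PP μ j : 𝓞 L) : L) ≤ ((n : ℝ) + 2) ^ 2 * sn (.inl w) z := by
      rw [e4]
      refine (nv_sum_le (.inl w) _ _ (sn (.inl w) z) (sn_pos _ hzne).le fun i _ => le_sn _ _ _).trans ?_
      apply mul_le_mul_of_nonneg_right _ (sn_pos _ hzne).le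
      have : (((Finset.univ.filter (fun i : Fin (n + 1) => (i : ℕ) < j + 1)).card : ℕ) : ℝ) ≤ n + 1 := by
        have h := Finset.card_filter_le (Finset.univ : Finset (Fin (n + 1))) (fun i => (i : ℕ) < j + 1)
        rw [Finset.card_univ, Fintype.card_fin] at h
        exact_mod_cast h
      have h' : (0 : ℝ) ≤ ((Finset.univ.filter (fun i : Fin (n + 1) => (i : ℕ) < j + 1)).card : ℕ) := Nat.cast_nonneg _
      apply pow_le_pow_left₀ (by linarith)
      linarith
    have e6 := Real.log_le_log (nv_pos _ hPne) e5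
    rw [Real.log_mul (by positivity) (sn_pos _ hzne).ne', Real.log_pow] at e6
    have e7 : Real.log (nv (.inl w) ((PP μ j : 𝓞 L) : L)) = w.mult * Real.log (w ((PP μ j : 𝓞 L) : L)) := by
      simp only [nv, Real.log_pow]
    rw [e7] at e6
    have hm : (1 : ℝ) ≤ w.mult := by exact_mod_cast w.mult_pos
    have e8 := mul_le_mul_of_nonneg_left e1 (by linarith : (0 : ℝ) ≤ w.mult)
    have e9 : 2 * Real.log ((n : ℝ) + 2) ≤ w.mult * (2 * Real.log (n + 2)) := by nlinarith
    push_cast at e6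
    linarith
  have h5 := Finset.sum_le_sum fun (w : InfinitePlace L) (_ : w ∈ Finset.univ) => key w
  refine le_trans (le_of_eq ?_) h5
  rw [Finset.sum_sub_distrib, ← Finset.sum_mul, sum_mult]
  simp_rw [mul_add]
  rw [Finset.sum_add_distrib, ← Finset.sum_mul, sum_mult]
  have h6 : ∑ i ∈ Finset.range n, logHeight₁ (μ i : L) =
      ∑ w : InfinitePlace L, (w.mult : ℝ) * ∑ i ∈ Finset.range n, Real.posLog (w (μ i : L)) := by
    simp_rw [logHeight₁_int, Finset.mul_sum]
    rw [Finset.sum_comm]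
  rw [h6]
  ring

end heights

section weil

variable {k : Type u} [Field k] [NumberField k] {L : Type v} [Field L] [NumberField L] [Algebra k L]

/-- Weil functions of the `n + 2` standard hyperplanes at `z`. -/
theorem weil_ge (n : ℕ) (S : Finset (Pl k)) (hS : ∀ v : InfinitePlace k, Sum.inl v ∈ S)
    (z : Fin (n + 1) → 𝓞 L) (hz : ∀ i, z i ≠ 0) (s : 𝓞 L) (hs : ∑ i, z i = s) (hs0 : s ≠ 0) :
    (n + 2) * logHeight (fun i => (z i : L)) - (∑ i, ln (z i) + ln s) ≤
      ∑ ν ∈ S, ∑ w ∈ above L ν, (∑ i, (Real.log (sn w (fun i => (z i : L))) - Real.log (nv w (z i : L))) +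
        (Real.log (sn w (fun i => (z i : L))) - Real.log (nv w (∑ i, (z i : L))))) := by
  set x : Fin (n + 1) → L := fun i => (z i : L) with hx
  have hxi : ∀ i, x i ≠ 0 := fun i => RingOfIntegers.coe_ne_zero_iff.mpr (hz i)
  have hx0 : x ≠ 0 := fun h => hxi 0 (congrFun h 0)
  have hsx : (s : L) = ∑ i, x i := by
    rw [← hs]
    push_cast
    rfl
  have hs' : ∑ i, x i ≠ 0 := by
    rw [← hsx]
    exact RingOfIntegers.coe_ne_zero_iff.mpr hs0
  have h1 : ∀ w : FinitePlace L, 0 ≤ (∑ i, (Real.log (sn (.inr w) x) - Real.log (nv (.inr w) (x i))) +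
        (Real.log (sn (.inr w) x) - Real.log (nv (.inr w) (∑ i, x i)))) := by
    intro w
    apply add_nonneg
    · apply Finset.sum_nonneg
      intro i _
      have := Real.log_le_log (nv_pos (.inr w) (hxi i)) (le_sn (.inr w) x i)
      linarith
    · have h2 : nv (.inr w) (∑ i, x i) ≤ sn (.inr w) x :=
        nv_sum_le_inr w _ _ _ (sn_pos _ hx0).le fun i _ => le_sn _ _ _
      have := Real.log_le_log (nv_pos (.inr w) hs') h2
      linarith
  refine le_trans ?_ (sum_above_ge S hS _ h1)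
  have h2 : ∀ w : InfinitePlace L, (∑ i, (Real.log (sn (.inl w) x) - Real.log (nv (.inl w) (x i))) +
        (Real.log (sn (.inl w) x) - Real.log (nv (.inl w) (∑ i, x i)))) =
      (n + 2) * Real.log (sn (.inl w) x) - (∑ i, Real.log (nv (.inl w) (x i)) + Real.log (nv (.inl w) (s : L))) := by
    intro w
    rw [Finset.sum_sub_distrib, Finset.sum_const, Finset.card_univ, Fintype.card_fin, nsmul_eq_mul, hsx]
    push_cast
    ring
  rw [Finset.sum_congr rfl fun w _ => h2 w, Finset.sum_sub_distrib, ← Finset.mul_sum, Finset.sum_add_distrib,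
    Finset.sum_comm]
  have h3 : ∀ c : 𝓞 L, c ≠ 0 → ∑ w : InfinitePlace L, Real.log (nv (.inl w) (c : L)) = ln c := by
    intro c hc
    exact (log_norm_eq c hc).symm
  rw [h3 s hs0, Finset.sum_congr rfl fun i _ => h3 (z i) (hz i)]
  have h4 := le_sum_sn z hx0
  have h5 : (0 : ℝ) ≤ n + 2 := by positivity
  have h6 := mul_le_mul_of_nonneg_left h4 h5
  linarith

/-- The basic inequality for the point `z = (1 : μ₀ - 1 : μ₀ (μ₁ - 1) : …)`. -/
theorem weil_zz (n : ℕ) (S : Finset (Pl k)) (hS : ∀ v : InfinitePlace k, Sum.inl v ∈ S)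
    (μ : ℕ → 𝓞 L) (h0 : ∀ i < n, μ i ≠ 0) (h1 : ∀ i < n, μ i - 1 ≠ 0) :
    (n + 2) * logHeight (fun i : Fin (n + 1) => ((zz μ i : 𝓞 L) : L)) -
      ((n + 1) * ∑ i ∈ Finset.range n, ln (μ i) + ∑ i ∈ Finset.range n, ln (μ i - 1)) ≤
      ∑ ν ∈ S, ∑ w ∈ above L ν, (∑ i : Fin (n + 1), (Real.log (sn w (fun i : Fin (n + 1) => ((zz μ i : 𝓞 L) : L))) -
        Real.log (nv w ((zz μ i : 𝓞 L) : L))) +
        (Real.log (sn w (fun i : Fin (n + 1) => ((zz μ i : 𝓞 L) : L))) - Real.log (nv w (∑ i : Fin (n + 1), ((zz μ i : 𝓞 L) : L))))) := by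
  have hP : ∀ j ≤ n, PP μ j ≠ 0 := by
    intro j hj
    unfold PP
    rw [Finset.prod_ne_zero_iff]
    intro i hi
    exact h0 i (lt_of_lt_of_le (Finset.mem_range.mp hi) hj)
  have hz : ∀ i : Fin (n + 1), zz μ i ≠ 0 := by
    intro i
    obtain ⟨i, hi⟩ := i
    cases i with
    | zero => exact one_ne_zero
    | succ j =>
      exact mul_ne_zero (hP j (by omega)) (h1 j (by omega))
  have hs : ∑ i : Fin (n + 1), zz μ i = PP μ n := by
    rw [Fin.sum_univ_eq_sum_range (fun i => zz μ i) (n + 1), sum_zz]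
  have h2 := weil_ge n S hS (fun i : Fin (n + 1) => zz μ i) hz (PP μ n) hs (hP n le_rfl)
  refine le_trans ?_ h2
  have h3 := ln_zz μ n h0 h1
  rw [Fin.sum_univ_eq_sum_range (fun i => ln (zz μ i)) (n + 1)]
  linarith

end weil

end Pool.Agent.Helper64.VZ
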