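import Mathlib
import Pool.Agent.Helper64.VZ.Weil
import Pool.Agent.Helper64.VZ.Fields
import Pool.Agent.Helper64.VZ.Std

/-!
The basic inequality for the points `(1 : μ₀ - 1 : μ₀ (μ₁ - 1) : …)` of `P^n`.
-/

set_option autoImplicit false

namespace Pool.Agent.Helper64.VZ

open NumberField IntermediateField Module Height Polynomial Pool.Agent.Helper64.Vojta Pool.Agent.VZ

universe u

variable {k : Type u} [Field k] [NumberField k]

omit [NumberField k] in
/-- an embedding of a subfield extends to the algebraic closure -/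
theorem ext_emb (L : IntermediateField k (AlgebraicClosure k)) (φ₀ : L →+* ℂ) :
    ∃ φ : AlgebraicClosure k →+* ℂ, ∀ x : L, φ x = φ₀ x := by
  let : Algebra L ℂ := φ₀.toAlgebra
  have : Algebra.IsAlgebraic L (AlgebraicClosure k) := ⟨fun x => by
    have := int_adj L x
    exact this.isAlgebraic⟩
  let ψ : AlgebraicClosure k →ₐ[L] ℂ := IsAlgClosed.lift
  exact ⟨ψ, fun x => ψ.commutes x⟩

theorem ln_dvd (L : IntermediateField k (AlgebraicClosure k)) [NumberField L] (x : 𝓞 L) (B : ℕ) (hB : B ≠ 0)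
    (b : AlgebraicClosure k) (hb : IsIntegral ℤ b) (h : ((x : L) : AlgebraicClosure k) * b = B) :
    ln x ≤ finrank ℚ L * Real.log B := by
  have hx : ((x : L) : AlgebraicClosure k) ≠ 0 := by
    intro h0
    rw [h0, zero_mul] at h
    exact hB (by exact_mod_cast h.symm)
  have hbL : b ∈ L := by
    have : b = B * ((x : L) : AlgebraicClosure k)⁻¹ := by
      rw [← h]
      field_simp
    rw [this]
    exact L.mul_mem (L.natCast_mem B) (L.inv_mem (x : L).2)
  let b' : 𝓞 L := ⟨⟨b, hbL⟩, int_sub hbL hb⟩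
  apply ln_le_of_dvd x B hB
  refine ⟨b', ?_⟩
  apply RingOfIntegers.ext
  apply Subtype.ext
  exact h.symm

theorem dk_eq {n : ℕ} (y : Fin n → AlgebraicClosure k) :
    dk y = finrank ℚ k * (rd (fld y) - rd k) := by
  have h1 : finrank ℚ k * finrank k (fld y) = finrank ℚ (fld y) := finrank_mul_finrank ℚ k (fld y)
  have h2 := finrank_pos' k
  have h3 := finrank_pos' (fld y)
  have h4 : (finrank ℚ (fld y) : ℝ) = finrank ℚ k * finrank k (fld y) := by exact_mod_cast h1.symm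
  have h5 : (0 : ℝ) < finrank k (fld y) := by
    rw [h4] at h3
    exact (mul_pos_iff_of_pos_left h2).mp h3
  unfold dk rd dg
  rw [h4]
  field_simp

theorem dg_pos {n : ℕ} (y : Fin n → AlgebraicClosure k) : (0 : ℝ) < dg y := by
  have h1 : finrank ℚ k * finrank k (fld y) = finrank ℚ (fld y) := finrank_mul_finrank ℚ k (fld y)
  have h2 := finrank_pos' k
  have h3 := finrank_pos' (fld y)
  have h4 : (finrank ℚ (fld y) : ℝ) = finrank ℚ k * finrank k (fld y) := by exact_mod_cast h1.symm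
  rw [h4] at h3
  exact (mul_pos_iff_of_pos_left h2).mp h3

theorem finrank_eq_dg {n : ℕ} (y : Fin n → AlgebraicClosure k) :
    (finrank ℚ (fld y) : ℝ) = finrank ℚ k * dg y := by
  have h1 : finrank ℚ k * finrank k (fld y) = finrank ℚ (fld y) := finrank_mul_finrank ℚ k (fld y)
  unfold dg
  exact_mod_cast h1.symm

section pt

variable (n : ℕ) (μ : ℕ → AlgebraicClosure k)

/-- the point -/
noncomputable def pt : Fin n → AlgebraicClosure k := fun j => zz μ (j + 1)

variable {n μ}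

omit [NumberField k] in
theorem pp_mem (E : IntermediateField k (AlgebraicClosure k)) (hE : ∀ i < n, μ i ∈ E) (j : ℕ) (hj : j ≤ n) :
    PP μ j ∈ E := by
  unfold PP
  apply prod_mem
  intro i hi
  exact hE i (lt_of_lt_of_le (Finset.mem_range.mp hi) hj)

/-- the field of the point is contained in every field which contains the `μ i` -/
theorem fld_pt_le (E : IntermediateField k (AlgebraicClosure k)) (hE : ∀ i < n, μ i ∈ E) :
    fld (pt n μ) ≤ E := by
  unfold fld
  rw [adjoin_le_iff]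
  rintro _ ⟨j, rfl⟩
  show PP μ j * (μ j - 1) ∈ E
  exact E.mul_mem (pp_mem E hE j j.2.le) (E.sub_mem (hE j j.2) E.one_mem)

theorem zz_mem (j : ℕ) (hj : j ≤ n) : zz μ j ∈ fld (pt n μ) := by
  cases j with
  | zero => exact (fld (pt n μ)).one_mem
  | succ j =>
    have : pt n μ ⟨j, hj⟩ ∈ fld (pt n μ) := subset_adjoin k _ (Set.mem_range_self _)
    exact this

theorem mem_fld_pt (h0 : ∀ i < n, μ i ≠ 0) (i : ℕ) (hi : i < n) : μ i ∈ fld (pt n μ) := by
  have h1 : ∀ j ≤ n, PP μ j ∈ fld (pt n μ) := by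
    intro j hj
    rw [← sum_zz]
    apply sum_mem
    intro l hl
    exact zz_mem l (by
      have := Finset.mem_range.mp hl
      omega)
  have h2 : PP μ i ≠ 0 := by
    unfold PP
    rw [Finset.prod_ne_zero_iff]
    intro l hl
    exact h0 l (lt_trans (Finset.mem_range.mp hl) hi)
  have h3 : μ i = PP μ (i + 1) / PP μ i := by
    rw [eq_div_iff h2]
    unfold PP
    rw [Finset.prod_range_succ, mul_comm]
  rw [h3]
  exact (fld (pt n μ)).div_mem (h1 (i + 1) hi) (h1 i hi.le)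

open Classical in
/-- the `μ i` as integers of the field of the point -/
noncomputable def mu' (n : ℕ) (μ : ℕ → AlgebraicClosure k) (i : ℕ) : 𝓞 (fld (pt n μ)) :=
  if h : μ i ∈ fld (pt n μ) ∧ IsIntegral ℤ (μ i) then ⟨⟨μ i, h.1⟩, int_sub h.1 h.2⟩ else 0

theorem mu'_eq (hint : ∀ i < n, IsIntegral ℤ (μ i)) (h0 : ∀ i < n, μ i ≠ 0) (i : ℕ) (hi : i < n) :
    ((mu' n μ i : fld (pt n μ)) : AlgebraicClosure k) = μ i := by
  unfold mu'
  rw [dif_pos ⟨mem_fld_pt h0 i hi, hint i hi⟩]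
  rfl

theorem pp_eq (hint : ∀ i < n, IsIntegral ℤ (μ i)) (h0 : ∀ i < n, μ i ≠ 0) (j : ℕ) (hj : j ≤ n) :
    (((PP (mu' n μ) j : 𝓞 (fld (pt n μ))) : fld (pt n μ)) : AlgebraicClosure k) = PP μ j := by
  unfold PP
  push_cast
  apply Finset.prod_congr rfl
  intro i hi
  exact mu'_eq hint h0 i (lt_of_lt_of_le (Finset.mem_range.mp hi) hj)

theorem zz_eq (hint : ∀ i < n, IsIntegral ℤ (μ i)) (h0 : ∀ i < n, μ i ≠ 0) (j : ℕ) (hj : j ≤ n) :
    (((zz (mu' n μ) j : 𝓞 (fld (pt n μ))) : fld (pt n μ)) : AlgebraicClosure k) = zz μ j := by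
  cases j with
  | zero => simp [zz]
  | succ j =>
    show (((PP (mu' n μ) j * (mu' n μ j - 1) : 𝓞 (fld (pt n μ))) : fld (pt n μ)) : AlgebraicClosure k) =
      PP μ j * (μ j - 1)
    have h1 := pp_eq hint h0 j (by omega)
    have h2 := mu'_eq hint h0 j (by omega)
    push_cast
    rw [h2]
    congr 1

theorem crd_pt (hint : ∀ i < n, IsIntegral ℤ (μ i)) (h0 : ∀ i < n, μ i ≠ 0) :
    crd (pt n μ) = fun i : Fin (n + 1) => ((zz (mu' n μ) i : 𝓞 (fld (pt n μ))) : fld (pt n μ)) := by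
  funext i
  apply Subtype.ext
  rw [zz_eq hint h0 i (by omega)]
  refine Fin.cases ?_ (fun j => ?_) i
  · rfl
  · rfl

/-- The basic inequality. -/
theorem point_ineq (S : Finset (Pl k)) (hS : ∀ v : InfinitePlace k, Sum.inl v ∈ S)
    (hint : ∀ i < n, IsIntegral ℤ (μ i)) (h0 : ∀ i < n, μ i ≠ 0) (h1 : ∀ i < n, μ i - 1 ≠ 0)
    (c : ℝ) (hc : 0 < c) (hloc : ∀ φ : AlgebraicClosure k →+* ℂ, ∃ j ≤ n,
      c * ∏ i ∈ Finset.range n, max 1 ‖φ (μ i)‖ ≤ ∏ i ∈ Finset.range j, ‖φ (μ i)‖)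
    (a b : ℕ → ℝ) (ha : ∀ i < n, ln (mu' n μ i) ≤ finrank ℚ (fld (pt n μ)) * a i)
    (hb : ∀ i < n, ln (mu' n μ i - 1) ≤ finrank ℚ (fld (pt n μ)) * b i) :
    (∀ i, crd (pt n μ) i ≠ 0) ∧ ∑ i, crd (pt n μ) i ≠ 0 ∧
    finrank ℚ k * (∑ i ∈ Finset.range n, H (μ i) + (Real.log c - 2 * Real.log (n + 2))) ≤ hgt (pt n μ) ∧
    (n + 2) * hgt (pt n μ) - finrank ℚ k * ((n + 1) * ∑ i ∈ Finset.range n, a i + ∑ i ∈ Finset.range n, b i) ≤
      lam (Std k n) S (pt n μ) := by
  have hm0 : ∀ i < n, mu' n μ i ≠ 0 := by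
    intro i hi h
    apply h0 i hi
    rw [← mu'_eq hint h0 i hi, h]
    simp
  have hm1 : ∀ i < n, mu' n μ i - 1 ≠ 0 := by
    intro i hi h
    apply h1 i hi
    rw [← mu'_eq hint h0 i hi, sub_eq_zero.mp h]
    simp
  have hcrd := crd_pt hint h0
  have hk := finrank_pos' k
  have hdg := dg_pos (pt n μ)
  have hfr := finrank_eq_dg (pt n μ)
  have hP : ∀ j ≤ n, PP (mu' n μ) j ≠ 0 := by
    intro j hj
    unfold PP
    rw [Finset.prod_ne_zero_iff]
    intro i hi
    exact hm0 i (lt_of_lt_of_le (Finset.mem_range.mp hi) hj)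
  have hz : ∀ i ≤ n, zz (mu' n μ) i ≠ 0 := by
    intro i hi
    cases i with
    | zero => exact one_ne_zero
    | succ j => exact mul_ne_zero (hP j (by omega)) (hm1 j (by omega))
  have hzc : ∀ i, crd (pt n μ) i ≠ 0 := by
    intro i
    rw [hcrd]
    exact RingOfIntegers.coe_ne_zero_iff.mpr (hz i (by omega))
  have hsum : ∑ i, crd (pt n μ) i = ((PP (mu' n μ) n : 𝓞 (fld (pt n μ))) : fld (pt n μ)) := by
    rw [hcrd, ← sum_zz]
    push_cast
    exact Fin.sum_univ_eq_sum_range (fun i => ((zz (mu' n μ) i : 𝓞 (fld (pt n μ))) : fld (pt n μ))) (n + 1)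
  refine ⟨hzc, ?_, ?_, ?_⟩
  · rw [hsum]
    exact RingOfIntegers.coe_ne_zero_iff.mpr (hP n le_rfl)
  · have h2 := height_ge n (mu' n μ) c hc hm0 (by
      intro w
      obtain ⟨φ, hφ⟩ := ext_emb (fld (pt n μ)) w.embedding
      obtain ⟨j, hj, h3⟩ := hloc φ
      refine ⟨j, hj, ?_⟩
      have h4 : ∀ i < n, w (mu' n μ i : fld (pt n μ)) = ‖φ (μ i)‖ := by
        intro i hi
        rw [← InfinitePlace.norm_embedding_eq, ← hφ, mu'_eq hint h0 i hi]
      rw [Finset.prod_congr rfl fun i hi => by rw [h4 i (Finset.mem_range.mp hi)],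
        Finset.prod_congr (s₁ := Finset.range j) rfl fun i hi =>
          h4 i (lt_of_lt_of_le (Finset.mem_range.mp hi) hj)]
      exact h3)
    rw [← hcrd] at h2
    have h3 : ∑ i ∈ Finset.range n, logHeight₁ (mu' n μ i : fld (pt n μ)) =
        finrank ℚ (fld (pt n μ)) * ∑ i ∈ Finset.range n, H (μ i) := by
      rw [Finset.mul_sum]
      apply Finset.sum_congr rfl
      intro i hi
      have h4 := H_eq (fld (pt n μ)) (mu' n μ i : fld (pt n μ))
      rw [mu'_eq hint h0 i (Finset.mem_range.mp hi)] at h4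
      rw [← h4]
      unfold nh
      rw [mul_div_cancel₀ _ (finrank_pos' _).ne']
    rw [h3, hfr] at h2
    unfold hgt
    rw [le_div_iff₀ hdg]
    linarith
  · have h2 := weil_zz n S hS (mu' n μ) hm0 hm1
    rw [← hcrd] at h2
    have h3 : ∑ i ∈ Finset.range n, ln (mu' n μ i) ≤ finrank ℚ (fld (pt n μ)) * ∑ i ∈ Finset.range n, a i := by
      rw [Finset.mul_sum]
      exact Finset.sum_le_sum fun i hi => ha i (Finset.mem_range.mp hi)
    have h4 : ∑ i ∈ Finset.range n, ln (mu' n μ i - 1) ≤ finrank ℚ (fld (pt n μ)) * ∑ i ∈ Finset.range n, b i := by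
      rw [Finset.mul_sum]
      exact Finset.sum_le_sum fun i hi => hb i (Finset.mem_range.mp hi)
    have h5 : (0 : ℝ) ≤ n + 1 := by positivity
    have h6 := mul_le_mul_of_nonneg_left h3 h5
    rw [lam_std, le_div_iff₀ hdg]
    have h7 : hgt (pt n μ) * dg (pt n μ) = logHeight (crd (pt n μ)) := by
      unfold hgt
      rw [div_mul_cancel₀ _ hdg.ne']
    rw [hfr] at h4 h6
    have h8 : ∀ w : Pl (fld (pt n μ)), ∑ i : Fin (n + 1), (Real.log (sn w (crd (pt n μ))) -
        Real.log (nv w ((zz (mu' n μ) i : 𝓞 (fld (pt n μ))) : fld (pt n μ)))) =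
        ∑ i : Fin (n + 1), (Real.log (sn w (crd (pt n μ))) - Real.log (nv w (crd (pt n μ) i))) := by
      intro w
      rw [hcrd]
    simp only [h8] at h2
    refine le_trans ?_ h2
    have h10 : ((n + 2) * hgt (pt n μ) - finrank ℚ k * ((n + 1) * ∑ i ∈ Finset.range n, a i +
        ∑ i ∈ Finset.range n, b i)) * dg (pt n μ) = (n + 2) * (hgt (pt n μ) * dg (pt n μ)) -
        ((n + 1) * (finrank ℚ k * dg (pt n μ) * ∑ i ∈ Finset.range n, a i) +
        finrank ℚ k * dg (pt n μ) * ∑ i ∈ Finset.range n, b i) := by ring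
    rw [h10, h7]
    linarith

end pt

end Pool.Agent.Helper64.VZ
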