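import Mathlib
import Pool.Agent.Helper64.VZ.Exist
import Pool.Agent.Helper77.VE.Dens
import Pool.Agent.Helper61.VP.LocalMax

/-!
Points from the tower.
-/

set_option autoImplicit false

namespace Pool.Agent.Helper64.VZ

open NumberField IntermediateField Module Height Pool.Agent.Helper64.Vojta

universe u

variable {k : Type u} [Field k] [NumberField k]

theorem exists_emb (k : Type u) [Field k] [NumberField k] : Nonempty (AlgebraicClosure k →+* ℂ) := by
  have h1 : Algebra.IsAlgebraic ℚ (AlgebraicClosure k) := Algebra.IsAlgebraic.trans ℚ k (AlgebraicClosure k)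
  let ψ : AlgebraicClosure k →ₐ[ℚ] ℂ := IsAlgClosed.lift
  exact ⟨ψ⟩

theorem tower_points (n s : ℕ) (hs : 0 < s) (G : MvPolynomial (Fin n) (AlgebraicClosure k))
    (hG : G ≠ 0) (hdeg : ∀ j, G.degreeOf j < 2 ^ s) :
    ∃ c₁ c : ℝ, 0 < c ∧ ∀ R : ℝ, ∃ (μ : ℕ → AlgebraicClosure k) (T : ℝ), R ≤ T ∧
      (∀ i, IsIntegral ℤ (μ i)) ∧ (∀ i, ∃ b, IsIntegral ℤ b ∧ μ i * b = 16) ∧
      (∀ i, ∃ u, IsIntegral ℤ u ∧ (μ i - 1) * u = 1) ∧ (∀ i < n, T - c₁ ≤ H (μ i)) ∧
      (∃ E : IntermediateField k (AlgebraicClosure k), (∀ i < n, μ i ∈ E) ∧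
        Bd E (2 ^ ((n - 1) * s + 2)) (T + c₁)) ∧
      (∀ φ : AlgebraicClosure k →+* ℂ, ∃ j ≤ n, c * ∏ i ∈ Finset.range n, max 1 ‖φ (μ i)‖ ≤
        ∏ i ∈ Finset.range j, ‖φ (μ i)‖) ∧
      MvPolynomial.eval (fun j : Fin n => 1 - μ j) G ≠ 0 := by
  obtain ⟨σ⟩ := exists_emb k
  obtain ⟨E₀, c₀, h₀, hh₀, hE₀, hdata⟩ := exists_data σ
  -- the local constant
  obtain ⟨c, hc, hloc⟩ := Pool.Agent.Helper61.VP.local_max n (fun i : Fin n => (i : ℕ) * s) (by
    intro i j hij
    exact Nat.mul_lt_mul_of_pos_right hij hs)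
  -- density
  have hGσ : G.map σ ≠ 0 := by
    intro h
    apply hG
    apply MvPolynomial.map_injective σ σ.injective
    rw [h, map_zero]
  obtain ⟨T₀, hT₀⟩ := Helper77.VE.dens n s (G.map σ) hGσ fun j => by
    refine lt_of_le_of_lt ?_ (hdeg j)
    rw [MvPolynomial.degreeOf_le_iff]
    intro e he
    exact MvPolynomial.monomial_le_degreeOf j (MvPolynomial.support_map_subset σ G he)
  have hl2 : 0 < Real.log 2 := Real.log_pos (by norm_num)
  have hl8 : 0 < Real.log 8 := Real.log_pos (by norm_num)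
  have hl5 : 0 < Real.log 5 := Real.log_pos (by norm_num)
  set c₁ : ℝ := (7 * (n * s) + 5) * Real.log 2 + (|c₀| + Real.log 5 / 2 + (n * s) * Real.log 8) with hc₁
  refine ⟨c₁, c, hc, fun R => ?_⟩
  -- choose N
  obtain ⟨N₁, hN₁⟩ := exists_nat_gt (2 * R / h₀)
  have hs1 : 1 < 1 + Real.sqrt 2 := by
    have : 0 < Real.sqrt 2 := Real.sqrt_pos.mpr (by norm_num)
    linarith
  obtain ⟨N₂, hN₂⟩ := pow_unbounded_of_one_lt T₀ hs1
  set N := max N₁ N₂ with hN
  obtain ⟨t, u, κ, m, K, hti, hui, htu, h4, htE, hHt, htw, hσ, hK0, hKs, hKr⟩ := hdata N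
  have hg := htw.good hti hui htu
  have hT : T₀ < (1 + Real.sqrt 2) ^ N :=
    lt_of_lt_of_le hN₂ (pow_le_pow_right₀ hs1.le (le_max_right _ _))
  refine ⟨fun i => κ (i * s) ^ 2, H t / 2, ?_, fun i => (hg _).int.pow 2, ?_, ?_, ?_, ?_, ?_, ?_⟩
  · rw [hHt]
    have h1 : (N₁ : ℝ) ≤ N := by exact_mod_cast le_max_left _ _
    rw [div_lt_iff₀ hh₀] at hN₁
    have h2 := mul_le_mul_of_nonneg_right h1 hh₀.le
    linarith
  · intro i
    obtain ⟨b, hb1, hb2⟩ := (hg (i * s)).div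
    refine ⟨b ^ 2, hb1.pow 2, ?_⟩
    rw [← mul_pow, hb2]
    norm_num
  · intro i
    obtain ⟨v, hv1, hv2⟩ := (hg (i * s)).unit
    refine ⟨-v, hv1.neg, ?_⟩
    linear_combination hv2
  · intro i hi
    have h1 := htw.height hti hui htu (i * s)
    have h2 : ((i * s : ℕ) : ℝ) ≤ n * s := by
      push_cast
      exact mul_le_mul_of_nonneg_right (by exact_mod_cast hi.le) (Nat.cast_nonneg s)
    have h3 : (0 : ℝ) ≤ |c₀| + Real.log 5 / 2 + (n * s) * Real.log 8 := by positivity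
    have h5 : (7 * ((i * s : ℕ) : ℝ) + 7 / 2) * Real.log 2 ≤ (7 * (n * s) + 5) * Real.log 2 := by
      apply mul_le_mul_of_nonneg_right _ hl2.le
      linarith
    linarith
  · obtain ⟨⟨E, hE, hκE, hb⟩, -⟩ := htw.fields hti hui htu h4 hE₀ htE ((n - 1) * s)
    refine ⟨E, ?_, hb.mono (le_of_eq (by ring)) ?_⟩
    · intro i hi
      apply hκE
      apply Nat.mul_le_mul_right
      omega
    · have h1 : (((n - 1) * s : ℕ) : ℝ) ≤ n * s := by
        push_cast
        apply mul_le_mul_of_nonneg_right _ (Nat.cast_nonneg s)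
        exact_mod_cast Nat.sub_le n 1
      have h2 := mul_le_mul_of_nonneg_right h1 hl8.le
      have h3 := le_abs_self c₀
      have h5 : (0 : ℝ) ≤ (7 * (n * s) + 5) * Real.log 2 := by positivity
      linarith
  · intro φ
    obtain ⟨j, hj⟩ := hloc (fun i => φ (κ i)) (fun i => φ (m i)) (fun i => by
      rw [← map_pow, htw.root]) (fun i => by
      rw [← map_one φ, ← map_add, ← map_mul, htw.step, map_mul, map_ofNat]) (fun i h => by
      apply (hg i).one_add
      rw [← map_one φ, ← map_add] at h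
      exact (map_eq_zero φ).mp h)
    refine ⟨j, by omega, ?_⟩
    have e1 : ∏ i ∈ Finset.range n, max 1 ‖φ (κ (i * s) ^ 2)‖ =
        ∏ i : Fin n, max 1 (‖φ (κ ((i : ℕ) * s))‖ ^ 2) := by
      rw [← Fin.prod_univ_eq_prod_range (fun i => max 1 ‖φ (κ (i * s) ^ 2)‖) n]
      exact Finset.prod_congr rfl fun i _ => by rw [map_pow, norm_pow]
    have e2 : ∏ i ∈ Finset.range j, ‖φ (κ (i * s) ^ 2)‖ =
        ∏ i ∈ Finset.univ.filter (fun i : Fin n => (i : ℕ) < j), ‖φ (κ ((i : ℕ) * s))‖ ^ 2 := by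
      rw [Finset.prod_filter]
      rw [Fin.prod_univ_eq_prod_range (fun i => if i < (j : ℕ) then ‖φ (κ (i * s))‖ ^ 2 else 1) n]
      rw [← Finset.prod_filter]
      apply Finset.prod_congr
      · ext i
        simp only [Finset.mem_range, Finset.mem_filter]
        omega
      · intro i _
        rw [map_pow, norm_pow]
    rw [e1, e2]
    exact hj
  · have h1 := hT₀ _ hT K hK0 hKs hKr
    intro h2
    apply h1
    have h3 := congrArg σ h2
    rw [map_zero, ← MvPolynomial.eval₂_id, MvPolynomial.eval₂_comp_left σ (RingHom.id _) (fun j : Fin n => 1 - κ ((j : ℕ) * s) ^ 2) G] at h3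
    rw [MvPolynomial.eval_map]
    rw [← h3]
    congr 1
    funext j
    simp only [Function.comp_apply, map_sub, map_one, map_pow, hσ]
    push_cast
    rfl

end Pool.Agent.Helper64.VZ
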