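import Mathlib
import Pool.Agent.Helper64.VZ.TPoints
import Pool.Agent.Helper64.VZ.Point
import Pool.Agent.Helper77.VE.Subst

/-!
Part (I) for the standard hyperplanes.
-/

set_option autoImplicit false

namespace Pool.Agent.Helper64.VZ

open NumberField IntermediateField Module Height Pool.Agent.Helper64.Vojta Pool.Agent.VZ

universe u

variable {k : Type u} [Field k] [NumberField k]

omit [NumberField k] in
/-- the coordinates in helper77's form -/
theorem pt_eq_xx (n : ℕ) (μ : ℕ → AlgebraicClosure k) :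
    pt n μ = fun j : Fin n => Helper77.VE.xx n (fun j : Fin n => 1 - μ j) j.castSucc := by
  funext j
  rw [Helper77.VE.xx_castSucc]
  show PP μ j * (μ j - 1) = _
  congr 1
  · unfold PP
    rw [Finset.prod_filter, Fin.prod_univ_eq_prod_range (fun i => if i < (j : ℕ) then 1 - (1 - μ i) else 1) n,
      ← Finset.prod_filter]
    apply Finset.prod_congr
    · ext i
      simp only [Finset.mem_range, Finset.mem_filter]
      omega
    · intro i _
      ring
  · ring

/-- consequences of the basic inequality -/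
theorem violates_of {n : ℕ} (S : Finset (Pl k)) (hS : ∀ v : InfinitePlace k, Sum.inl v ∈ S) (μ : ℕ → AlgebraicClosure k)
    (hint : ∀ i < n, IsIntegral ℤ (μ i)) (h0 : ∀ i < n, μ i ≠ 0) (h1 : ∀ i < n, μ i - 1 ≠ 0)
    (c : ℝ) (hc : 0 < c) (hloc : ∀ φ : AlgebraicClosure k →+* ℂ, ∃ j ≤ n,
      c * ∏ i ∈ Finset.range n, max 1 ‖φ (μ i)‖ ≤ ∏ i ∈ Finset.range j, ‖φ (μ i)‖)
    (a b : ℕ → ℝ) (ha : ∀ i < n, ln (mu' n μ i) ≤ finrank ℚ (fld (pt n μ)) * a i)
    (hb : ∀ i < n, ln (mu' n μ i - 1) ≤ finrank ℚ (fld (pt n μ)) * b i)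
    (E : IntermediateField k (AlgebraicClosure k)) (hE : ∀ i < n, μ i ∈ E) (r : ℕ) (T : ℝ) (hbd : Bd E r T)
    (α ε C : ℝ) (hα : 0 ≤ α) (hε : ε ≤ 1)
    (G : MvPolynomial (Fin n) (AlgebraicClosure k)) (hG : MvPolynomial.eval (pt n μ) G ≠ 0)
    (hmain : C < finrank ℚ k * ((1 - ε) * (∑ i ∈ Finset.range n, H (μ i) + (Real.log c - 2 * Real.log (n + 2))) -
      ((n + 1) * ∑ i ∈ Finset.range n, a i + ∑ i ∈ Finset.range n, b i) - α * (T - rd k))) :
    dg (pt n μ) ≤ r ∧ Violates S (Std k n) G α ε C (pt n μ) := by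
  obtain ⟨h2, h3, h4, h5⟩ := point_ineq S hS hint h0 h1 c hc hloc a b ha hb
  obtain ⟨_, hdeg, hrd⟩ := hbd.sub (fld_pt_le E hE)
  refine ⟨hdeg, hG, std_ne _ h2 h3, ?_⟩
  have hk := finrank_pos' k
  have h6 : dk (pt n μ) ≤ finrank ℚ k * (T - rd k) := by
    rw [dk_eq]
    exact mul_le_mul_of_nonneg_left (by linarith) hk.le
  have h7 := mul_le_mul_of_nonneg_left h6 hα
  have h8 := mul_le_mul_of_nonneg_left h4 (sub_nonneg.mpr hε)
  have h9 : -((n + 1) * hgt (pt n μ)) + ((n + 2) * hgt (pt n μ)) = hgt (pt n μ) := by ring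
  nlinarith

/-- Part (I) for the standard hyperplanes. -/
theorem std_I (S : Finset (Pl k)) (hS : ∀ v : InfinitePlace k, Sum.inl v ∈ S) (n : ℕ) (hn : 0 < n) (α ε : ℝ)
    (hα : 0 ≤ α) (hαε : α < (1 - ε) * n) (G : MvPolynomial (Fin n) (AlgebraicClosure k)) (hG : G ≠ 0)
    (s : ℕ) (hs0 : 0 < s) (hs : G.totalDegree < 2 ^ s) (C : ℝ) :
    ∃ y, dg y ≤ 2 ^ ((n - 1) * s + 2) ∧ Violates S (Std k n) G α ε C y := by
  obtain ⟨G', hG', hdeg, hev⟩ := Helper77.VE.subst' n G hG
  obtain ⟨c₁, c, hc, hpts⟩ := tower_points n s hs0 G' hG' fun j => lt_of_le_of_lt (hdeg j) hs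
  have hk := finrank_pos' k
  have hn' : (0 : ℝ) < n := by exact_mod_cast hn
  have h1ε : 0 < 1 - ε := by
    by_contra h
    push Not at h
    have := mul_nonpos_of_nonpos_of_nonneg h hn'.le
    linarith
  -- choose T
  set A : ℝ := (1 - ε) * n - α with hA
  have hA0 : 0 < A := by rw [hA]; linarith
  set B : ℝ := (1 - ε) * (n * c₁ - (Real.log c - 2 * Real.log (n + 2))) + ((n + 1) * (n * Real.log 16)) +
    α * (c₁ - rd k) with hB
  obtain ⟨μ, T, hT, hint, h16, hunit, hH, ⟨E, hE, hbd⟩, hloc, hne⟩ := hpts ((|C / finrank ℚ k| + |B| + 1) / A)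
  refine ⟨pt n μ, ?_⟩
  have h0 : ∀ i < n, μ i ≠ 0 := by
    intro i _ h
    obtain ⟨b, -, hb⟩ := h16 i
    rw [h, zero_mul] at hb
    have h4 : (16 : AlgebraicClosure k) ≠ 0 := by norm_num
    exact h4 hb.symm
  have h1 : ∀ i < n, μ i - 1 ≠ 0 := by
    intro i _ h
    obtain ⟨b, -, hb⟩ := hunit i
    rw [h, zero_mul] at hb
    exact zero_ne_one hb
  apply violates_of S hS μ (fun i _ => hint i) h0 h1 c hc hloc (fun _ => Real.log 16) (fun _ => 0) ?_ ?_ E hE _ _ hbd
    α ε C hα (by linarith) G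
  · rw [pt_eq_xx, ← hev]
    exact hne
  · rw [Finset.sum_const, Finset.card_range, Finset.sum_const, nsmul_eq_mul, smul_zero, add_zero]
    have h2 : n * (T - c₁) ≤ ∑ i ∈ Finset.range n, H (μ i) := by
      calc n * (T - c₁) = ∑ i ∈ Finset.range n, (T - c₁) := by rw [Finset.sum_const, Finset.card_range, nsmul_eq_mul]
        _ ≤ _ := Finset.sum_le_sum fun i hi => hH i (Finset.mem_range.mp hi)
    have h3 : |C / finrank ℚ k| + |B| + 1 ≤ A * T := by
      rw [div_le_iff₀ hA0] at hT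
      linarith
    have h4 := le_abs_self (C / finrank ℚ k)
    have h5 := le_abs_self B
    have h6 : C / finrank ℚ k < A * T - B := by linarith
    rw [div_lt_iff₀ hk] at h6
    refine lt_of_lt_of_le h6 ?_
    rw [mul_comm]
    apply mul_le_mul_of_nonneg_left _ hk.le
    have h7 := mul_le_mul_of_nonneg_left h2 h1ε.le
    rw [hA, hB]
    nlinarith
  · intro i hi
    obtain ⟨b, hb1, hb2⟩ := h16 i
    have := ln_dvd (fld (pt n μ)) (mu' n μ i) 16 (by norm_num) b hb1 (by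
      rw [mu'_eq (fun i _ => hint i) h0 i hi, hb2]
      norm_num)
    push_cast at this
    exact this
  · intro i hi
    obtain ⟨b, hb1, hb2⟩ := hunit i
    have := ln_dvd (fld (pt n μ)) (mu' n μ i - 1) 1 one_ne_zero b hb1 (by
      push_cast
      rw [mu'_eq (fun i _ => hint i) h0 i hi, hb2])
    simpa using this

end Pool.Agent.Helper64.VZ
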