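import Mathlib
import Pool.Agent.Helper64.VZ.StdI

/-!
Families of points of `P^n` used for the lifting to hypersurfaces.
-/

set_option autoImplicit false

namespace Pool.Agent.Helper64.VZ

open NumberField IntermediateField Module Height Pool.Agent.Helper64.Vojta Pool.Agent.VZ

universe u

variable {k : Type u} [Field k] [NumberField k]

/-- Points `x` with integral coordinates, `x_j` and `1 + ∑ x_j` divisors of `B`, of degree at most `r` with
`log (root discriminant) ≤ T + c₁`, height at least `ν T - c₁`, outside `G = 0`. -/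
def Fam (n : ℕ) (ν : ℝ) (r : ℕ) (G : MvPolynomial (Fin n) (AlgebraicClosure k)) : Prop :=
  ∃ (B : ℕ) (c₁ : ℝ), B ≠ 0 ∧ ∀ R : ℝ, ∃ (x : Fin n → AlgebraicClosure k) (T : ℝ), R ≤ T ∧
    (∀ j, IsIntegral ℤ (x j)) ∧ (∀ j, ∃ b, IsIntegral ℤ b ∧ x j * b = B) ∧
    (∃ b, IsIntegral ℤ b ∧ (1 + ∑ j, x j) * b = B) ∧
    (∃ E : IntermediateField k (AlgebraicClosure k), (∀ j, x j ∈ E) ∧ Bd E r (T + c₁)) ∧
    finrank ℚ k * (ν * T - c₁) ≤ hgt x ∧ MvPolynomial.eval x G ≠ 0

end Pool.Agent.Helper64.VZ
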