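import Mathlib
import Pool.Agent.Helper64.VZ.Fam

/-!
The tower points as a family.
-/

set_option autoImplicit false

namespace Pool.Agent.Helper64.VZ

open NumberField IntermediateField Module Height Pool.Agent.Helper64.Vojta Pool.Agent.VZ

universe u

variable {k : Type u} [Field k] [NumberField k]

/-- the tower points -/
theorem fam_n (n : ℕ) (s : ℕ) (hs0 : 0 < s) (G : MvPolynomial (Fin n) (AlgebraicClosure k))
    (hG : G ≠ 0) (hs : G.totalDegree < 2 ^ s) : Fam n n (2 ^ ((n - 1) * s + 2)) G := by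
  classical
  obtain ⟨G', hG', hdeg, hev⟩ := Helper77.VE.subst' n G hG
  obtain ⟨c₁, c, hc, hpts⟩ := tower_points n s hs0 G' hG' fun j => lt_of_le_of_lt (hdeg j) hs
  have hk := finrank_pos' k
  set K : ℝ := n * c₁ - (Real.log c - 2 * Real.log (n + 2)) with hK
  refine ⟨16 ^ n, |c₁| + |K|, by positivity, fun R => ?_⟩
  obtain ⟨μ, T, hT, hint, h16, hunit, hH, ⟨E, hE, hbd⟩, hloc, hne⟩ := hpts R
  have h0 : ∀ i < n, μ i ≠ 0 := by
    intro i _ h
    obtain ⟨b, -, hb⟩ := h16 i
    rw [h, zero_mul] at hb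
    have h4 : (16 : AlgebraicClosure k) ≠ 0 := by norm_num
    exact h4 hb.symm
  have h1 : ∀ i < n, μ i - 1 ≠ 0 := by
    intro i _ h
    obtain ⟨b, -, hb⟩ := hunit i
    rw [h, zero_mul] at hb
    exact zero_ne_one hb
  have hPint : ∀ j, IsIntegral ℤ (PP μ j) := by
    intro j
    unfold PP
    exact IsIntegral.prod _ fun i _ => hint i
  have hPdvd : ∀ j ≤ n, ∃ b, IsIntegral ℤ b ∧ PP μ j * b = 16 ^ n := by
    intro j hj
    have h2 : ∃ b, IsIntegral ℤ b ∧ PP μ j * b = 16 ^ j := by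
      clear hj
      induction j with
      | zero => exact ⟨1, isIntegral_one, by simp [PP]⟩
      | succ j ih =>
        obtain ⟨b, hb1, hb2⟩ := ih
        obtain ⟨b', hb1', hb2'⟩ := h16 j
        refine ⟨b * b', hb1.mul hb1', ?_⟩
        have e : PP μ (j + 1) = PP μ j * μ j := by
          unfold PP
          rw [Finset.prod_range_succ]
        rw [e, pow_succ, ← hb2, ← hb2']
        ring
    obtain ⟨b, hb1, hb2⟩ := h2
    have h16i : IsIntegral ℤ (16 : AlgebraicClosure k) := by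
      have := isIntegral_algebraMap (R := ℤ) (A := AlgebraicClosure k) (x := 16)
      simpa using this
    refine ⟨b * 16 ^ (n - j), hb1.mul (h16i.pow _), ?_⟩
    rw [← mul_assoc, hb2, ← pow_add]
    congr 1
    omega
  have hcast : ((16 ^ n : ℕ) : AlgebraicClosure k) = 16 ^ n := by push_cast; rfl
  refine ⟨pt n μ, T, hT, fun j => ?_, fun j => ?_, ?_, ⟨E, fun j => ?_, ?_⟩, ?_, ?_⟩
  · show IsIntegral ℤ (PP μ j * (μ j - 1))
    exact (hPint j).mul ((hint j).sub isIntegral_one)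
  · obtain ⟨b, hb1, hb2⟩ := hPdvd j (by omega)
    obtain ⟨v, hv1, hv2⟩ := hunit j
    refine ⟨v * b, hv1.mul hb1, ?_⟩
    show PP μ j * (μ j - 1) * (v * b) = _
    rw [hcast, ← hb2]
    linear_combination (PP μ j * b) * hv2
  · obtain ⟨b, hb1, hb2⟩ := hPdvd n le_rfl
    refine ⟨b, hb1, ?_⟩
    have h2 := sum_zz μ n
    rw [Finset.sum_range_succ', add_comm] at h2
    have h3 : ∑ j : Fin n, pt n μ j = ∑ i ∈ Finset.range n, zz μ (i + 1) :=
      Fin.sum_univ_eq_sum_range (fun i => zz μ (i + 1)) n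
    rw [h3]
    have h4 : zz μ 0 = 1 := rfl
    rw [h4] at h2
    rw [h2, hb2, hcast]
  · show PP μ j * (μ j - 1) ∈ E
    exact E.mul_mem (pp_mem E hE j j.2.le) (E.sub_mem (hE j j.2) E.one_mem)
  · refine hbd.mono le_rfl ?_
    have h2 := le_abs_self c₁
    have h3 := abs_nonneg K
    linarith
  · have hfr := finrank_pos' (fld (pt n μ))
    obtain ⟨-, -, h4, -⟩ := point_ineq (Finset.univ.map ⟨Sum.inl, Sum.inl_injective⟩ : Finset (Pl k))
      (fun v => Finset.mem_map.mpr ⟨v, Finset.mem_univ _, rfl⟩) (fun i _ => hint i) h0 h1 c hc hloc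
      (fun i => ln (mu' n μ i) / finrank ℚ (fld (pt n μ))) (fun i => ln (mu' n μ i - 1) / finrank ℚ (fld (pt n μ)))
      (fun i _ => by rw [mul_div_cancel₀ _ hfr.ne']) (fun i _ => by rw [mul_div_cancel₀ _ hfr.ne'])
    refine le_trans ?_ h4
    apply mul_le_mul_of_nonneg_left _ hk.le
    have h6 : n * (T - c₁) ≤ ∑ i ∈ Finset.range n, H (μ i) := by
      calc n * (T - c₁) = ∑ i ∈ Finset.range n, (T - c₁) := by rw [Finset.sum_const, Finset.card_range, nsmul_eq_mul]
        _ ≤ _ := Finset.sum_le_sum fun i hi => hH i (Finset.mem_range.mp hi)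
    have h2 := le_abs_self K
    have h3 := abs_nonneg c₁
    rw [hK] at h2
    linarith
  · rw [pt_eq_xx, ← hev]
    exact hne

end Pool.Agent.Helper64.VZ
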