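import Mathlib
import Pool.Agent.Helper64.VZ.Defs

/-!
Hypersurfaces of `P^(n+1)` and their sections by `n + 2` hyperplanes through a point.
-/

set_option autoImplicit false

namespace Pool.Agent.VZ

open NumberField IntermediateField Pool.Agent.Helper64.Vojta

universe u

/-- The forms `X_0, …, X_n` and `X_0 + … + X_n` on `P^(n+1)`. -/
def Sec (k : Type u) [Field k] (n : ℕ) : Fin (n + 2) → Fin (n + 2) → k :=
  fun i j => if (j : ℕ) ≤ n ∧ ((i : ℕ) = n + 1 ∨ (i : ℕ) = (j : ℕ)) then 1 else 0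

/-- The point of `P^(n+1)` is on the hypersurface `F = 0` of degree `m`, not on the hyperplanes `D` of `Sec k n` and
not on `G = 0`, and `h_K(y) + ∑_{ν ∈ S} λ_D(y,ν) > ε h(y) + α d_k(y) + C`, where `h_K = (m - n - 2) h`. -/
def ViolatesOn {k : Type u} [Field k] [NumberField k] {n : ℕ} (S : Finset (Pl k)) (m : ℕ)
    (F : MvPolynomial (Fin (n + 1)) k) (G : MvPolynomial (Fin (n + 1)) (AlgebraicClosure k)) (α ε C : ℝ)
    (y : Fin (n + 1) → AlgebraicClosure k) : Prop :=
  MvPolynomial.aeval y F = 0 ∧ MvPolynomial.eval y G ≠ 0 ∧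
    (∀ i, ∑ j, algebraMap k (fld y) (Sec k n i j) * crd y j ≠ 0) ∧
    ε * hgt y + α * dk y + C < (m - n - 2) * hgt y + lam (Sec k n) S y

end Pool.Agent.VZ
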