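import Mathlib
import Pool.Agent.Helper64.VZ.StdI

/-!
Part (II) for the standard hyperplanes.
-/

set_option autoImplicit false

namespace Pool.Agent.Helper64.VZ

open NumberField IntermediateField Module Height Pool.Agent.Helper64.Vojta Pool.Agent.VZ

universe u

variable {k : Type u} [Field k] [NumberField k]

/-- norm of `l ^ m - 1` for a unit `l` such that `l - 1` is a unit -/
theorem ln_pow_sub_one {L : Type*} [Field L] [NumberField L] (l : 𝓞 L) (h1 : ln (l - 1) = 0) (m : ℕ)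
    (hm : 0 < m) (hne : l ^ m - 1 ≠ 0) :
    ln (l ^ m - 1) ≤ finrank ℚ L * ((m - 1) * nh (l : L) + Real.log m) := by
  have e1 : l ^ m - 1 = (∑ j ∈ Finset.range m, l ^ j) * (l - 1) := (geom_sum_mul l m).symm
  have hQ : (∑ j ∈ Finset.range m, l ^ j) ≠ 0 := by
    intro h
    rw [h, zero_mul] at e1
    exact hne e1
  have hl : l - 1 ≠ 0 := by
    intro h
    rw [h, mul_zero] at e1
    exact hne e1
  rw [e1, ln_mul _ _ hQ hl, h1, add_zero]
  set Q : 𝓞 L := ∑ j ∈ Finset.range m, l ^ j with hQd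
  have e2 : ln Q = ∑ w : InfinitePlace L, Real.log (nv (.inl w) (Q : L)) := log_norm_eq Q hQ
  have hm' : (0 : ℝ) < m := by exact_mod_cast hm
  have hm1 : (0 : ℝ) ≤ (m : ℝ) - 1 := by
    have : (1 : ℝ) ≤ m := by exact_mod_cast hm
    linarith
  have e3 : ∀ w : InfinitePlace L, Real.log (nv (.inl w) (Q : L)) ≤
      w.mult * Real.log m + (m - 1) * (w.mult * Real.posLog (w (l : L))) := by
    intro w
    have hQL : (Q : L) ≠ 0 := RingOfIntegers.coe_ne_zero_iff.mpr hQ
    have h2 : w (Q : L) ≤ m * (max 1 (w (l : L))) ^ (m - 1) := by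
      have h3 : (Q : L) = ∑ j ∈ Finset.range m, (l : L) ^ j := by
        rw [hQd]
        push_cast
        rfl
      rw [h3]
      calc w (∑ j ∈ Finset.range m, (l : L) ^ j) ≤ ∑ j ∈ Finset.range m, w ((l : L) ^ j) :=
            w.1.sum_le _ _
        _ ≤ ∑ j ∈ Finset.range m, (max 1 (w (l : L))) ^ (m - 1) := by
            apply Finset.sum_le_sum
            intro j hj
            rw [map_pow]
            calc w (l : L) ^ j ≤ (max 1 (w (l : L))) ^ j :=
                  pow_le_pow_left₀ (apply_nonneg w _) (le_max_right _ _) _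
              _ ≤ _ := pow_le_pow_right₀ (le_max_left _ _) (by
                  have := Finset.mem_range.mp hj
                  omega)
        _ = _ := by rw [Finset.sum_const, Finset.card_range, nsmul_eq_mul]
    have hpos : (0 : ℝ) < max 1 (w (l : L)) := lt_of_lt_of_le one_pos (le_max_left _ _)
    have h4 := Real.log_le_log (InfinitePlace.pos_iff.mpr hQL) h2
    rw [Real.log_mul hm'.ne' (pow_pos hpos _).ne', Real.log_pow, ← Real.posLog_eq_log_max_one (apply_nonneg w _)] at h4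
    have h5 : Real.log (nv (.inl w) (Q : L)) = w.mult * Real.log (w (Q : L)) := by
      simp only [nv, Real.log_pow]
    have h6 : ((m - 1 : ℕ) : ℝ) = m - 1 := by
      rw [Nat.cast_sub hm]
      simp
    rw [h6] at h4
    rw [h5]
    have h7 := mul_le_mul_of_nonneg_left h4 (Nat.cast_nonneg (α := ℝ) w.mult)
    linarith
  rw [e2]
  refine (Finset.sum_le_sum fun w _ => e3 w).trans ?_
  rw [Finset.sum_add_distrib, ← Finset.sum_mul, sum_mult, ← Finset.mul_sum]
  have h8 := sum_mult_posLog_le (l : L)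
  have h9 := mul_le_mul_of_nonneg_left h8 hm1
  linarith

/-- exceptional units -/
theorem unit_points (k : Type u) [Field k] [NumberField k] : ∃ c₁ : ℝ, ∀ R : ℝ, ∃ (l : AlgebraicClosure k) (T : ℝ), R ≤ T ∧
    IsIntegral ℤ l ∧ (∃ b, IsIntegral ℤ b ∧ l * b = 1) ∧ (∃ u, IsIntegral ℤ u ∧ (l - 1) * u = 1) ∧
    T - c₁ ≤ H l ∧
    ∃ E : IntermediateField k (AlgebraicClosure k), l ∈ E ∧ Bd E 4 (T + c₁) := by
  obtain ⟨σ⟩ := exists_emb k
  obtain ⟨E₀, c₀, h₀, hh₀, hE₀, hdata⟩ := exists_data σ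
  have hl2 : 0 < Real.log 2 := Real.log_pos (by norm_num)
  have hl5 : 0 < Real.log 5 := Real.log_pos (by norm_num)
  refine ⟨7 / 2 * Real.log 2 + (|c₀| + Real.log 5 / 2), fun R => ?_⟩
  obtain ⟨N, hN⟩ := exists_nat_gt (2 * R / h₀)
  obtain ⟨t, u, κ, m, K, hti, hui, htu, h4, htE, hHt, htw, hσ, hK0, hKs, hKr⟩ := hdata N
  have hl : (κ 0 ^ 2) ^ 2 = t * (1 - κ 0 ^ 2) := by
    rw [← pow_mul]
    exact htw.start
  obtain ⟨h1, h2, v, hv1, hv2⟩ := start_units hti hui htu hl
  refine ⟨κ 0 ^ 2, H t / 2, ?_, h1, h2, ⟨-v, hv1.neg, by linear_combination hv2⟩, ?_, ?_⟩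
  · rw [hHt]
    rw [div_lt_iff₀ hh₀] at hN
    linarith
  · have h3 := htw.height hti hui htu 0
    push_cast at h3
    have : 0 ≤ |c₀| := abs_nonneg _
    linarith
  · obtain ⟨⟨E, hE, hκE, hb⟩, -⟩ := htw.fields hti hui htu h4 hE₀ htE 0
    refine ⟨E, hκE 0 le_rfl, hb.mono (by norm_num) ?_⟩
    have h3 := le_abs_self c₀
    push_cast
    linarith

/-- Part (II) for the standard hyperplanes. -/
theorem std_II (S : Finset (Pl k)) (hS : ∀ v : InfinitePlace k, Sum.inl v ∈ S) (n : ℕ) (hn : 0 < n) (α ε : ℝ)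
    (hα : 0 ≤ α) (G : MvPolynomial (Fin n) (AlgebraicClosure k)) (hG : G ≠ 0)
    (B : ℕ) (hB : G.totalDegree < B) (hαε : α + ε * ∑ j ∈ Finset.range n, (B : ℝ) ^ j < n) (C : ℝ) :
    ∃ y, dg y ≤ 4 ∧ Violates S (Std k n) G α ε C y := by
  obtain ⟨G', hG', hdeg, hev⟩ := Helper77.VE.subst' n G hG
  have hfin := Helper77.VE.kronecker n B G' hG' fun j => lt_of_le_of_lt (hdeg j) hB
  obtain ⟨c₁, hpts⟩ := unit_points k
  have hk := finrank_pos' k
  have hn' : (0 : ℝ) < n := by exact_mod_cast hn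
  have hB0 : 0 < B := lt_of_le_of_lt (Nat.zero_le _) hB
  have hB1 : (1 : ℝ) ≤ B := by exact_mod_cast hB0
  set Bs : ℝ := ∑ j ∈ Finset.range n, (B : ℝ) ^ j with hBs
  have hBsn : (n : ℝ) ≤ Bs := by
    calc (n : ℝ) = ∑ j ∈ Finset.range n, (1 : ℝ) := by simp
      _ ≤ _ := Finset.sum_le_sum fun j _ => one_le_pow₀ hB1
  have h1ε : 0 < 1 - ε := by
    by_contra h
    push Not at h
    nlinarith
  -- bound for the heights of the bad elements
  obtain ⟨M, hM⟩ : ∃ M : ℝ, ∀ l : AlgebraicClosure k, M < H l →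
      MvPolynomial.eval (fun j : Fin n => 1 - l ^ (B ^ (j : ℕ))) G' ≠ 0 := by
    obtain ⟨M, hM⟩ := (hfin.image H).bddAbove
    exact ⟨M, fun l hl h => absurd (hM (Set.mem_image_of_mem H h)) (not_le.mpr hl)⟩
  set A : ℝ := n - ε * Bs - α with hA
  have hA0 : 0 < A := by rw [hA]; linarith
  set D : ℝ := (1 - ε) * (2 * Real.log (n + 2)) + ∑ i ∈ Finset.range n, Real.log ((B : ℝ) ^ i) +
    α * (2 * c₁ - rd k) with hD
  obtain ⟨l, T, hT, hint, hun, hun1, hH, E, hE, hbd⟩ :=
    hpts (max (|C / finrank ℚ k| / A + |D| / A + 1) (max M 0 + 1) + |c₁|)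
  have hTM : max (|C / finrank ℚ k| / A + |D| / A + 1) (max M 0 + 1) ≤ H l := by
    have := le_abs_self c₁
    linarith
  have hHM : M < H l := by
    have h1 := le_max_right (|C / finrank ℚ k| / A + |D| / A + 1) (max M 0 + 1)
    have h2 := le_max_left M 0
    linarith
  have hH0 : 0 < H l := by
    have h1 := le_max_right (|C / finrank ℚ k| / A + |D| / A + 1) (max M 0 + 1)
    have h2 := le_max_right M 0
    linarith
  have hHC : |C / finrank ℚ k| / A + |D| / A + 1 ≤ H l :=
    (le_max_left _ _).trans hTM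
  set μ : ℕ → AlgebraicClosure k := fun i => l ^ (B ^ i) with hμ
  have hl0 : l ≠ 0 := by
    obtain ⟨b, -, hb⟩ := hun
    rintro rfl
    rw [zero_mul] at hb
    exact zero_ne_one hb
  have hBi : ∀ i, 0 < B ^ i := fun i => Nat.pow_pos hB0
  have h0 : ∀ i < n, μ i ≠ 0 := fun i _ => pow_ne_zero _ hl0
  have h1 : ∀ i < n, μ i - 1 ≠ 0 := by
    intro i _ h
    have h4 : l ^ (B ^ i) = 1 := sub_eq_zero.mp h
    have h2 : H (l ^ (B ^ i)) = 0 := by
      rw [h4]
      exact H_one
    rw [H_pow] at h2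
    have h3 : (0 : ℝ) < (B ^ i : ℕ) := by exact_mod_cast hBi i
    have := mul_pos h3 hH0
    linarith
  have hHμ : ∀ i, H (μ i) = (B : ℝ) ^ i * H l := by
    intro i
    rw [hμ]
    show H (l ^ (B ^ i)) = _
    rw [H_pow]
    push_cast
    rfl
  have hμint : ∀ i < n, IsIntegral ℤ (μ i) := fun i _ => hint.pow _
  refine ⟨pt n μ, ?_⟩
  apply violates_of S hS μ hμint h0 h1 1 one_pos ?_ (fun _ => 0)
    (fun i => ((B : ℝ) ^ i - 1) * H l + Real.log ((B : ℝ) ^ i)) ?_ ?_ E (fun i _ => pow_mem hE _) 4 _ hbd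
    α ε C hα (by linarith) G
  · rw [pt_eq_xx, ← hev]
    exact hM l hHM
  · -- the main inequality
    have e1 : ∑ i ∈ Finset.range n, H (μ i) = Bs * H l := by
      rw [hBs, Finset.sum_mul]
      exact Finset.sum_congr rfl fun i _ => hHμ i
    have e2 : ∑ i ∈ Finset.range n, (((B : ℝ) ^ i - 1) * H l + Real.log ((B : ℝ) ^ i)) =
        (Bs - n) * H l + ∑ i ∈ Finset.range n, Real.log ((B : ℝ) ^ i) := by
      rw [Finset.sum_add_distrib, ← Finset.sum_mul, Finset.sum_sub_distrib]
      simp [hBs]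
    rw [e1, e2, Finset.sum_const_zero, mul_zero, zero_add, Real.log_one, zero_sub]
    have h3 : C / finrank ℚ k < A * H l - D := by
      have h4 := le_abs_self (C / finrank ℚ k)
      have h5 := le_abs_self D
      have h6 := mul_le_mul_of_nonneg_left hHC hA0.le
      have h7 : A * (|C / finrank ℚ k| / A + |D| / A + 1) = |C / finrank ℚ k| + |D| + A := by
        field_simp
      rw [h7] at h6
      linarith
    rw [div_lt_iff₀ hk] at h3
    refine lt_of_lt_of_le h3 ?_
    rw [mul_comm]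
    apply mul_le_mul_of_nonneg_left _ hk.le
    have h8 : T ≤ H l + c₁ := by linarith
    have h9 := mul_le_mul_of_nonneg_left h8 hα
    rw [hA, hD]
    nlinarith
  · -- local
    intro φ
    have e1 : ∀ i, ‖φ (μ i)‖ = ‖φ l‖ ^ (B ^ i) := by
      intro i
      show ‖φ (l ^ (B ^ i))‖ = _
      rw [map_pow, norm_pow]
    rcases le_or_gt 1 ‖φ l‖ with h | h
    · refine ⟨n, le_rfl, ?_⟩
      rw [one_mul]
      apply le_of_eq
      apply Finset.prod_congr rfl
      intro i _
      rw [e1, max_eq_right (one_le_pow₀ h)]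
    · refine ⟨0, Nat.zero_le _, ?_⟩
      rw [one_mul, Finset.range_zero, Finset.prod_empty]
      apply le_of_eq
      apply Finset.prod_eq_one
      intro i _
      rw [e1, max_eq_left (pow_le_one₀ (norm_nonneg _) h.le)]
  · -- units
    intro i hi
    obtain ⟨b, hb1, hb2⟩ := hun
    have := ln_dvd (fld (pt n μ)) (mu' n μ i) 1 one_ne_zero (b ^ (B ^ i)) (hb1.pow _) (by
      rw [mu'_eq hμint h0 i hi]
      show l ^ (B ^ i) * b ^ (B ^ i) = _
      rw [← mul_pow, hb2, one_pow]
      simp)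
    simpa using this
  · intro i hi
    obtain ⟨b, hb1, hb2⟩ := hun1
    set L := fld (pt n μ) with hL
    set l' : 𝓞 L := mu' n μ 0 with hl'
    have hl'e : ((l' : L) : AlgebraicClosure k) = l := by
      rw [hl', mu'_eq hμint h0 0 hn]
      show l ^ (B ^ 0) = l
      rw [pow_zero, pow_one]
    have e1 : mu' n μ i = l' ^ (B ^ i) := by
      apply RingOfIntegers.ext
      apply Subtype.ext
      rw [mu'_eq hμint h0 i hi]
      push_cast
      rw [hl'e]
    have e2 : ln (l' - 1) = 0 := by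
      apply le_antisymm
      · have := ln_dvd L (l' - 1) 1 one_ne_zero b hb1 (by
          push_cast
          rw [hl'e, hb2])
        simpa using this
      · apply ln_nonneg
        intro h
        have h2 := congrArg (fun x : 𝓞 L => ((x : L) : AlgebraicClosure k)) h
        have h3 : l - 1 = 0 := by
          rw [← hl'e]
          simpa using h2
        rw [h3, zero_mul] at hb2
        exact zero_ne_one hb2
    have e3 : l' ^ (B ^ i) - 1 ≠ 0 := by
      rw [← e1]
      intro h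
      apply h1 i hi
      rw [← mu'_eq hμint h0 i hi, sub_eq_zero.mp h]
      simp
    have e4 := ln_pow_sub_one l' e2 (B ^ i) (hBi i) e3
    rw [← e1] at e4
    have e5 : nh (l' : L) = H l := by
      rw [H_eq L (l' : L), hl'e]
    rw [e5] at e4
    push_cast at e4
    exact e4

end Pool.Agent.Helper64.VZ
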