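import Mathlib
import Pool.Agent.Helper64.VZ.StdII
import Pool.Agent.Helper77.VE.Root

/-!
Part (III): Fermat hypersurfaces.
-/

set_option autoImplicit false

namespace Pool.Agent.Helper64.VZ

open NumberField IntermediateField Module Height Pool.Agent.Helper64.Vojta Pool.Agent.VZ

universe u

variable {k : Type u} [Field k] [NumberField k]

/-- adjoining `m`-th roots of divisors of `B` -/
theorem adjoin_roots (N : ℕ) (y : ℕ → AlgebraicClosure k) (m : ℕ) (hm : m ≠ 0) (B : ℕ) (hB : B ≠ 0)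
    {E : IntermediateField k (AlgebraicClosure k)} {r : ℕ} {c : ℝ} (hE : Bd E r c)
    (hy : ∀ j < N, y j ^ m ∈ E) (hint : ∀ j < N, IsIntegral ℤ (y j))
    (hb : ∀ j < N, ∃ b, IsIntegral ℤ b ∧ y j ^ m * b = B) :
    ∃ E' : IntermediateField k (AlgebraicClosure k), E ≤ E' ∧ (∀ j < N, y j ∈ E') ∧
      Bd E' (r * m ^ N) (c + N * Real.log (m * B)) := by
  induction N with
  | zero => exact ⟨E, le_rfl, fun j hj => absurd hj (Nat.not_lt_zero j), hE.mono (by simp) (by simp)⟩
  | succ N ih =>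
    obtain ⟨E', h1, h2, h3⟩ := ih (fun j hj => hy j (by omega)) (fun j hj => hint j (by omega))
      (fun j hj => hb j (by omega))
    obtain ⟨b, hb1, hb2⟩ := hb N (by omega)
    obtain ⟨E'', h4, h5, h6⟩ := bd_root h3 (y N) m hm (h1 (hy N (by omega))) (hint N (by omega)) B hB b hb1 hb2
    refine ⟨E'', h1.trans h4, ?_, h6.mono (le_of_eq (by ring)) (le_of_eq (by push_cast; ring))⟩
    intro j hj
    rcases Nat.lt_or_ge j N with h | h
    · exact h4 (h2 j h)
    · obtain rfl : j = N := by omega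
      exact h5

/-- the height can be computed in larger fields -/
theorem hgt_incl {n : ℕ} (z : Fin n → AlgebraicClosure k) {N : ℕ} (y : Fin N → AlgebraicClosure k)
    (h : fld z ≤ fld y) :
    hgt z = logHeight (fun i => inclusion h (crd z i)) / dg y := by
  let : Algebra (fld z) (fld y) := (inclusion h).toAlgebra
  have h0 : crd z ≠ 0 := by
    intro h0
    have := congrFun h0 0
    have h1 : crd z 0 = 1 := rfl
    rw [h1] at this
    exact one_ne_zero this
  have h1 := Pool.Agent.Helper52.Vojta.logHeight_algebraMap (L := fld z) (L' := fld y) h0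
  have h2 : (fun i => algebraMap (fld z) (fld y) (crd z i)) = fun i => inclusion h (crd z i) := rfl
  rw [h2] at h1
  have : IsScalarTower k (fld z) (fld y) := IsScalarTower.of_algebraMap_eq fun x => rfl
  have hfree : Module.Free (fld z) (fld y) := Module.Free.of_divisionRing (fld z) (fld y)
  have h3 : finrank k (fld z) * finrank (fld z) (fld y) = finrank k (fld y) := finrank_mul_finrank k (fld z) (fld y)
  have h4 := dg_pos z
  have h5 := dg_pos y
  have h6 : (dg y : ℝ) = dg z * finrank (fld z) (fld y) := by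
    unfold dg
    exact_mod_cast h3.symm
  have h7 : (0 : ℝ) < finrank (fld z) (fld y) := by
    rw [h6] at h5
    exact (mul_pos_iff_of_pos_left h4).mp h5
  rw [h1, h6]
  unfold hgt
  field_simp

/-- Part (III). -/
theorem fermat (S : Finset (Pl k)) (hS : ∀ v : InfinitePlace k, Sum.inl v ∈ S) (n : ℕ) (hn : 0 < n) (α ε : ℝ)
    (hα : 0 ≤ α) (hε : 0 ≤ ε) (m : ℕ) (hm : α * m < (m - n - 2 - ε) * n)
    (G : MvPolynomial (Fin (n + 1)) (AlgebraicClosure k))
    (z₀ : Fin (n + 1) → AlgebraicClosure k) (hz₀ : 1 + ∑ i, z₀ i ^ m = 0) (hG : MvPolynomial.eval z₀ G ≠ 0)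
    (s : ℕ) (hs0 : 0 < s) (hs : G.totalDegree < 2 ^ s) (C : ℝ) :
    ∃ y : Fin (n + 1) → AlgebraicClosure k, 1 + ∑ i, y i ^ m = 0 ∧
      dg y ≤ 2 ^ ((n - 1) * s + 2) * m ^ (n + 1) ∧ MvPolynomial.eval y G ≠ 0 ∧
      ε * hgt y + α * dk y + C < (m - n - 2) * hgt y := by
  have hk := finrank_pos' k
  have hn' : (0 : ℝ) < n := by exact_mod_cast hn
  have hm1 : (0 : ℝ) < m - n - 2 - ε := by
    by_contra h
    push Not at h
    have h1 := mul_nonpos_of_nonpos_of_nonneg h hn'.le
    have h2 : (0 : ℝ) ≤ m := Nat.cast_nonneg m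
    have h3 := mul_nonneg hα h2
    linarith
  have hmp : (0 : ℝ) < m := by linarith
  have hm0 : 0 < m := by exact_mod_cast hmp
  obtain ⟨Hh, hHh, hHdeg, hlift⟩ := Helper77.VE.root_lift (n + 1) m hm0 G z₀ hG
  obtain ⟨G', hG', hdeg, hev⟩ := Helper77.VE.subst n Hh (fun i => z₀ i ^ m) hz₀ hHh
  obtain ⟨c₁, c, hc, hpts⟩ := tower_points n s hs0 G' hG' fun j =>
    lt_of_le_of_lt ((hdeg j).trans hHdeg) hs
  -- constants
  set A : ℝ := (m - n - 2 - ε) / m * n - α with hA
  have hA0 : 0 < A := by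
    rw [hA, sub_pos, div_mul_eq_mul_div, lt_div_iff₀ hmp]
    exact hm
  set B : ℝ := (m - n - 2 - ε) / m * (n * c₁ - (Real.log c - 2 * Real.log (n + 2))) +
    α * (c₁ + (n + 1) * Real.log (m * 16 ^ n) - rd k) with hB
  obtain ⟨μ, T, hT, hint, h16, hunit, hH, ⟨E, hE, hbd⟩, hloc, hne⟩ := hpts ((|C / finrank ℚ k| + |B| + 1) / A)
  have h0 : ∀ i < n, μ i ≠ 0 := by
    intro i _ h
    obtain ⟨b, -, hb⟩ := h16 i
    rw [h, zero_mul] at hb
    have h4 : (16 : AlgebraicClosure k) ≠ 0 := by norm_num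
    exact h4 hb.symm
  have h1 : ∀ i < n, μ i - 1 ≠ 0 := by
    intro i _ h
    obtain ⟨b, -, hb⟩ := hunit i
    rw [h, zero_mul] at hb
    exact zero_ne_one hb
  set δ : Fin n → AlgebraicClosure k := fun j => 1 - μ j with hδ
  -- the coordinates of the point of `P^(n+1)`
  have hx1 : ∀ j : Fin n, Helper77.VE.xx n δ j.castSucc = pt n μ j := by
    intro j
    rw [pt_eq_xx]
  have hx2 : Helper77.VE.xx n δ (Fin.last n) = -PP μ n := by
    rw [Helper77.VE.xx_last]
    unfold PP
    rw [← Fin.prod_univ_eq_prod_range (fun i => μ i) n]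
    congr 1
    exact Finset.prod_congr rfl fun i _ => by rw [hδ]; ring
  have hPne : ∀ j ≤ n, PP μ j ≠ 0 := by
    intro j hj
    unfold PP
    rw [Finset.prod_ne_zero_iff]
    intro i hi
    exact h0 i (lt_of_lt_of_le (Finset.mem_range.mp hi) hj)
  have hxne : ∀ j, Helper77.VE.xx n δ j ≠ 0 := by
    intro j
    refine Fin.lastCases ?_ (fun j => ?_) j
    · rw [hx2]
      exact neg_ne_zero.mpr (hPne n le_rfl)
    · rw [hx1]
      show PP μ j * (μ j - 1) ≠ 0
      exact mul_ne_zero (hPne j (by omega)) (h1 j (by omega))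
  obtain ⟨y, hy1, hy2⟩ := hlift (Helper77.VE.xx n δ) hxne (by
    rw [← hev]
    exact hne)
  have hsum : 1 + ∑ i, y i ^ m = 0 := by
    rw [Finset.sum_congr rfl fun i _ => hy1 i]
    exact Helper77.VE.sum_xx n δ
  -- divisibility
  have hPint : ∀ j, IsIntegral ℤ (PP μ j) := by
    intro j
    unfold PP
    exact IsIntegral.prod _ fun i _ => hint i
  have hPdvd : ∀ j ≤ n, ∃ b, IsIntegral ℤ b ∧ PP μ j * b = 16 ^ n := by
    intro j hj
    have h2 : ∃ b, IsIntegral ℤ b ∧ PP μ j * b = 16 ^ j := by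
      clear hj
      induction j with
      | zero => exact ⟨1, isIntegral_one, by simp [PP]⟩
      | succ j ih =>
        obtain ⟨b, hb1, hb2⟩ := ih
        obtain ⟨b', hb1', hb2'⟩ := h16 j
        refine ⟨b * b', hb1.mul hb1', ?_⟩
        have e : PP μ (j + 1) = PP μ j * μ j := by
          unfold PP
          rw [Finset.prod_range_succ]
        rw [e, pow_succ, ← hb2, ← hb2']
        ring
    obtain ⟨b, hb1, hb2⟩ := h2
    have h16i : IsIntegral ℤ (16 : AlgebraicClosure k) := by
      have := isIntegral_algebraMap (R := ℤ) (A := AlgebraicClosure k) (x := 16)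
      simpa using this
    refine ⟨b * 16 ^ (n - j), hb1.mul (h16i.pow _), ?_⟩
    rw [← mul_assoc, hb2, ← pow_add]
    congr 1
    omega
  have hxdvd : ∀ j, ∃ b, IsIntegral ℤ b ∧ Helper77.VE.xx n δ j * b = 16 ^ n := by
    intro j
    refine Fin.lastCases ?_ (fun j => ?_) j
    · obtain ⟨b, hb1, hb2⟩ := hPdvd n le_rfl
      refine ⟨-b, hb1.neg, ?_⟩
      rw [hx2, neg_mul_neg, hb2]
    · obtain ⟨b, hb1, hb2⟩ := hPdvd j (by omega)
      obtain ⟨v, hv1, hv2⟩ := hunit j
      refine ⟨v * b, hv1.mul hb1, ?_⟩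
      rw [hx1]
      show PP μ j * (μ j - 1) * (v * b) = _
      rw [← hb2]
      linear_combination (PP μ j * b) * hv2
  have hxint : ∀ j, IsIntegral ℤ (Helper77.VE.xx n δ j) := by
    intro j
    refine Fin.lastCases ?_ (fun j => ?_) j
    · rw [hx2]
      exact (hPint n).neg
    · rw [hx1]
      exact (hPint j).mul ((hint j).sub isIntegral_one)
  have hyint : ∀ j, IsIntegral ℤ (y j) := by
    intro j
    apply IsIntegral.of_pow hm0
    rw [hy1]
    exact hxint j
  have hxE : ∀ j, Helper77.VE.xx n δ j ∈ E := by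
    intro j
    refine Fin.lastCases ?_ (fun j => ?_) j
    · rw [hx2]
      exact E.neg_mem (pp_mem E hE n le_rfl)
    · rw [hx1]
      exact E.mul_mem (pp_mem E hE j j.2.le) (E.sub_mem (hE j j.2) E.one_mem)
  -- the field
  obtain ⟨E', hE', hyE', hbd'⟩ := adjoin_roots (n + 1) (fun j => if h : j < n + 1 then y ⟨j, h⟩ else 0) m
    hm0.ne' (16 ^ n) (by positivity) hbd (by
      intro j hj
      rw [dif_pos hj, hy1]
      exact hxE _) (by
      intro j hj
      rw [dif_pos hj]
      exact hyint _) (by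
      intro j hj
      rw [dif_pos hj, hy1]
      obtain ⟨b, hb1, hb2⟩ := hxdvd ⟨j, hj⟩
      exact ⟨b, hb1, by rw [hb2]; push_cast; rfl⟩)
  have hfldE : fld y ≤ E' := by
    unfold fld
    rw [adjoin_le_iff]
    rintro _ ⟨j, rfl⟩
    have := hyE' j j.2
    rw [dif_pos j.2] at this
    exact this
  obtain ⟨_, hdegy, hrdy⟩ := hbd'.sub hfldE
  refine ⟨y, hsum, hdegy, hy2, ?_⟩
  -- heights
  have hle : fld (pt n μ) ≤ fld y := by
    unfold fld
    rw [adjoin_le_iff]
    rintro _ ⟨j, rfl⟩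
    rw [← hx1, ← hy1]
    exact pow_mem (subset_adjoin k _ (Set.mem_range_self _)) m
  have hfr := finrank_pos' (fld (pt n μ))
  obtain ⟨-, -, h4, -⟩ := point_ineq S hS (fun i _ => hint i) h0 h1 c hc hloc
    (fun i => ln (mu' n μ i) / finrank ℚ (fld (pt n μ))) (fun i => ln (mu' n μ i - 1) / finrank ℚ (fld (pt n μ)))
    (fun i _ => by rw [mul_div_cancel₀ _ hfr.ne']) (fun i _ => by rw [mul_div_cancel₀ _ hfr.ne'])
  have h5 : hgt (pt n μ) ≤ m * hgt y := by
    rw [hgt_incl (pt n μ) y hle]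
    have e1 : m * hgt y = logHeight (crd y ^ m) / dg y := by
      rw [logHeight_pow]
      unfold hgt
      ring
    rw [e1]
    apply div_le_div_of_nonneg_right _ (dg_pos y).le
    have e2 : (fun i => inclusion hle (crd (pt n μ) i)) = fun i => (crd y ^ m) (Fin.castSucc i) := by
      funext i
      apply Subtype.ext
      refine Fin.cases ?_ (fun j => ?_) i
      · show (1 : AlgebraicClosure k) = ((crd y 0 ^ m : fld y) : AlgebraicClosure k)
        have : crd y 0 = 1 := rfl
        rw [this, one_pow]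
        rfl
      · show pt n μ j = ((crd y (Fin.castSucc j.succ) ^ m : fld y) : AlgebraicClosure k)
        have e3 : crd y (Fin.castSucc j.succ) = ⟨y j.castSucc, subset_adjoin k _ (Set.mem_range_self _)⟩ := by
          rw [← Fin.succ_castSucc]
          rfl
        rw [e3, ← hx1, ← hy1]
        rfl
    rw [e2]
    exact logHeight_comp_le Fin.castSucc (crd y ^ m)
  have h6 : n * (T - c₁) ≤ ∑ i ∈ Finset.range n, H (μ i) := by
    calc n * (T - c₁) = ∑ i ∈ Finset.range n, (T - c₁) := by rw [Finset.sum_const, Finset.card_range, nsmul_eq_mul]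
      _ ≤ _ := Finset.sum_le_sum fun i hi => hH i (Finset.mem_range.mp hi)
  have h7 : dk y ≤ finrank ℚ k * (T + c₁ + (n + 1) * Real.log (m * 16 ^ n) - rd k) := by
    rw [dk_eq]
    apply mul_le_mul_of_nonneg_left _ hk.le
    push_cast at hrdy
    linarith
  have h8 : finrank ℚ k * (n * (T - c₁) + (Real.log c - 2 * Real.log (n + 2))) ≤ m * hgt y := by
    refine le_trans ?_ (h4.trans h5)
    apply mul_le_mul_of_nonneg_left _ hk.le
    linarith
  have h9 : (m - n - 2 - ε) / m * (finrank ℚ k * (n * (T - c₁) + (Real.log c - 2 * Real.log (n + 2)))) ≤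
      (m - n - 2 - ε) * hgt y := by
    have h10 := mul_le_mul_of_nonneg_left h8 (div_pos hm1 hmp).le
    refine h10.trans (le_of_eq ?_)
    field_simp
  have h10 := mul_le_mul_of_nonneg_left h7 hα
  have h11 : |C / finrank ℚ k| + |B| + 1 ≤ A * T := by
    rw [div_le_iff₀ hA0] at hT
    linarith
  have h12 := le_abs_self (C / finrank ℚ k)
  have h13 := le_abs_self B
  have h14 : C / finrank ℚ k < A * T - B := by linarith
  rw [div_lt_iff₀ hk] at h14
  have h15 : (A * T - B) * finrank ℚ k =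
      (m - n - 2 - ε) / m * (finrank ℚ k * (n * (T - c₁) + (Real.log c - 2 * Real.log (n + 2)))) -
      α * (finrank ℚ k * (T + c₁ + (n + 1) * Real.log (m * 16 ^ n) - rd k)) := by
    rw [hA, hB]
    ring
  rw [h15] at h14
  linarith

end Pool.Agent.Helper64.VZ
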