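import Mathlib
import Pool.Agent.Helper64.VZ.StdIII
import Pool.Agent.Helper64.VZ.Fam
import Pool.Agent.Helper64.VZ.Hyper

/-!
Lifting of points of `P^n` to hypersurfaces: bounds.
-/

set_option autoImplicit false

namespace Pool.Agent.Helper64.VZ

open NumberField IntermediateField Module Height Pool.Agent.Helper64.Vojta Pool.Agent.VZ

universe u v

variable {k : Type u} [Field k] [NumberField k]

/-- common denominators -/
theorem exists_den (s : Finset k) : ∃ b : ℕ, b ≠ 0 ∧ ∀ c ∈ s, IsIntegral ℤ ((b : k) * c) := by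
  classical
  induction s using Finset.induction_on with
  | empty => exact ⟨1, one_ne_zero, by simp⟩
  | insert a s ha ih =>
    obtain ⟨b, hb, hbs⟩ := ih
    have halg : IsAlgebraic ℤ a := (IsFractionRing.isAlgebraic_iff ℤ ℚ k).mpr (Algebra.IsAlgebraic.isAlgebraic a)
    obtain ⟨y, hy, hya⟩ := halg.exists_integral_multiple
    have hyn : IsIntegral ℤ ((y.natAbs : k) * a) := by
      have h1 : (y • a : k) = (y : k) * a := by rw [zsmul_eq_mul]
      rw [h1] at hya
      rcases Int.natAbs_eq y with h | h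
      · have : (y : k) = (y.natAbs : k) := by
          conv_lhs => rw [h]
          exact Int.cast_natCast _
        rwa [this] at hya
      · have : (y : k) = -(y.natAbs : k) := by
          conv_lhs => rw [h]
          rw [Int.cast_neg, Int.cast_natCast]
        rw [this, neg_mul] at hya
        simpa using hya.neg
    have hnat : ∀ t : ℕ, IsIntegral ℤ (t : k) := fun t => by
      have := isIntegral_algebraMap (R := ℤ) (A := k) (x := (t : ℤ))
      simpa using this
    refine ⟨y.natAbs * b, mul_ne_zero (Int.natAbs_ne_zero.mpr hy) hb, ?_⟩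
    intro c hc
    rcases Finset.mem_insert.mp hc with rfl | hc
    · have : ((y.natAbs * b : ℕ) : k) * c = (b : k) * ((y.natAbs : k) * c) := by push_cast; ring
      rw [this]
      exact (hnat b).mul hyn
    · have : ((y.natAbs * b : ℕ) : k) * c = (y.natAbs : k) * ((b : k) * c) := by push_cast; ring
      rw [this]
      exact (hnat _).mul (hbs c hc)

/-- bound for the value of a polynomial at the infinite places -/
theorem poly_bound {N : ℕ} (A : MvPolynomial (Fin N) k) (d : ℕ) (hA : A.totalDegree ≤ d) :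
    ∃ C : ℝ, 1 ≤ C ∧ ∀ (L : Type v) [Field L] [NumberField L] [Algebra k L] (w : InfinitePlace L)
      (z : Fin (N + 1) → L), z 0 = 1 →
      nv (.inl w) (MvPolynomial.aeval (fun i => z i.succ) A) ≤ C * (sn (.inl w) z) ^ d := by
  classical
  choose B hB1 hB using fun c : k => inf_bound.{u, v} c
  set M : ℝ := 1 + ∑ e ∈ A.support, B (A.coeff e) with hM
  have hM1 : 1 ≤ M := by
    rw [hM]
    have : 0 ≤ ∑ e ∈ A.support, B (A.coeff e) := Finset.sum_nonneg fun e _ => zero_le_one.trans (hB1 _)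
    linarith
  refine ⟨(A.support.card + 1 : ℝ) ^ 2 * M, ?_, ?_⟩
  · have h1 : (1 : ℝ) ≤ (A.support.card + 1 : ℝ) ^ 2 := by
      apply one_le_pow₀
      have : (0 : ℝ) ≤ A.support.card := Nat.cast_nonneg _
      linarith
    nlinarith
  intro L _ _ _ w z hz
  have hsn : 1 ≤ sn (.inl w) z := by
    have := le_sn (.inl w) z 0
    rwa [hz, nv_one] at this
  rw [MvPolynomial.aeval_def, MvPolynomial.eval₂_eq, mul_assoc]
  apply nv_sum_le (.inl w)
  · exact mul_nonneg (zero_le_one.trans hM1) (pow_nonneg (zero_le_one.trans hsn) _)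
  · intro e he
    rw [nv_mul]
    apply mul_le_mul _ _ (nv_nonneg _ _) (zero_le_one.trans hM1)
    · refine (hB _ L w).trans ?_
      rw [hM]
      have := Finset.single_le_sum (f := fun e => B (A.coeff e)) (fun e _ => zero_le_one.trans (hB1 _)) he
      linarith
    · have h2 : nv (.inl w) (∏ i ∈ e.support, z i.succ ^ e i) ≤ (sn (.inl w) z) ^ (∑ i ∈ e.support, e i) := by
        rw [← Finset.prod_pow_eq_pow_sum]
        have h3 : nv (.inl w) (∏ i ∈ e.support, z i.succ ^ e i) = ∏ i ∈ e.support, nv (.inl w) (z i.succ) ^ e i := by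
          simp only [nv, map_prod, map_pow]
          rw [← Finset.prod_pow]
          exact Finset.prod_congr rfl fun i _ => by ring
        rw [h3]
        apply Finset.prod_le_prod
        · intro i _
          exact pow_nonneg (nv_nonneg _ _) _
        · intro i _
          exact pow_le_pow_left₀ (nv_nonneg _ _) (le_sn _ _ _) _
      refine h2.trans (pow_le_pow_right₀ hsn ?_)
      exact (MvPolynomial.le_totalDegree he).trans hA

/-- normalised height of a vector -/
theorem nhv_map {L : Type*} [Field L] [NumberField L] {L' : Type*} [Field L'] [NumberField L'] (φ : L →+* L')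
    {N : ℕ} (z : Fin N → L) (hz : z ≠ 0) :
    logHeight (fun i => φ (z i)) / finrank ℚ L' = logHeight z / finrank ℚ L := by
  let : Algebra L L' := φ.toAlgebra
  have h1 := Pool.Agent.Helper52.Vojta.logHeight_algebraMap (L := L) (L' := L') hz
  have h2 : (fun i => algebraMap L L' (z i)) = fun i => φ (z i) := rfl
  rw [h2] at h1
  have h3 : finrank ℚ L * finrank L L' = finrank ℚ L' := finrank_mul_finrank ℚ L L'
  rw [h1, ← h3]
  push_cast
  have h4 := finrank_pos' L
  have h5 : (0 : ℝ) < finrank L L' := by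
    have : FiniteDimensional L L' := FiniteDimensional.right ℚ L L'
    exact_mod_cast (finrank_pos : 0 < finrank L L')
  field_simp

theorem crd_ne_zero {N : ℕ} (y : Fin N → AlgebraicClosure k) : crd y ≠ 0 := by
  intro h0
  have := congrFun h0 0
  have h1 : crd y 0 = 1 := rfl
  rw [h1] at this
  exact one_ne_zero this

theorem hgt_eq {N : ℕ} (y : Fin N → AlgebraicClosure k) :
    hgt y = finrank ℚ k * (logHeight (crd y) / finrank ℚ (fld y)) := by
  have h1 := finrank_eq_dg y
  have h2 := finrank_pos' k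
  have h3 := dg_pos y
  rw [h1]
  unfold hgt
  field_simp

section ext

variable {n : ℕ}

theorem totalDegree_pderiv_le {σ R : Type*} [CommRing R] (i : σ) (F : MvPolynomial σ R) :
    (MvPolynomial.pderiv i F).totalDegree ≤ F.totalDegree - 1 := by
  classical
  have h0 : MvPolynomial.pderiv i F =
      ∑ e ∈ F.support, MvPolynomial.pderiv i (MvPolynomial.monomial e (F.coeff e)) := by
    conv_lhs => rw [F.as_sum, map_sum]
  rw [h0]
  apply MvPolynomial.totalDegree_finsetSum_le
  intro e he
  rw [MvPolynomial.pderiv_monomial]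
  by_cases h : e i = 0
  · rw [h]
    simp
  · refine (MvPolynomial.totalDegree_monomial_le _ _).trans ?_
    have h1 : (e - Finsupp.single i 1 : σ →₀ ℕ) + Finsupp.single i 1 = e := by
      apply tsub_add_cancel_of_le
      rw [Finsupp.single_le_iff]
      omega
    have h2 : (e - Finsupp.single i 1 : σ →₀ ℕ).sum (fun _ => id) + 1 = e.sum (fun _ => id) := by
      conv_rhs => rw [← h1]
      rw [Finsupp.sum_add_index' (fun _ => rfl) (fun _ _ _ => rfl)]
      simp
    have h3 : e.sum (fun _ => id) ≤ F.totalDegree := MvPolynomial.le_totalDegree he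
    omega

/-- values of polynomials -/
theorem aeval_snoc (A : MvPolynomial (Fin (n + 1)) k) (y : Fin (n + 1) → AlgebraicClosure k) :
    MvPolynomial.aeval y A = ∑ e ∈ A.support, algebraMap k (AlgebraicClosure k) (A.coeff e) *
      ((∏ i : Fin n, y i.castSucc ^ e i.castSucc) * y (Fin.last n) ^ e (Fin.last n)) := by
  rw [MvPolynomial.aeval_def, MvPolynomial.eval₂_eq']
  exact Finset.sum_congr rfl fun e _ => by rw [Fin.prod_univ_castSucc]

theorem aeval_pderiv_snoc (A : MvPolynomial (Fin (n + 1)) k) (y : Fin (n + 1) → AlgebraicClosure k) :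
    MvPolynomial.aeval y (MvPolynomial.pderiv (Fin.last n) A) =
      ∑ e ∈ A.support, algebraMap k (AlgebraicClosure k) (A.coeff e) * (e (Fin.last n) : AlgebraicClosure k) *
      ((∏ i : Fin n, y i.castSucc ^ e i.castSucc) * y (Fin.last n) ^ (e (Fin.last n) - 1)) := by
  classical
  have h0 : MvPolynomial.pderiv (Fin.last n) A =
      ∑ e ∈ A.support, MvPolynomial.pderiv (Fin.last n) (MvPolynomial.monomial e (A.coeff e)) := by
    conv_lhs => rw [A.as_sum, map_sum]
  rw [h0, map_sum]
  refine Finset.sum_congr rfl fun e _ => ?_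
  rw [MvPolynomial.pderiv_monomial, MvPolynomial.aeval_monomial, map_mul, map_natCast,
    Finsupp.prod_fintype _ _ (fun _ => pow_zero _), Fin.prod_univ_castSucc]
  congr 2
  · refine Finset.prod_congr rfl fun i _ => ?_
    congr 1
    rw [Finsupp.coe_tsub, Pi.sub_apply, Finsupp.single_eq_of_ne (by exact i.castSucc_lt_last.ne), Nat.sub_zero]
  · congr 1
    rw [Finsupp.coe_tsub, Pi.sub_apply, Finsupp.single_eq_same]

theorem exp_last (m : ℕ) (F : MvPolynomial (Fin (n + 1)) k) (h1 : F.totalDegree ≤ m) (e : Fin (n + 1) →₀ ℕ)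
    (he : e ∈ F.support) : e (Fin.last n) ≤ m ∧ (e (Fin.last n) = m → e = Finsupp.single (Fin.last n) m) := by
  classical
  have hle : ∑ i, e i ≤ m := by
    have := MvPolynomial.le_totalDegree he
    rw [Finsupp.sum_fintype _ _ (fun _ => rfl)] at this
    exact this.trans h1
  refine ⟨(Finset.single_le_sum (f := fun i => e i) (fun _ _ => Nat.zero_le _) (Finset.mem_univ _)).trans hle, ?_⟩
  intro h
  rw [Fin.sum_univ_castSucc, h] at hle
  have h4 : ∑ i : Fin n, e i.castSucc = 0 := by omega
  ext i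
  refine Fin.lastCases ?_ (fun i => ?_) i
  · rw [h, Finsupp.single_eq_same]
  · rw [Finsupp.single_eq_of_ne (by exact i.castSucc_lt_last.ne)]
    exact (Finset.sum_eq_zero_iff.mp h4) i (Finset.mem_univ _)

/-- the data of the extension: a root of the last variable -/
theorem bd_lift (m : ℕ) (F : MvPolynomial (Fin (n + 1)) k) (h1 : F.totalDegree ≤ m)
    (h2 : F.coeff (Finsupp.single (Fin.last n) m) = 1) :
    ∃ (C : ℝ) (b : ℕ), b ≠ 0 ∧ ∀ {E : IntermediateField k (AlgebraicClosure k)} {r : ℕ} {c : ℝ}, Bd E r c →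
      ∀ y : Fin (n + 1) → AlgebraicClosure k, (∀ i : Fin n, y i.castSucc ∈ E) →
      (∀ i : Fin n, IsIntegral ℤ (y i.castSucc)) → MvPolynomial.aeval y F = 0 →
      MvPolynomial.aeval y (MvPolynomial.pderiv (Fin.last n) F) ≠ 0 →
      IsIntegral ℤ ((b : AlgebraicClosure k) * y (Fin.last n)) ∧ dg y ≤ r * m ∧
      dk y ≤ finrank ℚ k * (c + C - rd k) + (m - 1) * hgt y := by
  classical
  obtain ⟨b, hb0, hb⟩ := exists_den (F.support.image fun e => F.coeff e)
  obtain ⟨C, hC1, hC⟩ := poly_bound.{u, u} (MvPolynomial.C ((b : k) ^ (m - 1)) * MvPolynomial.pderiv (Fin.last n) F)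
    (m - 1) (by
      refine (MvPolynomial.totalDegree_mul _ _).trans ?_
      rw [MvPolynomial.totalDegree_C, zero_add]
      exact (totalDegree_pderiv_le _ _).trans (Nat.sub_le_sub_right h1 1))
  refine ⟨Real.log C, b, hb0, ?_⟩
  intro E r c hE y hyE hyint hF hF'
  obtain ⟨hnfE, hEr, hEc⟩ := hE
  have hm0 : m ≠ 0 := by
    rintro rfl
    have h3 : F.totalDegree = 0 := Nat.le_zero.mp h1
    rw [MvPolynomial.totalDegree_eq_zero_iff_eq_C] at h3
    rw [Finsupp.single_zero] at h2
    rw [h2] at h3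
    rw [h3, MvPolynomial.aeval_C, map_one] at hF
    exact one_ne_zero hF
  have hbO : (b : AlgebraicClosure k) ≠ 0 := by exact_mod_cast hb0
  have hnat : ∀ t : ℕ, IsIntegral ℤ (t : AlgebraicClosure k) := fun t => by
    have := isIntegral_algebraMap (R := ℤ) (A := AlgebraicClosure k) (x := (t : ℤ))
    simpa using this
  set ak := algebraMap k (AlgebraicClosure k) with hak
  set θ := y (Fin.last n) with hθ
  set θ₁ := (b : AlgebraicClosure k) * θ with hθ₁
  -- the coefficients
  set dΩ : (Fin (n + 1) →₀ ℕ) → AlgebraicClosure k := fun e =>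
    (b : AlgebraicClosure k) ^ (m - e (Fin.last n)) * ak (F.coeff e) with hdΩ
  have hdint : ∀ e ∈ F.support, IsIntegral ℤ (dΩ e) := by
    intro e he
    obtain ⟨h3, h4⟩ := exp_last m F h1 e he
    rcases Nat.lt_or_ge (e (Fin.last n)) m with h5 | h5
    · have h6 : dΩ e = (b : AlgebraicClosure k) ^ (m - e (Fin.last n) - 1) * ak ((b : k) * F.coeff e) := by
        rw [hdΩ]
        show (b : AlgebraicClosure k) ^ (m - e (Fin.last n)) * ak (F.coeff e) = _
        rw [map_mul, map_natCast, ← mul_assoc, ← pow_succ]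
        congr 2
        omega
      rw [h6]
      exact ((hnat b).pow _).mul ((hb _ (Finset.mem_image_of_mem _ he)).algebraMap)
    · have h6 := h4 (le_antisymm h3 h5)
      have h7 : dΩ e = 1 := by
        rw [hdΩ]
        show (b : AlgebraicClosure k) ^ (m - e (Fin.last n)) * ak (F.coeff e) = 1
        rw [h6, h2, map_one, Finsupp.single_eq_same, Nat.sub_self, pow_zero, one_mul]
      rw [h7]
      exact isIntegral_one
  have hdE : ∀ e, dΩ e ∈ E := fun e => E.mul_mem (pow_mem (E.natCast_mem b) _) (E.algebraMap_mem _)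
  let x' : Fin n → 𝓞 E := fun i => ⟨⟨y i.castSucc, hyE i⟩, int_sub (hyE i) (hyint i)⟩
  let d' : (Fin (n + 1) →₀ ℕ) → 𝓞 E := fun e =>
    if h : IsIntegral ℤ (dΩ e) then ⟨⟨dΩ e, hdE e⟩, int_sub (hdE e) h⟩ else 0
  let ι : 𝓞 E →+* AlgebraicClosure k := (algebraMap E (AlgebraicClosure k)).comp (algebraMap (𝓞 E) E)
  have hιx : ∀ i, ι (x' i) = y i.castSucc := fun i => rfl
  have hιd : ∀ e ∈ F.support, ι (d' e) = dΩ e := by
    intro e he
    have : d' e = ⟨⟨dΩ e, hdE e⟩, int_sub (hdE e) (hdint e he)⟩ := dif_pos (hdint e he)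
    rw [this]
    rfl
  have hιinj : Function.Injective ι :=
    (algebraMap E (AlgebraicClosure k)).injective.comp RingOfIntegers.coe_injective
  let Q : Polynomial (𝓞 E) := ∑ e ∈ F.support,
    Polynomial.C (d' e * ∏ i : Fin n, x' i ^ e i.castSucc) * Polynomial.X ^ e (Fin.last n)
  have hQdeg : Q.natDegree ≤ m := by
    apply Polynomial.natDegree_sum_le_of_forall_le
    intro e he
    exact (Polynomial.natDegree_C_mul_X_pow_le _ _).trans (exp_last m F h1 e he).1
  have hQm : Q.Monic := by
    apply Polynomial.monic_of_natDegree_le_of_coeff_eq_one m hQdeg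
    rw [Polynomial.finsetSum_coeff, Finset.sum_eq_single (Finsupp.single (Fin.last n) m)]
    · rw [Polynomial.coeff_C_mul_X_pow, Finsupp.single_eq_same, if_pos rfl]
      have h3 : (Finsupp.single (Fin.last n) m : Fin (n + 1) →₀ ℕ) ∈ F.support := by
        rw [MvPolynomial.mem_support_iff, h2]
        exact one_ne_zero
      have h4 : d' (Finsupp.single (Fin.last n) m) = 1 := by
        apply hιinj
        rw [hιd _ h3, map_one, hdΩ]
        show (b : AlgebraicClosure k) ^ (m - _) * ak (F.coeff _) = 1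
        rw [h2, map_one, Finsupp.single_eq_same, Nat.sub_self, pow_zero, one_mul]
      rw [h4, one_mul]
      apply Finset.prod_eq_one
      intro i _
      rw [Finsupp.single_eq_of_ne (by exact i.castSucc_lt_last.ne), pow_zero]
    · intro e he hne
      rw [Polynomial.coeff_C_mul_X_pow, if_neg]
      intro h
      exact hne ((exp_last m F h1 e he).2 h.symm)
    · intro h
      rw [MvPolynomial.notMem_support_iff, h2] at h
      exact absurd h one_ne_zero
  -- values of Q and Q'
  have hQval : Q.eval₂ ι θ₁ = 0 := by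
    have h3 : Q.eval₂ ι θ₁ = (b : AlgebraicClosure k) ^ m * MvPolynomial.aeval y F := by
      rw [aeval_snoc, Finset.mul_sum, Polynomial.eval₂_finsetSum]
      refine Finset.sum_congr rfl fun e he => ?_
      rw [Polynomial.eval₂_mul, Polynomial.eval₂_C, Polynomial.eval₂_X_pow, map_mul, map_prod, hιd e he]
      simp only [map_pow, hιx]
      have h4 : (b : AlgebraicClosure k) ^ m =
          (b : AlgebraicClosure k) ^ (m - e (Fin.last n)) * (b : AlgebraicClosure k) ^ e (Fin.last n) := by
        rw [← pow_add]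
        congr 1
        have := (exp_last m F h1 e he).1
        omega
      rw [h4, hdΩ, hθ₁, mul_pow]
      ring
    rw [h3, hF, mul_zero]
  have hQ'val : (Polynomial.derivative Q).eval₂ ι θ₁ =
      (b : AlgebraicClosure k) ^ (m - 1) * MvPolynomial.aeval y (MvPolynomial.pderiv (Fin.last n) F) := by
    rw [aeval_pderiv_snoc, Finset.mul_sum, Polynomial.derivative_sum, Polynomial.eval₂_finsetSum]
    refine Finset.sum_congr rfl fun e he => ?_
    rw [Polynomial.derivative_C_mul_X_pow, Polynomial.eval₂_mul, Polynomial.eval₂_C, Polynomial.eval₂_X_pow,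
      map_mul, map_mul, map_prod, hιd e he, map_natCast]
    simp only [map_pow, hιx]
    rcases Nat.eq_zero_or_pos (e (Fin.last n)) with h3 | h3
    · rw [h3]
      simp
    · have h4 : (b : AlgebraicClosure k) ^ (m - 1) =
          (b : AlgebraicClosure k) ^ (m - e (Fin.last n)) * (b : AlgebraicClosure k) ^ (e (Fin.last n) - 1) := by
        rw [← pow_add]
        congr 1
        have := (exp_last m F h1 e he).1
        omega
      rw [h4, hdΩ, hθ₁, mul_pow]
      ring
  have hQ'ne : (Polynomial.derivative Q).eval₂ ι θ₁ ≠ 0 := by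
    rw [hQ'val]
    exact mul_ne_zero (pow_ne_zero _ hbO) hF'
  -- integrality
  have hθint : IsIntegral ℤ θ₁ := by
    let : Algebra (𝓞 E) (AlgebraicClosure k) := ι.toAlgebra
    have : IsScalarTower ℤ (𝓞 E) (AlgebraicClosure k) := IsScalarTower.of_algebraMap_eq' (RingHom.ext_int _ _)
    have h3 : IsIntegral (𝓞 E) θ₁ := ⟨Q, hQm, hQval⟩
    exact isIntegral_trans (R := ℤ) (A := 𝓞 E) θ₁ h3
  -- the number field
  have hnfL := nf_adj E θ₁
  have hθL : θ₁ ∈ E⟮θ₁⟯ := mem_adjoin_simple_self E θ₁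
  let θ' : 𝓞 E⟮θ₁⟯ := ⟨⟨θ₁, hθL⟩, int_sub' hθL hθint⟩
  let g : 𝓞 E⟮θ₁⟯ →+* AlgebraicClosure k :=
    (algebraMap E⟮θ₁⟯ (AlgebraicClosure k)).comp (algebraMap (𝓞 E⟮θ₁⟯) E⟮θ₁⟯)
  have hginj : Function.Injective g :=
    (algebraMap E⟮θ₁⟯ (AlgebraicClosure k)).injective.comp RingOfIntegers.coe_injective
  have hgι : g.comp (algebraMap (𝓞 E) (𝓞 E⟮θ₁⟯)) = ι := by
    apply RingHom.ext
    intro z
    rfl
  have hgθ : g θ' = θ₁ := rfl
  have hgaeval : ∀ R : Polynomial (𝓞 E), g (Polynomial.aeval θ' R) = R.eval₂ ι θ₁ := by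
    intro R
    rw [Polynomial.aeval_def, Polynomial.hom_eval₂, hgι, hgθ]
  have hroot : Polynomial.aeval θ' Q = 0 := by
    apply hginj
    rw [hgaeval, hQval, map_zero]
  have hDne : Polynomial.aeval θ' (Polynomial.derivative Q) ≠ 0 := by
    intro h
    apply hQ'ne
    rw [← hgaeval, h, map_zero]
  have hrd := rd_le (F := E) (L := E⟮θ₁⟯) θ' (adj_top E θ₁) Q hroot hDne
  have hfldE : fld y ≤ ext E θ₁ := by
    unfold fld
    rw [adjoin_le_iff]
    rintro _ ⟨j, rfl⟩
    refine Fin.lastCases ?_ (fun i => ?_) j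
    · have h3 : y (Fin.last n) = (b : AlgebraicClosure k)⁻¹ * θ₁ := by
        rw [hθ₁, ← mul_assoc, inv_mul_cancel₀ hbO, one_mul, hθ]
      rw [h3]
      exact (ext E θ₁).mul_mem ((ext E θ₁).inv_mem ((ext E θ₁).natCast_mem b)) (mem_ext E θ₁)
    · exact le_ext E θ₁ (hyE i)
  let φ : fld y →+* E⟮θ₁⟯ := (inclusion hfldE).toRingHom
  have hφ : ∀ z : fld y, ((φ z : E⟮θ₁⟯) : AlgebraicClosure k) = z := fun z => rfl
  set z : Fin (n + 2) → E⟮θ₁⟯ := fun i => φ (crd y i) with hz
  have hz0 : z 0 = 1 := by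
    have : crd y 0 = 1 := rfl
    rw [hz]
    show φ (crd y 0) = 1
    rw [this, map_one]
  have hht := nhv_map φ (crd y) (crd_ne_zero y)
  -- the norm
  have hD : ∀ w : InfinitePlace E⟮θ₁⟯, Real.log (nv (.inl w)
      ((Polynomial.aeval θ' (Polynomial.derivative Q) : 𝓞 E⟮θ₁⟯) : E⟮θ₁⟯)) ≤
      Real.log C + (m - 1) * Real.log (sn (.inl w) z) := by
    intro w
    have e1 : ((Polynomial.aeval θ' (Polynomial.derivative Q) : 𝓞 E⟮θ₁⟯) : E⟮θ₁⟯) =
        MvPolynomial.aeval (fun i => z i.succ)
          (MvPolynomial.C ((b : k) ^ (m - 1)) * MvPolynomial.pderiv (Fin.last n) F) := by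
      apply (algebraMap E⟮θ₁⟯ (AlgebraicClosure k)).injective
      have e2 : algebraMap E⟮θ₁⟯ (AlgebraicClosure k)
          ((Polynomial.aeval θ' (Polynomial.derivative Q) : 𝓞 E⟮θ₁⟯) : E⟮θ₁⟯) =
          (Polynomial.derivative Q).eval₂ ι θ₁ := hgaeval _
      rw [e2, hQ'val, map_mul, MvPolynomial.aeval_C, map_mul]
      congr 1
      · rw [map_pow, map_natCast, map_pow, map_natCast]
      · have : IsScalarTower k E⟮θ₁⟯ (AlgebraicClosure k) := IsScalarTower.of_algebraMap_eq fun x => rfl
        rw [← MvPolynomial.aeval_algebraMap_apply]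
        congr 1
    have hne : ((Polynomial.aeval θ' (Polynomial.derivative Q) : 𝓞 E⟮θ₁⟯) : E⟮θ₁⟯) ≠ 0 :=
      RingOfIntegers.coe_ne_zero_iff.mpr hDne
    have h3 := hC E⟮θ₁⟯ w z hz0
    rw [← e1] at h3
    have hsn : 1 ≤ sn (.inl w) z := by
      have := le_sn (.inl w) z 0
      rwa [hz0, nv_one] at this
    have h4 := Real.log_le_log (nv_pos _ hne) h3
    rw [Real.log_mul (by linarith) (pow_ne_zero _ (by linarith)), Real.log_pow, Nat.cast_sub (Nat.one_le_iff_ne_zero.mpr hm0)] at h4
    push_cast at h4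
    exact h4
  have hm1 : (0 : ℝ) ≤ (m : ℝ) - 1 := by
    have : (1 : ℝ) ≤ m := by exact_mod_cast Nat.one_le_iff_ne_zero.mpr hm0
    linarith
  have hlnD : Real.log |(Algebra.norm ℤ (Polynomial.aeval θ' (Polynomial.derivative Q)) : ℝ)| ≤
      finrank ℚ E⟮θ₁⟯ * Real.log C + (m - 1) * logHeight z := by
    rw [log_norm_eq _ hDne]
    refine (Finset.sum_le_sum fun w _ => hD w).trans ?_
    rw [Finset.sum_add_distrib, Finset.sum_const, Finset.card_univ, nsmul_eq_mul, ← Finset.mul_sum]
    have h3 := sum_sn_le z hz0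
    have h4 := mul_le_mul_of_nonneg_left h3 hm1
    have h5 := mul_le_mul_of_nonneg_right (card_inf_le (L := E⟮θ₁⟯)) (Real.log_nonneg hC1)
    linarith
  have hLpos := finrank_pos' E⟮θ₁⟯
  have hk := finrank_pos' k
  have hrd2 : rd E⟮θ₁⟯ ≤ c + Real.log C + (m - 1) * (hgt y / finrank ℚ k) := by
    have h3 : Real.log |(Algebra.norm ℤ (Polynomial.aeval θ' (Polynomial.derivative Q)) : ℝ)| / finrank ℚ E⟮θ₁⟯ ≤
        Real.log C + (m - 1) * (logHeight z / finrank ℚ E⟮θ₁⟯) := by
      rw [div_le_iff₀ hLpos]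
      refine hlnD.trans (le_of_eq ?_)
      field_simp
    rw [hht] at h3
    have h4 : hgt y / finrank ℚ k = logHeight (crd y) / finrank ℚ (fld y) := by
      rw [hgt_eq, mul_div_cancel_left₀ _ hk.ne']
    rw [h4]
    linarith
  have hbd : Bd (ext E θ₁) (r * m) (c + Real.log C + (m - 1) * (hgt y / finrank ℚ k)) := by
    refine bd_ext E θ₁ m (Nat.mul_le_mul_right _ hEr) (Q.map (algebraMap (𝓞 E) E)) ?_ ?_ ?_ hrd2
    · exact (hQm.map _).ne_zero
    · rw [Polynomial.aeval_map_algebraMap]
      exact hQval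
    · exact Polynomial.natDegree_map_le.trans hQdeg
  obtain ⟨_, hd1, hd2⟩ := hbd.sub hfldE
  refine ⟨hθint, hd1, ?_⟩
  rw [dk_eq]
  have h5 := mul_le_mul_of_nonneg_left (sub_le_sub_right hd2 (rd k)) hk.le
  refine h5.trans (le_of_eq ?_)
  field_simp
  ring

end ext

end Pool.Agent.Helper64.VZ
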