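import Mathlib

/-!
Choice of a root outside a closed subset.
-/

set_option autoImplicit false

namespace Pool.Agent.Helper64.VZ

open Polynomial

universe u

variable {Om : Type u} [Field Om] {n : ℕ}

/-- a polynomial in `n + 1` variables as a polynomial in the last one -/
noncomputable def toP (n : ℕ) : MvPolynomial (Fin (n + 1)) Om →ₐ[Om] (MvPolynomial (Fin n) Om)[X] :=
  MvPolynomial.aeval (Fin.snoc (α := fun _ => (MvPolynomial (Fin n) Om)[X]) (fun i => C (MvPolynomial.X i)) X)

theorem toP_eval (F : MvPolynomial (Fin (n + 1)) Om) (x : Fin n → Om) (t : Om) :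
    ((toP n F).map (MvPolynomial.eval x)).eval t =
      MvPolynomial.eval (Fin.snoc (α := fun _ => Om) x t) F := by
  let f : MvPolynomial (Fin (n + 1)) Om →ₐ[Om] Om :=
    { toRingHom := ((Polynomial.evalRingHom t).comp (Polynomial.mapRingHom (MvPolynomial.eval x))).comp
        (toP n).toRingHom
      commutes' := fun r => by
        simp [toP] }
  have h1 : f = MvPolynomial.aeval (Fin.snoc (α := fun _ => Om) x t) := by
    apply MvPolynomial.algHom_ext
    intro i
    refine Fin.lastCases ?_ (fun i => ?_) i
    · simp [f, toP]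
    · simp [f, toP]
  have h2 := DFunLike.congr_fun h1 F
  rw [MvPolynomial.aeval_eq_eval] at h2
  exact h2

theorem toP_eq (F : MvPolynomial (Fin (n + 1)) Om) :
    toP n F = ∑ e ∈ F.support, C (MvPolynomial.C (F.coeff e) * ∏ i : Fin n, MvPolynomial.X i ^ e i.castSucc) *
      X ^ e (Fin.last n) := by
  unfold toP
  rw [MvPolynomial.aeval_def, MvPolynomial.eval₂_eq]
  refine Finset.sum_congr rfl fun e _ => ?_
  have h0 : ∏ i ∈ e.support, (Fin.snoc (α := fun _ => (MvPolynomial (Fin n) Om)[X])
      (fun i => C (MvPolynomial.X i)) X i) ^ e i = ∏ i, (Fin.snoc (α := fun _ => (MvPolynomial (Fin n) Om)[X])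
      (fun i => C (MvPolynomial.X i)) X i) ^ e i := by
    apply Finset.prod_subset (Finset.subset_univ _)
    intro i _ hi
    rw [Finsupp.notMem_support_iff.mp hi, pow_zero]
  rw [h0, Fin.prod_univ_castSucc]
  simp only [Fin.snoc_castSucc, Fin.snoc_last]
  rw [← mul_assoc]
  congr 1
  rw [C_mul]
  congr 1
  rw [map_prod]
  exact Finset.prod_congr rfl fun i _ => by rw [C_pow]

theorem toP_monic (m : ℕ) (F : MvPolynomial (Fin (n + 1)) Om) (h1 : F.totalDegree ≤ m)
    (h2 : F.coeff (Finsupp.single (Fin.last n) m) = 1) :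
    (toP n F).coeff m = 1 ∧ (toP n F).natDegree ≤ m := by
  classical
  have hle : ∀ e ∈ F.support, ∑ i, e i ≤ m := by
    intro e he
    have := MvPolynomial.le_totalDegree he
    rw [Finsupp.sum_fintype _ _ (fun _ => rfl)] at this
    exact this.trans h1
  have hl : ∀ e ∈ F.support, e (Fin.last n) ≤ m := by
    intro e he
    exact (Finset.single_le_sum (f := fun i => e i) (fun _ _ => Nat.zero_le _) (Finset.mem_univ _)).trans (hle e he)
  have hd : (toP n F).natDegree ≤ m := by
    rw [toP_eq]
    apply natDegree_sum_le_of_forall_le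
    intro e he
    exact (natDegree_C_mul_X_pow_le _ _).trans (hl e he)
  refine ⟨?_, hd⟩
  rw [toP_eq, finsetSum_coeff]
  rw [Finset.sum_eq_single (Finsupp.single (Fin.last n) m)]
  · rw [coeff_C_mul_X_pow, Finsupp.single_eq_same, if_pos rfl, h2, MvPolynomial.C_1, one_mul]
    apply Finset.prod_eq_one
    intro i _
    rw [Finsupp.single_eq_of_ne (by
      intro h
      exact absurd h (by
        have := i.castSucc_lt_last
        exact this.ne)), pow_zero]
  · intro e he hne
    rw [coeff_C_mul_X_pow, if_neg]
    intro h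
    apply hne
    have h3 := hle e he
    rw [Fin.sum_univ_castSucc, ← h] at h3
    have h4 : ∑ i : Fin n, e i.castSucc = 0 := by omega
    ext i
    refine Fin.lastCases ?_ (fun i => ?_) i
    · rw [← h, Finsupp.single_eq_same]
    · rw [Finsupp.single_eq_of_ne (by exact i.castSucc_lt_last.ne)]
      exact (Finset.sum_eq_zero_iff.mp h4) i (Finset.mem_univ _)
  · intro h
    rw [MvPolynomial.notMem_support_iff, h2] at h
    exact absurd h one_ne_zero

/-- total degree at most `d` -/
def TD (p : (MvPolynomial (Fin n) Om)[X]) (d : ℕ) : Prop :=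
  ∀ j, p.coeff j ≠ 0 → (p.coeff j).totalDegree + j ≤ d

theorem TD.sub {p q : (MvPolynomial (Fin n) Om)[X]} {d : ℕ} (hp : TD p d) (hq : TD q d) : TD (p - q) d := by
  intro j hj
  rw [coeff_sub] at hj ⊢
  have h0 := MvPolynomial.totalDegree_sub (p.coeff j) (q.coeff j)
  by_cases h1 : p.coeff j = 0
  · by_cases h2 : q.coeff j = 0
    · rw [h1, h2, sub_zero] at hj
      exact absurd rfl hj
    · have := hq j h2
      rw [h1, MvPolynomial.totalDegree_zero] at h0
      rw [h1]
      omega
  · by_cases h2 : q.coeff j = 0
    · have := hp j h1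
      rw [h2, MvPolynomial.totalDegree_zero] at h0
      rw [h2]
      omega
    · have h3 := hp j h1
      have h4 := hq j h2
      omega

theorem TD.mul {p q : (MvPolynomial (Fin n) Om)[X]} {d e : ℕ} (hp : TD p d) (hq : TD q e) : TD (p * q) (d + e) := by
  intro j hj
  rw [coeff_mul] at hj ⊢
  have h1 : j ≤ d + e := by
    obtain ⟨x, hx, hne⟩ := Finset.exists_ne_zero_of_sum_ne_zero hj
    have h2 := hp x.1 (left_ne_zero_of_mul hne)
    have h3 := hq x.2 (right_ne_zero_of_mul hne)
    have := Finset.HasAntidiagonal.mem_antidiagonal.mp hx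
    omega
  have h2 : (∑ x ∈ Finset.HasAntidiagonal.antidiagonal j, p.coeff x.1 * q.coeff x.2).totalDegree ≤ d + e - j := by
    apply MvPolynomial.totalDegree_finsetSum_le
    intro x hx
    by_cases hne : p.coeff x.1 * q.coeff x.2 = 0
    · rw [hne, MvPolynomial.totalDegree_zero]
      exact Nat.zero_le _
    · have h2 := hp x.1 (left_ne_zero_of_mul hne)
      have h3 := hq x.2 (right_ne_zero_of_mul hne)
      have h4 := Finset.HasAntidiagonal.mem_antidiagonal.mp hx
      refine (MvPolynomial.totalDegree_mul _ _).trans ?_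
      omega
  omega

theorem TD.pow {p : (MvPolynomial (Fin n) Om)[X]} {d : ℕ} (hp : TD p d) (m : ℕ) : TD (p ^ m) (m * d) := by
  induction m with
  | zero =>
    intro j hj
    rw [pow_zero, coeff_one] at hj ⊢
    split_ifs at hj ⊢ with h
    · rw [h]
      simp
    · exact absurd rfl hj
  | succ m ih =>
    rw [pow_succ, Nat.succ_mul]
    exact ih.mul hp

theorem TD.mod {P : (MvPolynomial (Fin n) Om)[X]} (hP : P.Monic) (hT : TD P P.natDegree) {d : ℕ} (N : ℕ) :
    ∀ p : (MvPolynomial (Fin n) Om)[X], p.natDegree < N → TD p d → TD (p %ₘ P) d := by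
  induction N with
  | zero => intro p hp; exact absurd hp (Nat.not_lt_zero _)
  | succ N ih =>
    intro p hp hTp
    by_cases hlt : degree p < degree P
    · rw [(modByMonic_eq_self_iff hP).mpr hlt]
      exact hTp
    · push Not at hlt
      have hp0 : p ≠ 0 := by
        rintro rfl
        rw [degree_zero, le_bot_iff, degree_eq_bot] at hlt
        exact hP.ne_zero hlt
      have hdeg := div_wf_lemma ⟨hlt, hp0⟩ hP
      set p' := p - P * (C (leadingCoeff p) * X ^ (natDegree p - natDegree P)) with hp'
      have hmod : p' %ₘ P = p %ₘ P := by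
        rw [hp', sub_modByMonic, (modByMonic_eq_zero_iff_dvd hP).mpr (Dvd.intro _ rfl), sub_zero]
      have hnd : natDegree P ≤ natDegree p := natDegree_le_natDegree hlt
      have hTp' : TD p' d := by
        apply hTp.sub
        have h1 := hTp (natDegree p) (by
          rw [coeff_natDegree]
          exact leadingCoeff_ne_zero.mpr hp0)
        rw [coeff_natDegree] at h1
        have h2 : TD (C (leadingCoeff p) * X ^ (natDegree p - natDegree P) : (MvPolynomial (Fin n) Om)[X])
            (d - natDegree P) := by
          intro j hj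
          rw [coeff_C_mul_X_pow] at hj ⊢
          split_ifs at hj ⊢ with h
          · omega
          · exact absurd rfl hj
        have h3 := hT.mul h2
        have h4 : natDegree P + (d - natDegree P) = d := by omega
        rwa [h4] at h3
      rw [← hmod]
      by_cases hp'0 : p' = 0
      · rw [hp'0, zero_modByMonic]
        intro j hj
        exact absurd (coeff_zero j) hj
      · apply ih p' _ hTp'
        have h5 : natDegree p' < natDegree p := natDegree_lt_natDegree hp'0 hdeg
        omega

theorem TD_toP (F : MvPolynomial (Fin (n + 1)) Om) : TD (toP n F) F.totalDegree := by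
  classical
  intro j hj
  rw [toP_eq, finsetSum_coeff] at hj ⊢
  have hle : ∀ e ∈ F.support, ∑ i : Fin n, e i.castSucc + e (Fin.last n) ≤ F.totalDegree := by
    intro e he
    have := MvPolynomial.le_totalDegree he
    rwa [Finsupp.sum_fintype _ _ (fun _ => rfl), Fin.sum_univ_castSucc] at this
  have h1 : j ≤ F.totalDegree := by
    obtain ⟨e, he, hne⟩ := Finset.exists_ne_zero_of_sum_ne_zero hj
    rw [coeff_C_mul_X_pow] at hne
    have h3 : j = e (Fin.last n) := by
      by_contra h
      rw [if_neg h] at hne
      exact hne rfl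
    have := hle e he
    omega
  have h2 : (∑ e ∈ F.support, (C (MvPolynomial.C (F.coeff e) * ∏ i : Fin n, MvPolynomial.X i ^ e i.castSucc) *
      X ^ e (Fin.last n) : (MvPolynomial (Fin n) Om)[X]).coeff j).totalDegree ≤ F.totalDegree - j := by
    apply MvPolynomial.totalDegree_finsetSum_le
    intro e he
    rw [coeff_C_mul_X_pow]
    split_ifs with h
    · have h3 := hle e he
      refine (MvPolynomial.totalDegree_mul _ _).trans ?_
      rw [MvPolynomial.totalDegree_C, zero_add]
      refine (MvPolynomial.totalDegree_finsetProd _ _).trans ?_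
      have h4 : ∑ i : Fin n, (MvPolynomial.X i ^ e i.castSucc : MvPolynomial (Fin n) Om).totalDegree ≤
          ∑ i : Fin n, e i.castSucc := by
        apply Finset.sum_le_sum
        intro i _
        rw [MvPolynomial.totalDegree_X_pow]
      omega
    · rw [MvPolynomial.totalDegree_zero]
      exact Nat.zero_le _
  omega

/-- choice of a root outside `G = 0` -/
theorem root_choice [IsAlgClosed Om] (m : ℕ) (F : MvPolynomial (Fin (n + 1)) Om) (h1 : F.totalDegree ≤ m)
    (h2 : F.coeff (Finsupp.single (Fin.last n) m) = 1) (G : MvPolynomial (Fin (n + 1)) Om)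
    (z₀ : Fin (n + 1) → Om) (hz : MvPolynomial.eval z₀ F = 0) (hG : MvPolynomial.eval z₀ G ≠ 0) :
    ∃ Hh : MvPolynomial (Fin n) Om, Hh ≠ 0 ∧ Hh.totalDegree ≤ m * G.totalDegree ∧
      ∀ x : Fin n → Om, MvPolynomial.eval x Hh ≠ 0 →
      ∃ t : Om, MvPolynomial.eval (Fin.snoc (α := fun _ => Om) x t) F = 0 ∧
        MvPolynomial.eval (Fin.snoc (α := fun _ => Om) x t) G ≠ 0 := by
  obtain ⟨hm1, hd⟩ := toP_monic m F h1 h2
  have hm : (toP n F).Monic := monic_of_natDegree_le_of_coeff_eq_one m hd hm1
  have hmd : m ≤ (toP n F).natDegree := le_natDegree_of_ne_zero (by rw [hm1]; exact one_ne_zero)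
  set P := toP n F with hP
  set R := (toP n G ^ m) %ₘ P with hR
  set x₀ : Fin n → Om := fun i => z₀ i.castSucc with hx₀
  have hz₀ : Fin.snoc (α := fun _ => Om) x₀ (z₀ (Fin.last n)) = z₀ := by
    funext i
    refine Fin.lastCases ?_ (fun i => ?_) i
    · simp
    · simp [hx₀]
  have hmap : ∀ x : Fin n → Om, R.map (MvPolynomial.eval x) =
      ((toP n G).map (MvPolynomial.eval x) ^ m) %ₘ (P.map (MvPolynomial.eval x)) := by
    intro x
    rw [hR, Polynomial.map_modByMonic _ hm, Polynomial.map_pow]
  -- the remainder is not zero at `x₀`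
  have hne : R.map (MvPolynomial.eval x₀) ≠ 0 := by
    intro h
    rw [hmap, modByMonic_eq_zero_iff_dvd (hm.map _)] at h
    obtain ⟨Q, hQ⟩ := h
    have h3 := congrArg (Polynomial.eval (z₀ (Fin.last n))) hQ
    rw [eval_pow, eval_mul, toP_eval, hP, toP_eval, hz₀, hz, zero_mul] at h3
    have hm0 : m ≠ 0 := by
      intro h
      rw [h, pow_zero] at h3
      exact one_ne_zero h3
    exact hG ((pow_eq_zero_iff hm0).mp h3)
  obtain ⟨j, hj⟩ : ∃ j, MvPolynomial.eval x₀ (R.coeff j) ≠ 0 := by
    by_contra hcon
    push Not at hcon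
    apply hne
    ext j
    rw [coeff_map, coeff_zero]
    exact hcon j
  have hTR : TD R (m * G.totalDegree) := by
    have hTP : TD P P.natDegree := fun j hj => ((TD_toP F) j hj).trans (h1.trans hmd)
    exact TD.mod hm hTP _ _ (Nat.lt_succ_self _) ((TD_toP G).pow m)
  refine ⟨R.coeff j, ?_, ?_, ?_⟩
  · intro h
    rw [h, map_zero] at hj
    exact hj rfl
  · have hj' : R.coeff j ≠ 0 := by
      intro h
      rw [h, map_zero] at hj
      exact hj rfl
    have := hTR j hj'
    omega
  · intro x hx
    by_contra hcon
    push Not at hcon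
    apply hx
    have hroots : ∀ t ∈ (P.map (MvPolynomial.eval x)).roots, (X - C t) ∣ (toP n G).map (MvPolynomial.eval x) := by
      intro t ht
      rw [dvd_iff_isRoot, IsRoot.def, toP_eval]
      apply hcon t
      rw [← toP_eval]
      exact isRoot_of_mem_roots ht
    have hsplit := (IsAlgClosed.splits (P.map (MvPolynomial.eval x))).eq_prod_roots_of_monic (hm.map _)
    have hdvd : P.map (MvPolynomial.eval x) ∣ (toP n G).map (MvPolynomial.eval x) ^ m := by
      have hcard : (P.map (MvPolynomial.eval x)).roots.card ≤ m := by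
        refine (card_roots' _).trans ?_
        exact natDegree_map_le.trans hd
      have h4 : ∀ s : Multiset Om, (∀ t ∈ s, (X - C t) ∣ (toP n G).map (MvPolynomial.eval x)) →
          (s.map fun t => X - C t).prod ∣ (toP n G).map (MvPolynomial.eval x) ^ Multiset.card s := by
        intro s
        induction s using Multiset.induction_on with
        | empty => intro _; simp
        | cons a s ih =>
          intro hs
          rw [Multiset.map_cons, Multiset.prod_cons, Multiset.card_cons, pow_succ, mul_comm]
          exact mul_dvd_mul (ih fun t ht => hs t (Multiset.mem_cons_of_mem ht)) (hs a (Multiset.mem_cons_self a s))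
      rw [hsplit]
      exact (h4 _ hroots).trans (pow_dvd_pow _ hcard)
    rw [← coeff_map, hmap, (modByMonic_eq_zero_iff_dvd (hm.map _)).mpr hdvd, coeff_zero]

end Pool.Agent.Helper64.VZ
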