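import Mathlib
import Pool.Agent.Helper64.VZ.Lift
import Pool.Agent.Helper64.VZ.RootC

/-!
Lifting of points of `P^n` to hypersurfaces of `P^(n+1)`.
-/

set_option autoImplicit false

namespace Pool.Agent.Helper64.VZ

open NumberField IntermediateField Module Height Pool.Agent.Helper64.Vojta Pool.Agent.VZ

universe u

variable {k : Type u} [Field k] [NumberField k]

section sec

variable {n : ℕ} {L : Type*} [Field L] [Algebra k L]

omit [NumberField k] in
theorem sec_last (z : Fin (n + 2) → L) :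
    ∑ j, algebraMap k L (Sec k n (Fin.last (n + 1)) j) * z j = ∑ j : Fin (n + 1), z j.castSucc := by
  rw [Fin.sum_univ_castSucc]
  have h1 : Sec k n (Fin.last (n + 1)) (Fin.last (n + 1)) = 0 := by
    simp [Sec]
  rw [h1, map_zero, zero_mul, add_zero]
  refine Finset.sum_congr rfl fun j _ => ?_
  have h2 : Sec k n (Fin.last (n + 1)) j.castSucc = 1 := by
    have := j.2
    simp only [Sec, Fin.val_castSucc, Fin.val_last]
    rw [if_pos ⟨by omega, Or.inl trivial⟩]
  rw [h2, map_one, one_mul]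

omit [NumberField k] in
theorem sec_cast (z : Fin (n + 2) → L) (i : Fin (n + 1)) :
    ∑ j, algebraMap k L (Sec k n i.castSucc j) * z j = z i.castSucc := by
  rw [Finset.sum_eq_single i.castSucc]
  · have h2 : Sec k n i.castSucc i.castSucc = 1 := by
      have := i.2
      simp only [Sec, Fin.val_castSucc]
      rw [if_pos ⟨by omega, Or.inr trivial⟩]
    rw [h2, map_one, one_mul]
  · intro j _ hj
    have h2 : Sec k n i.castSucc j = 0 := by
      have := i.2
      have h3 : (i : ℕ) ≠ j := fun h => hj (Fin.ext h.symm)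
      simp only [Sec, Fin.val_castSucc]
      rw [if_neg]
      rintro ⟨h4, h5 | h5⟩
      · omega
      · exact h3 h5
    rw [h2, map_zero, zero_mul]
  · intro h
    exact absurd (Finset.mem_univ _) h

end sec

omit [NumberField k] in
/-- the values of the sections at a point -/
theorem sec_vals (n : ℕ) (B : ℕ) (y : Fin (n + 1) → AlgebraicClosure k)
    (hint : ∀ i : Fin n, IsIntegral ℤ (y i.castSucc))
    (hd : ∀ i : Fin n, ∃ c, IsIntegral ℤ c ∧ y i.castSucc * c = B)
    (hs : ∃ c, IsIntegral ℤ c ∧ (1 + ∑ i : Fin n, y i.castSucc) * c = B) (i : Fin (n + 2)) :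
    ∃ c : 𝓞 (fld y), (c : fld y) = ∑ j, algebraMap k (fld y) (Sec k n i j) * crd y j ∧
      ∃ c', IsIntegral ℤ c' ∧ ((c : fld y) : AlgebraicClosure k) * c' = B := by
  have hval : ∀ (v : fld y), IsIntegral ℤ (v : AlgebraicClosure k) →
      (∃ c', IsIntegral ℤ c' ∧ (v : AlgebraicClosure k) * c' = B) →
      ∃ c : 𝓞 (fld y), (c : fld y) = v ∧ ∃ c', IsIntegral ℤ c' ∧ ((c : fld y) : AlgebraicClosure k) * c' = B := by
    intro v hv hv'
    exact ⟨⟨v, int_sub v.2 hv⟩, rfl, hv'⟩
  have hnat : ∀ t : ℕ, IsIntegral ℤ (t : AlgebraicClosure k) := fun t => by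
    have := isIntegral_algebraMap (R := ℤ) (A := AlgebraicClosure k) (x := (t : ℤ))
    simpa using this
  have hc0 : crd y 0 = 1 := rfl
  have hcs : ∀ j : Fin n, ((crd y (Fin.castSucc j.succ) : fld y) : AlgebraicClosure k) = y j.castSucc := by
    intro j
    rw [← Fin.succ_castSucc]
    rfl
  refine Fin.lastCases ?_ (fun i => ?_) i
  · rw [sec_last]
    have h1 : ((∑ j : Fin (n + 1), crd y j.castSucc : fld y) : AlgebraicClosure k) = 1 + ∑ i : Fin n, y i.castSucc := by
      rw [Fin.sum_univ_succ, AddMemClass.coe_add, AddSubmonoidClass.coe_finsetSum]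
      exact congrArg _ (Finset.sum_congr rfl fun j _ => hcs j)
    apply hval
    · rw [h1]
      exact isIntegral_one.add (IsIntegral.sum _ fun i _ => hint i)
    · rw [h1]
      exact hs
  · rw [sec_cast]
    apply hval
    · refine Fin.cases ?_ (fun j => ?_) i
      · exact isIntegral_one
      · rw [hcs]
        exact hint j
    · refine Fin.cases ?_ (fun j => ?_) i
      · refine ⟨B, hnat B, ?_⟩
        show (1 : AlgebraicClosure k) * B = B
        rw [one_mul]
      · rw [hcs]
        exact hd j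

/-- the Weil functions of the sections -/
theorem lam_sec (n : ℕ) (S : Finset (Pl k)) (hS : ∀ v : InfinitePlace k, Sum.inl v ∈ S) (b B : ℕ) (hb : b ≠ 0)
    (hB : B ≠ 0) (y : Fin (n + 1) → AlgebraicClosure k) (hint : ∀ i : Fin n, IsIntegral ℤ (y i.castSucc))
    (hbt : IsIntegral ℤ ((b : AlgebraicClosure k) * y (Fin.last n)))
    (hd : ∀ i : Fin n, ∃ c, IsIntegral ℤ c ∧ y i.castSucc * c = B)
    (hs : ∃ c, IsIntegral ℤ c ∧ (1 + ∑ i : Fin n, y i.castSucc) * c = B) :
    (∀ i, ∑ j, algebraMap k (fld y) (Sec k n i j) * crd y j ≠ 0) ∧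
    (n + 2) * hgt y - finrank ℚ k * ((n + 2) * (Real.log b + Real.log B)) ≤ lam (Sec k n) S y := by
  classical
  choose c hc c' hc' hcc' using fun i => sec_vals n B y hint hd hs i
  have hB' : (B : AlgebraicClosure k) ≠ 0 := by exact_mod_cast hB
  have hbO : (b : AlgebraicClosure k) ≠ 0 := by exact_mod_cast hb
  have hcne : ∀ i, c i ≠ 0 := by
    intro i h
    have h1 := hcc' i
    rw [h] at h1
    apply hB'
    rw [← h1]
    simp
  have hne : ∀ i, ∑ j, algebraMap k (fld y) (Sec k n i j) * crd y j ≠ 0 := by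
    intro i
    rw [← hc i]
    exact RingOfIntegers.coe_ne_zero_iff.mpr (hcne i)
  refine ⟨hne, ?_⟩
  have hnat : ∀ t : ℕ, IsIntegral ℤ (t : AlgebraicClosure k) := fun t => by
    have := isIntegral_algebraMap (R := ℤ) (A := AlgebraicClosure k) (x := (t : ℤ))
    simpa using this
  have hc0 : crd y 0 = 1 := rfl
  have hy0 := crd_ne_zero y
  have hL := finrank_pos' (fld y)
  have hk := finrank_pos' k
  have hdg := dg_pos y
  -- the integral multiple of the coordinates
  have hz : ∀ i : Fin (n + 2), IsIntegral ℤ (((b : fld y) * crd y i : fld y) : AlgebraicClosure k) := by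
    intro i
    have e1 : (((b : fld y) * crd y i : fld y) : AlgebraicClosure k) =
        (b : AlgebraicClosure k) * ((crd y i : fld y) : AlgebraicClosure k) := by push_cast; rfl
    rw [e1]
    refine Fin.cases ?_ (fun j => ?_) i
    · rw [hc0]
      show IsIntegral ℤ ((b : AlgebraicClosure k) * 1)
      rw [mul_one]
      exact hnat b
    · refine Fin.lastCases ?_ (fun j => ?_) j
      · exact hbt
      · exact (hnat b).mul (hint j)
  let z : Fin (n + 2) → 𝓞 (fld y) := fun i => ⟨(b : fld y) * crd y i, int_sub ((b : fld y) * crd y i).2 (hz i)⟩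
  have hzc : (fun i => ((z i : 𝓞 (fld y)) : fld y)) = (b : fld y) • crd y := by
    funext i
    rfl
  have hbL : (b : fld y) ≠ 0 := by exact_mod_cast hb
  have hz0 : (fun i => ((z i : 𝓞 (fld y)) : fld y)) ≠ 0 := by
    rw [hzc]
    exact smul_ne_zero hbL hy0
  have h1 := le_sum_sn z hz0
  rw [hzc, logHeight_smul_eq_logHeight _ hbL] at h1
  have hsnb : ∀ w : InfinitePlace (fld y), Real.log (sn (.inl w) ((b : fld y) • crd y)) =
      w.mult * Real.log b + Real.log (sn (.inl w) (crd y)) := by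
    intro w
    have h2 : sn (.inl w) ((b : fld y) • crd y) = nv (.inl w) (b : fld y) * sn (.inl w) (crd y) := by
      unfold sn
      rw [Real.mul_iSup_of_nonneg (nv_nonneg _ _)]
      congr 1
      funext i
      rw [Pi.smul_apply, smul_eq_mul, nv_mul]
    have h3 : nv (.inl w) (b : fld y) = (b : ℝ) ^ w.mult := by
      show w (b : fld y) ^ w.mult = _
      rw [← InfinitePlace.norm_embedding_eq, map_natCast, Complex.norm_natCast]
    rw [h2, Real.log_mul (nv_pos _ hbL).ne' (sn_pos _ hy0).ne', h3, Real.log_pow]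
  simp only [hsnb] at h1
  rw [Finset.sum_add_distrib, ← Finset.sum_mul, sum_mult] at h1
  -- the local terms
  set f : Pl (fld y) → ℝ := fun w => ∑ i, (Real.log (sn w (crd y)) -
    Real.log (nv w (∑ j, algebraMap k (fld y) (Sec k n i j) * crd y j))) with hf
  have hfin : ∀ w : FinitePlace (fld y), 0 ≤ f (.inr w) := by
    intro w
    apply Finset.sum_nonneg
    intro i _
    have h2 : 1 ≤ sn (.inr w) (crd y) := by
      have := le_sn (.inr w) (crd y) 0
      rwa [hc0, nv_one] at this
    have h3 : Real.log (nv (.inr w) (∑ j, algebraMap k (fld y) (Sec k n i j) * crd y j)) ≤ 0 := by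
      rw [← hc i]
      exact Real.log_nonpos (nv_nonneg _ _) (nv_int_le_one w (c i))
    have h4 := Real.log_nonneg h2
    linarith
  have h2 := sum_above_ge S hS f hfin
  have h3 : ∑ w : InfinitePlace (fld y), f (.inl w) =
      (n + 2) * ∑ w : InfinitePlace (fld y), Real.log (sn (.inl w) (crd y)) - ∑ i, ln (c i) := by
    rw [hf]
    simp only [Finset.sum_sub_distrib, Finset.sum_const, Finset.card_univ, Fintype.card_fin, nsmul_eq_mul]
    rw [← Finset.mul_sum]
    congr 1
    · push_cast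
      ring
    · rw [Finset.sum_comm]
      refine Finset.sum_congr rfl fun i _ => ?_
      unfold ln
      rw [log_norm_eq _ (hcne i)]
      exact Finset.sum_congr rfl fun w _ => by rw [hc i]
  have h4 : ∑ i, ln (c i) ≤ (n + 2) * (finrank ℚ (fld y) * Real.log B) := by
    have h5 : ∑ i, ln (c i) ≤ ∑ _i : Fin (n + 2), finrank ℚ (fld y) * Real.log B :=
      Finset.sum_le_sum fun i _ => ln_dvd (fld y) (c i) B hB (c' i) (hc' i) (hcc' i)
    refine h5.trans (le_of_eq ?_)
    rw [Finset.sum_const, Finset.card_univ, Fintype.card_fin, nsmul_eq_mul]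
    push_cast
    ring
  have hlam : (dg y : ℝ) * lam (Sec k n) S y = ∑ ν ∈ S, ∑ w ∈ above (fld y) ν, f w := by
    unfold lam
    rw [mul_div_cancel₀ _ hdg.ne']
  have hhgt : (dg y : ℝ) * hgt y = logHeight (crd y) := by
    unfold hgt
    rw [mul_div_cancel₀ _ hdg.ne']
  have hfr := finrank_eq_dg y
  have hn2 : (0 : ℝ) ≤ (n : ℝ) + 2 := by positivity
  have h6 : (dg y : ℝ) * ((n + 2) * hgt y - finrank ℚ k * ((n + 2) * (Real.log b + Real.log B))) ≤
      dg y * lam (Sec k n) S y := by
    rw [hlam]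
    refine le_trans ?_ h2
    rw [h3]
    have h7 := mul_le_mul_of_nonneg_left h1 hn2
    rw [← hhgt, hfr] at h7
    rw [hfr] at h4
    nlinarith
  exact le_of_mul_le_mul_left h6 hdg

/-- the height of the projection -/
theorem hgt_proj (n : ℕ) (x : Fin n → AlgebraicClosure k) (t : AlgebraicClosure k) :
    hgt x ≤ hgt (Fin.snoc (α := fun _ => AlgebraicClosure k) x t) := by
  set y := Fin.snoc (α := fun _ => AlgebraicClosure k) x t with hy
  have hyx : ∀ j : Fin n, y j.castSucc = x j := fun j => by rw [hy, Fin.snoc_castSucc]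
  have hle : fld x ≤ fld y := by
    unfold fld
    rw [adjoin_le_iff]
    rintro _ ⟨j, rfl⟩
    rw [← hyx]
    exact subset_adjoin k _ (Set.mem_range_self _)
  rw [hgt_incl x y hle]
  unfold hgt
  apply div_le_div_of_nonneg_right _ (dg_pos y).le
  have e2 : (fun i => inclusion hle (crd x i)) = fun i => crd y (Fin.castSucc i) := by
    funext i
    apply Subtype.ext
    refine Fin.cases ?_ (fun j => ?_) i
    · rfl
    · show x j = ((crd y (Fin.castSucc j.succ) : fld y) : AlgebraicClosure k)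
      rw [← Fin.succ_castSucc, ← hyx]
      rfl
  rw [e2]
  exact logHeight_comp_le Fin.castSucc (crd y)

/-- Lifting of a family of points to a hypersurface. -/
theorem hyper {n : ℕ} (m : ℕ) (F : MvPolynomial (Fin (n + 1)) k) (hF1 : F.totalDegree ≤ m)
    (hF2 : F.coeff (Finsupp.single (Fin.last n) m) = 1)
    (G : MvPolynomial (Fin (n + 1)) (AlgebraicClosure k)) (z₀ : Fin (n + 1) → AlgebraicClosure k)
    (hz₀ : MvPolynomial.aeval z₀ F = 0) (hz₀' : MvPolynomial.aeval z₀ (MvPolynomial.pderiv (Fin.last n) F) ≠ 0)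
    (hG : MvPolynomial.eval z₀ G ≠ 0) :
    ∃ Hh : MvPolynomial (Fin n) (AlgebraicClosure k), Hh ≠ 0 ∧ Hh.totalDegree ≤ m * (G.totalDegree + (m - 1)) ∧
      ∀ (ν : ℝ) (r : ℕ), 0 < ν → Fam n ν r Hh → ∀ α ε : ℝ, 0 ≤ α → α < ν * (m - ε - α * (m - 1)) →
      ∀ S : Finset (Pl k), (∀ v : InfinitePlace k, Sum.inl v ∈ S) → ∀ C : ℝ,
      ∃ y : Fin (n + 1) → AlgebraicClosure k, MvPolynomial.aeval y F = 0 ∧ dg y ≤ r * m ∧
        MvPolynomial.eval y G ≠ 0 ∧ (∀ i, ∑ j, algebraMap k (fld y) (Sec k n i j) * crd y j ≠ 0) ∧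
        ε * hgt y + α * dk y + C < (m - n - 2) * hgt y + lam (Sec k n) S y := by
  classical
  have hk := finrank_pos' k
  obtain ⟨C₁, b, hb0, hlift⟩ := bd_lift m F hF1 hF2
  have hmap : ∀ (A : MvPolynomial (Fin (n + 1)) k) (z : Fin (n + 1) → AlgebraicClosure k),
      MvPolynomial.eval z (MvPolynomial.map (algebraMap k (AlgebraicClosure k)) A) = MvPolynomial.aeval z A := by
    intro A z
    rw [MvPolynomial.eval_map, MvPolynomial.aeval_def]
  have htd : ∀ A : MvPolynomial (Fin (n + 1)) k,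
      (MvPolynomial.map (algebraMap k (AlgebraicClosure k)) A).totalDegree ≤ A.totalDegree := fun A =>
    Finset.sup_mono (MvPolynomial.support_map_subset _ _)
  obtain ⟨Hh, hHh, hHdeg, hroot⟩ := root_choice m (MvPolynomial.map (algebraMap k (AlgebraicClosure k)) F)
    ((htd F).trans hF1) (by rw [MvPolynomial.coeff_map, hF2, map_one])
    (G * MvPolynomial.map (algebraMap k (AlgebraicClosure k)) (MvPolynomial.pderiv (Fin.last n) F)) z₀
    (by rw [hmap, hz₀]) (by rw [map_mul, hmap]; exact mul_ne_zero hG hz₀')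
  refine ⟨Hh, hHh, ?_, ?_⟩
  · refine hHdeg.trans (Nat.mul_le_mul_left _ ?_)
    refine (MvPolynomial.totalDegree_mul _ _).trans (Nat.add_le_add_left ?_ _)
    exact (htd _).trans ((totalDegree_pderiv_le _ _).trans (Nat.sub_le_sub_right hF1 1))
  intro ν r hν hfam α ε hα hαν S hS C
  obtain ⟨B, c₁, hB, hpts⟩ := hfam
  set β : ℝ := m - ε - α * (m - 1) with hβ
  have hβ0 : 0 < β := by
    by_contra h
    push Not at h
    have := mul_nonpos_of_nonneg_of_nonpos hν.le h
    linarith
  set D : ℝ := (n + 2) * (Real.log b + Real.log B) with hD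
  set A : ℝ := ν * β - α with hA
  have hA0 : 0 < A := by rw [hA]; linarith
  set K : ℝ := β * c₁ + α * (c₁ + C₁ - rd k) + D with hK
  obtain ⟨x, T, hT, hint, hdv, hsum, ⟨E, hxE, hbd⟩, hh, hne⟩ := hpts ((|C / finrank ℚ k| + |K| + 1) / A)
  obtain ⟨t, ht1, ht2⟩ := hroot x hne
  rw [hmap] at ht1
  rw [map_mul, hmap] at ht2
  set y := Fin.snoc (α := fun _ => AlgebraicClosure k) x t with hy
  have hyx : ∀ j : Fin n, y j.castSucc = x j := fun j => by rw [hy, Fin.snoc_castSucc]
  obtain ⟨h1, h2, h3⟩ := hlift hbd y (fun i => by rw [hyx]; exact hxE i) (fun i => by rw [hyx]; exact hint i) ht1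
    (right_ne_zero_of_mul ht2)
  obtain ⟨h4, h5⟩ := lam_sec n S hS b B hb0 hB y (fun i => by rw [hyx]; exact hint i) h1
    (fun i => by rw [hyx]; exact hdv i) (by simp only [hyx]; exact hsum)
  refine ⟨y, ht1, h2, left_ne_zero_of_mul ht2, h4, ?_⟩
  have h6 : hgt x ≤ hgt y := hgt_proj n x t
  have h7 := mul_le_mul_of_nonneg_left h3 hα
  have h8 := mul_le_mul_of_nonneg_left (hh.trans h6) hβ0.le
  have h11 : |C / finrank ℚ k| + |K| + 1 ≤ A * T := by
    rw [div_le_iff₀ hA0] at hT
    linarith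
  have h12 := le_abs_self (C / finrank ℚ k)
  have h13 := le_abs_self K
  have h14 : C / finrank ℚ k < A * T - K := by linarith
  rw [div_lt_iff₀ hk] at h14
  have h15 : (A * T - K) * finrank ℚ k =
      β * (finrank ℚ k * (ν * T - c₁)) - α * (finrank ℚ k * (T + c₁ + C₁ - rd k)) - finrank ℚ k * D := by
    rw [hA, hK]
    ring
  rw [h15] at h14
  have h16 : β * hgt y = (m - ε) * hgt y - α * ((m - 1) * hgt y) := by
    rw [hβ]
    ring
  nlinarith

end Pool.Agent.Helper64.VZ
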