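import Mathlib
import Pool.Agent.Helper64.VZ.LiftMain

/-!
A point of an irreducible hypersurface outside `G = 0` and outside the zeros of the derivative.
-/

set_option autoImplicit false

namespace Pool.Agent.Helper64.VZ

open MvPolynomial

universe u

theorem exists_good {Om : Type u} [Field Om] [IsAlgClosed Om] [CharZero Om] {n : ℕ} (m : ℕ)
    (F : MvPolynomial (Fin (n + 1)) Om) (h1 : F.totalDegree ≤ m)
    (h2 : F.coeff (Finsupp.single (Fin.last n) m) = 1) (hirr : Irreducible F)
    (G : MvPolynomial (Fin (n + 1)) Om) (hG : ∃ z, eval z F = 0 ∧ eval z G ≠ 0) :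
    ∃ z, eval z F = 0 ∧ eval z (pderiv (Fin.last n) F) ≠ 0 ∧ eval z G ≠ 0 := by
  classical
  have hm0 : m ≠ 0 := by
    rintro rfl
    have h3 : F.totalDegree = 0 := Nat.le_zero.mp h1
    rw [totalDegree_eq_zero_iff_eq_C] at h3
    rw [Finsupp.single_zero] at h2
    rw [h2, C_1] at h3
    rw [h3] at hirr
    exact not_irreducible_one hirr
  by_contra hcon
  push Not at hcon
  have hp : Prime F := hirr.prime
  have hmem : pderiv (Fin.last n) F * G ∈ vanishingIdeal Om (zeroLocus Om (Ideal.span {F})) := by
    rw [mem_vanishingIdeal_iff]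
    intro z hz
    rw [mem_zeroLocus_iff] at hz
    have h3 := hz F (Ideal.mem_span_singleton_self F)
    rw [aeval_eq_eval] at h3 ⊢
    by_cases h4 : eval z (pderiv (Fin.last n) F) = 0
    · simp [h4]
    · have := hcon z h3 h4
      simp [this]
  rw [vanishingIdeal_zeroLocus_eq_radical, ((Ideal.span_singleton_prime hp.ne_zero).mpr hp).radical,
    Ideal.mem_span_singleton] at hmem
  rcases hp.dvd_or_dvd hmem with h3 | h3
  · have h4 : pderiv (Fin.last n) F ≠ 0 := by
      intro h
      have h5 := congrArg (coeff (Finsupp.single (Fin.last n) (m - 1))) h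
      rw [coeff_pderiv, coeff_zero] at h5
      have h6 : (Finsupp.single (Fin.last n) (m - 1) + Finsupp.single (Fin.last n) 1 : Fin (n + 1) →₀ ℕ) =
          Finsupp.single (Fin.last n) m := by
        rw [← Finsupp.single_add]
        congr 1
        omega
      rw [h6, h2, one_mul, Finsupp.single_eq_same] at h5
      have h7 : ((m - 1 : ℕ) : Om) + 1 = (m : Om) := by
        have : m = (m - 1) + 1 := by omega
        conv_rhs => rw [this]
        push_cast
        rfl
      rw [h7] at h5
      exact hm0 (by exact_mod_cast h5)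
    obtain ⟨Q, hQ⟩ := h3
    have hQ0 : Q ≠ 0 := by
      rintro rfl
      rw [mul_zero] at hQ
      exact h4 hQ
    have h5 := totalDegree_mul_of_isDomain hp.ne_zero hQ0
    rw [← hQ] at h5
    have h6 := totalDegree_pderiv_le (Fin.last n) F
    have h7 : m ≤ F.totalDegree := by
      have h8 : (Finsupp.single (Fin.last n) m : Fin (n + 1) →₀ ℕ) ∈ F.support := by
        rw [mem_support_iff, h2]
        exact one_ne_zero
      have := le_totalDegree h8
      rwa [Finsupp.sum_single_index rfl] at this
    omega
  · obtain ⟨Q, hQ⟩ := h3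
    obtain ⟨z, hz1, hz2⟩ := hG
    apply hz2
    rw [hQ, map_mul, hz1, zero_mul]

end Pool.Agent.Helper64.VZ
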