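import Mathlib
import Pool.Agent.Helper64.VZ.StdIII
import Pool.Agent.Helper36.VZ0.Final0
import Pool.Agent.Helper36.VZ0.Fam0
import Pool.Agent.Helper77.VE.Reduce
import Pool.Agent.Helper64.VZ.FamN
import Pool.Agent.Helper64.VZ.Nullst

/-!
The coefficient of the discriminant in Vojta's conjecture and the parameters on which the exceptional
set must depend, for hyperplanes in general position of `P^n`, for Fermat hypersurfaces, and for every
hypersurface of `P^(n+1)` with `n + 2` of its plane sections.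

`k` is a number field and `S` a finite set of places containing the infinite ones. A point of `P^n` is
given by its affine coordinates `y` in an algebraic closure of `k`; `dg y` is its degree over `k`, `hgt y` its
height and `dk y` its logarithmic discriminant, relative to `k`, and `lam Λ S y` is the sum over the places of
`S` of the Weil functions, relative to `k`, of the hyperplanes `Λ i = 0`. These definitions, `GenPos` (general
position) and `Violates` are in `Pool/Agent/Helper64/VZ/Defs.lean`, `Sec` and `ViolatesOn` in `VZ/Hyper.lean`. Every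
proper closed subset of `P^n` is, in the affine chart, contained in a hypersurface `G = 0`.
-/

set_option autoImplicit false

namespace Pool.Agent.Results.MP_71c16a_nt.ExceptionalSet

open NumberField MvPolynomial Pool.Agent.VZ
open Pool.Agent.Helper64.Vojta (Pl)

universe u

/-- `D` = sum of `q ≥ n + 2` hyperplanes of `P^n` in general position, `α, ε ≥ 0`, `G ≠ 0`. In each of the cases
(0) `α + ε < 1`, `r = 4`;
(I) `α < (1 - ε) n`, `r = 2 ^ ((n - 1) s + 2)` with `2 ^ s > deg G + q`;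
(II) `α + ε (1 + B + … + B ^ (n - 1)) < n`, `B > deg G + q`, `r = 4`;
for every `C` there is a point `y` of degree at most `r`, outside `D` and `G = 0`, with
`h_K(y) + ∑_{ν ∈ S} λ_D(y,ν) > ε h(y) + α d_k(y) + C`.
(III) The same as (I), without `D`, holds for the Fermat hypersurface `X`, given by `1 + ∑_{i ≤ n+1} y_i ^ m = 0`, of
dimension `n`, `h_K = (m - n - 2) h`, if `α m < (m - n - 2 - ε) n`, with `r = 2 ^ ((n - 1) s + 2) m ^ (n + 1)`, `2 ^ s > deg G`,
`s > 0`, for every `G` which does not vanish on all of `X`.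
(IV) Let `X` be a hypersurface `F = 0` of `P^(n+1)` of degree `m`, irreducible over the algebraic closure, which does
not contain the point `(0 : … : 0 : 1)`; after division of `F` by a constant, the coefficient of `y_{n+1} ^ m` is `1`. Let
`D` be the sum of its sections by `X_0, …, X_n` and `X_0 + … + X_n`, `h_K = (m - n - 2) h`, and let `G` not vanish on all of `X`. The
same holds, with points of `X`, if
`α m + ε < m`, `r = 4 m`, and if
`α ((m - 1) n + 1) < (m - ε) n`, `r = 2 ^ ((n - 1) s + 2) m`, `2 ^ s > m (deg G + m)`. -/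
theorem result (k : Type u) [Field k] [NumberField k] (S : Finset (Pl k))
    (hS : ∀ v : InfinitePlace k, Sum.inl v ∈ S) (n : ℕ) (hn : 0 < n) (α ε : ℝ) (hα : 0 ≤ α) (hε : 0 ≤ ε) :
    (∀ (q : ℕ) (Λ : Fin q → Fin (n + 1) → k), n + 2 ≤ q → GenPos Λ →
      ∀ G : MvPolynomial (Fin n) (AlgebraicClosure k), G ≠ 0 →
        (α + ε < 1 → ∀ C : ℝ, ∃ y, dg y ≤ 4 ∧ Violates S Λ G α ε C y) ∧
        (∀ s : ℕ, G.totalDegree + q < 2 ^ s → α < (1 - ε) * n →
          ∀ C : ℝ, ∃ y, dg y ≤ 2 ^ ((n - 1) * s + 2) ∧ Violates S Λ G α ε C y) ∧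
        (∀ B : ℕ, G.totalDegree + q < B → α + ε * ∑ j ∈ Finset.range n, (B : ℝ) ^ j < n →
          ∀ C : ℝ, ∃ y, dg y ≤ 4 ∧ Violates S Λ G α ε C y)) ∧
    (∀ m : ℕ, α * m < (m - n - 2 - ε) * n →
      ∀ G : MvPolynomial (Fin (n + 1)) (AlgebraicClosure k),
        (∃ z, 1 + ∑ i, z i ^ m = 0 ∧ eval z G ≠ 0) → ∀ s : ℕ, 0 < s → G.totalDegree < 2 ^ s →
          ∀ C : ℝ, ∃ y : Fin (n + 1) → AlgebraicClosure k, 1 + ∑ i, y i ^ m = 0 ∧
            dg y ≤ 2 ^ ((n - 1) * s + 2) * m ^ (n + 1) ∧ eval y G ≠ 0 ∧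
            ε * hgt y + α * dk y + C < (m - n - 2) * hgt y) ∧
    (∀ (m : ℕ) (F : MvPolynomial (Fin (n + 1)) k), F.totalDegree ≤ m →
      F.coeff (Finsupp.single (Fin.last n) m) = 1 → Irreducible (map (algebraMap k (AlgebraicClosure k)) F) →
      ∀ G : MvPolynomial (Fin (n + 1)) (AlgebraicClosure k), (∃ z, aeval z F = 0 ∧ eval z G ≠ 0) →
        (α * m + ε < m → ∀ C : ℝ, ∃ y, dg y ≤ 4 * m ∧ ViolatesOn S m F G α ε C y) ∧
        (∀ s : ℕ, m * (G.totalDegree + m) < 2 ^ s → α * ((m - 1) * n + 1) < (m - ε) * n →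
          ∀ C : ℝ, ∃ y, dg y ≤ 2 ^ ((n - 1) * s + 2) * m ∧ ViolatesOn S m F G α ε C y)) := by
  refine ⟨fun q Λ hq hΛ G hG => ?_, fun m hm G hG s hs0 hs C => ?_, fun m F hF1 hF2 hirr G hG => ?_⟩
  · obtain ⟨G2, hG2, hdeg, hred⟩ := Helper77.VE.reduce S q Λ hq hΛ G hG
    refine ⟨fun h C => ?_, fun s hs h C => ?_, fun B hB h C => ?_⟩
    · obtain ⟨C', hC'⟩ := hred α ε C
      obtain ⟨z, hz1, hz2⟩ := Pool.Agent.Helper36.VZ0.z0 S hS n hn α ε hα hε h G2 hG2 C'
      obtain ⟨y, hy1, hy2⟩ := hC' z hz2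
      exact ⟨y, by rw [hy1]; exact hz1, hy2⟩
    · obtain ⟨C', hC'⟩ := hred α ε C
      have hs0 : 0 < s := by
        rcases Nat.eq_zero_or_pos s with h0 | h0
        · rw [h0] at hs
          omega
        · exact h0
      obtain ⟨z, hz1, hz2⟩ := Pool.Agent.Helper64.VZ.std_I S hS n hn α ε hα h G2 hG2 s hs0
        (lt_of_le_of_lt hdeg hs) C'
      obtain ⟨y, hy1, hy2⟩ := hC' z hz2
      exact ⟨y, by rw [hy1]; exact hz1, hy2⟩
    · obtain ⟨C', hC'⟩ := hred α ε C
      obtain ⟨z, hz1, hz2⟩ := Pool.Agent.Helper64.VZ.std_II S hS n hn α ε hα G2 hG2 B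
        (lt_of_le_of_lt hdeg hB) h C'
      obtain ⟨y, hy1, hy2⟩ := hC' z hz2
      exact ⟨y, by rw [hy1]; exact hz1, hy2⟩
  · obtain ⟨z₀, hz₀, hGz⟩ := hG
    exact Pool.Agent.Helper64.VZ.fermat S hS n hn α ε hα hε m hm G z₀ hz₀ hGz s hs0 hs C
  · have hmap : ∀ (A : MvPolynomial (Fin (n + 1)) k) (z : Fin (n + 1) → AlgebraicClosure k),
        eval z (map (algebraMap k (AlgebraicClosure k)) A) = aeval z A := by
      intro A z
      rw [eval_map, aeval_def]
    obtain ⟨z, hz1, hz2, hz3⟩ := Pool.Agent.Helper64.VZ.exists_good m (map (algebraMap k (AlgebraicClosure k)) F)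
      ((Finset.sup_mono (support_map_subset _ _)).trans hF1) (by rw [coeff_map, hF2, map_one]) hirr G (by
        obtain ⟨z, hz1, hz2⟩ := hG
        exact ⟨z, by rw [hmap]; exact hz1, hz2⟩)
    rw [hmap] at hz1
    rw [pderiv_map, hmap] at hz2
    obtain ⟨Hh, hHh, hHdeg, hH⟩ := Pool.Agent.Helper64.VZ.hyper m F hF1 hF2 G z hz1 hz2 hz3
    have hn' : (0 : ℝ) < n := by exact_mod_cast hn
    refine ⟨fun h C => ?_, fun s hs h C => ?_⟩
    · obtain ⟨y, h1, h2, h3, h4, h5⟩ := hH 1 4 one_pos (Pool.Agent.Helper36.VZ0.fam0 n hn Hh hHh) α ε hα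
        (by linarith) S hS C
      exact ⟨y, h2, h1, h3, h4, h5⟩
    · have hs0 : 0 < s := by
        rcases Nat.eq_zero_or_pos s with h0 | h0
        · rw [h0, pow_zero] at hs
          have hm0 : m = 0 := by
            rcases Nat.eq_zero_or_pos m with hm | hm
            · exact hm
            · nlinarith
          rw [hm0, Finsupp.single_zero] at hF2
          have h3 : F.totalDegree = 0 := by
            rw [hm0] at hF1
            exact Nat.le_zero.mp hF1
          rw [totalDegree_eq_zero_iff_eq_C] at h3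
          rw [hF2] at h3
          rw [h3] at hirr
          simp at hirr
        · exact h0
      obtain ⟨y, h1, h2, h3, h4, h5⟩ := hH n (2 ^ ((n - 1) * s + 2)) hn'
        (Pool.Agent.Helper64.VZ.fam_n n s hs0 Hh hHh (lt_of_le_of_lt (hHdeg.trans
          (Nat.mul_le_mul_left _ (by omega))) hs)) α ε hα (by linarith) S hS C
      exact ⟨y, h2, h1, h3, h4, h5⟩

end Pool.Agent.Results.MP_71c16a_nt.ExceptionalSet
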