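import Mathlib
import Pool.Agent.Helper64.VZ.Defs

set_option autoImplicit false

namespace Pool.Agent.VZ

open NumberField IntermediateField MvPolynomial Pool.Agent.Helper64.Vojta

universe u

/-- Draft of the final statement. -/
def Final : Prop := ∀ (k : Type u) [Field k] [NumberField k] (S : Finset (Pl k))
    (_ : ∀ v : InfinitePlace k, Sum.inl v ∈ S) (n : ℕ) (_ : 0 < n) (α ε : ℝ) (_ : 0 ≤ α) (_ : 0 ≤ ε),
    (∀ (q : ℕ) (Λ : Fin q → Fin (n + 1) → k), n + 2 ≤ q → GenPos Λ →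
      ∀ G : MvPolynomial (Fin n) (AlgebraicClosure k), G ≠ 0 →
        (α + ε < 1 → ∀ C : ℝ, ∃ y, dg y ≤ 4 ∧ Violates S Λ G α ε C y) ∧
        (∀ s : ℕ, G.totalDegree + q < 2 ^ s → α < (1 - ε) * n →
          ∀ C : ℝ, ∃ y, dg y ≤ 2 ^ ((n - 1) * s + 2) ∧ Violates S Λ G α ε C y) ∧
        (∀ B : ℕ, G.totalDegree + q < B → α + ε * ∑ j ∈ Finset.range n, (B : ℝ) ^ j < n →
          ∀ C : ℝ, ∃ y, dg y ≤ 4 ∧ Violates S Λ G α ε C y)) ∧
    (∀ m : ℕ, α * m < (m - n - 2 - ε) * n →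
      ∀ G : MvPolynomial (Fin (n + 1)) (AlgebraicClosure k),
        (∃ z, 1 + ∑ i, z i ^ m = 0 ∧ eval z G ≠ 0) → ∀ s : ℕ, G.totalDegree < 2 ^ s →
          ∀ C : ℝ, ∃ y : Fin (n + 1) → AlgebraicClosure k, 1 + ∑ i, y i ^ m = 0 ∧
            dg y ≤ 2 ^ ((n - 1) * s + 2) * m ^ (n + 1) ∧ eval y G ≠ 0 ∧
            ε * hgt y + α * dk y + C < (m - n - 2) * hgt y)

end Pool.Agent.VZ
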